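import Pool.Agent.Helper651.SRF.Defs

set_option autoImplicit false
open MeasureTheory Set Filter Topology Classical
open scoped ENNReal Nat

namespace Pool.Agent.Helper651.SR

theorem xy_aux {V : Type} {U : V × V → ℝ}
    (hinj : ∀ v, Function.Injective (fun w => U (v, w))) {m m0 : V → V} (hm : IsM m)
    (hm0 : IsM m0) (hs0 : Stab U m0) (v : V) (hv : U (v, m v) < U (v, m0 v)) :
    U (m v, m0 (m v)) < U (m v, m (m v)) := by
  have h1 : v ≠ m v := (hm v).2.symm
  have h2 := hs0 v (m v) h1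
  rw [(hm v).1]
  have h3 : U (m v, m0 (m v)) ≤ U (m v, v) := by
    by_contra h
    push Not at h
    exact h2 ⟨hv, h⟩
  refine lt_of_le_of_ne h3 (fun h => ?_)
  have h4 : m0 (m v) = v := hinj (m v) h
  have h5 : m0 v = m v := by
    have h6 := (hm0 (m v)).1
    rw [h4] at h6
    exact h6
  rw [h5] at hv
  exact lt_irrefl _ hv

theorem xy {V : Type} [Fintype V] {U : V × V → ℝ}
    (hinj : ∀ v, Function.Injective (fun w => U (v, w))) {m m0 : V → V} (hm : IsM m)
    (hs : Stab U m) (hm0 : IsM m0) (hs0 : Stab U m0) (v : V) :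
    (U (v, m v) < U (v, m0 v) → U (m v, m0 (m v)) < U (m v, m (m v)) ∧
      U (m0 v, m0 (m0 v)) < U (m0 v, m (m0 v))) ∧
    (U (v, m0 v) < U (v, m v) → U (m v, m (m v)) < U (m v, m0 (m v)) ∧
      U (m0 v, m (m0 v)) < U (m0 v, m0 (m0 v))) := by
  have hA : ∀ v, U (v, m v) < U (v, m0 v) → U (m v, m0 (m v)) < U (m v, m (m v)) :=
    fun v hv => xy_aux hinj hm hm0 hs0 v hv
  have hB : ∀ v, U (v, m0 v) < U (v, m v) → U (m0 v, m (m0 v)) < U (m0 v, m0 (m0 v)) :=
    fun v hv => xy_aux hinj hm0 hm hs v hv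
  set X : Finset V := Finset.univ.filter (fun v => U (v, m v) < U (v, m0 v)) with hX
  set Y : Finset V := Finset.univ.filter (fun v => U (v, m0 v) < U (v, m v)) with hY
  have memX : ∀ v, v ∈ X ↔ U (v, m v) < U (v, m0 v) := by
    intro v
    rw [hX, Finset.mem_filter]
    exact ⟨fun h => h.2, fun h => ⟨Finset.mem_univ _, h⟩⟩
  have memY : ∀ v, v ∈ Y ↔ U (v, m0 v) < U (v, m v) := by
    intro v
    rw [hY, Finset.mem_filter]
    exact ⟨fun h => h.2, fun h => ⟨Finset.mem_univ _, h⟩⟩
  have hmi : Function.Injective m := by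
    intro a b hab
    have h1 := (hm a).1
    rw [hab, (hm b).1] at h1
    exact h1.symm
  have hm0i : Function.Injective m0 := by
    intro a b hab
    have h1 := (hm0 a).1
    rw [hab, (hm0 b).1] at h1
    exact h1.symm
  have hsub1 : X.image m ⊆ Y := by
    intro y hy
    obtain ⟨x, hx, rfl⟩ := Finset.mem_image.1 hy
    exact (memY _).2 (hA x ((memX x).1 hx))
  have hsub2 : Y.image m0 ⊆ X := by
    intro y hy
    obtain ⟨x, hx, rfl⟩ := Finset.mem_image.1 hy
    exact (memX _).2 (hB x ((memY x).1 hx))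
  have hc1 : (X.image m).card = X.card := Finset.card_image_of_injective _ hmi
  have hc2 : (Y.image m0).card = Y.card := Finset.card_image_of_injective _ hm0i
  have hle1 := Finset.card_le_card hsub1
  have hle2 := Finset.card_le_card hsub2
  have heq1 : X.image m = Y := Finset.eq_of_subset_of_card_le hsub1 (by omega)
  have heq2 : Y.image m0 = X := Finset.eq_of_subset_of_card_le hsub2 (by omega)
  refine ⟨fun hv => ⟨hA v hv, ?_⟩, fun hv => ⟨?_, hB v hv⟩⟩
  · have h1 : v ∈ Y.image m0 := by rw [heq2]; exact (memX v).2 hv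
    obtain ⟨y, hy, hyv⟩ := Finset.mem_image.1 h1
    rw [← memY, ← hyv, (hm0 y).1]
    exact hy
  · have h1 : v ∈ X.image m := by rw [heq1]; exact (memY v).2 hv
    obtain ⟨y, hy, hyv⟩ := Finset.mem_image.1 h1
    rw [← memX, ← hyv, (hm y).1]
    exact hy

end Pool.Agent.Helper651.SR
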