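import Pool.Agent.Helper651.SRF.Defs
import Pool.Agent.Helper651.SRF.Xy

set_option autoImplicit false
open MeasureTheory Set Filter Topology Classical
open scoped ENNReal Nat

namespace Pool.Agent.Helper651.SR

theorem best_ex {V : Type} [Fintype V] {U : V × V → ℝ}
    (hinj : ∀ v, Function.Injective (fun w => U (v, w))) {m m0 : V → V} (hm : IsM m)
    (hs : Stab U m) (hm0 : IsM m0) (hs0 : Stab U m0) (v : V) (hv : U (v, m v) < U (v, m0 v)) :
    ∃ c, Best U m v c := by
  have hne : (Finset.univ.filter (fun d : V => d ≠ v ∧ U (d, v) < U (d, m d))).Nonempty := by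
    refine ⟨m0 v, ?_⟩
    simp only [Finset.mem_filter, Finset.mem_univ, true_and]
    refine ⟨(hm0 v).2, ?_⟩
    have h := ((xy hinj hm hs hm0 hs0 v).1 hv).2
    rwa [(hm0 v).1] at h
  obtain ⟨c, hc, hmin⟩ := Finset.exists_min_image _ (fun d => U (v, d)) hne
  simp only [Finset.mem_filter, Finset.mem_univ, true_and] at hc hmin
  exact ⟨c, hc.1, hc.2, fun d hd hd' => hmin d ⟨hd, hd'⟩⟩

theorem best_uniq {V : Type} [Fintype V] {U : V × V → ℝ}
    (hinj : ∀ v, Function.Injective (fun w => U (v, w))) {m : V → V} (v c c' : V)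
    (h : Best U m v c) (h' : Best U m v c') : c = c' := by
  have h1 := h.2.2 c' h'.1 h'.2.1
  have h2 := h'.2.2 c h.1 h.2.1
  exact hinj v (le_antisymm h1 h2)

theorem best_prop {V : Type} [Fintype V] {U : V × V → ℝ}
    (hinj : ∀ v, Function.Injective (fun w => U (v, w))) {m m0 : V → V} (hm : IsM m)
    (hs : Stab U m) (hm0 : IsM m0) (hs0 : Stab U m0) (v : V) (hv : U (v, m v) < U (v, m0 v))
    (c : V) (hc : Best U m v c) :
    U (v, m v) ≤ U (v, c) ∧ U (v, c) ≤ U (v, m0 v) ∧ U (c, m0 c) < U (c, m c) ∧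
      U (m c, m (m c)) < U (m c, m0 (m c)) ∧ m c ≠ v := by
  have h := ((xy hinj hm hs hm0 hs0 v).1 hv).2
  have h2 : U (v, c) ≤ U (v, m0 v) := by
    refine hc.2.2 (m0 v) (hm0 v).2 ?_
    rwa [(hm0 v).1] at h
  have h3 : U (c, m0 c) < U (c, m c) := by
    by_cases hcm : c = m0 v
    · rw [hcm]; exact h
    · have hlt : U (v, c) < U (v, m0 v) := lt_of_le_of_ne h2 (fun he => hcm (hinj v he))
      have h4 := hs0 v c hc.1.symm
      have h5 : U (c, m0 c) ≤ U (c, v) := by
        by_contra hcon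
        exact h4 ⟨hlt, not_le.1 hcon⟩
      exact lt_of_le_of_lt h5 hc.2.1
  refine ⟨?_, h2, h3, ((xy hinj hm hs hm0 hs0 c).2 h3).1, ?_⟩
  · by_contra hcon
    exact hs v c hc.1.symm ⟨not_le.1 hcon, hc.2.1⟩
  · intro he
    have := hc.2.1
    rw [he] at this
    exact lt_irrefl _ this

end Pool.Agent.Helper651.SR
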