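import Pool.Agent.Helper651.SRF.Defs

set_option autoImplicit false
open MeasureTheory Set Filter Topology Classical
open scoped ENNReal Nat

namespace Pool.Agent.Helper651.SR

theorem bwd {V : Type} [Fintype V] {U : V × V → ℝ}
    (hinj : ∀ v, Function.Injective (fun w => U (v, w))) {m0 : V → V}
    (hm0 : IsM m0) (hs0 : Stab U m0) {π : Equiv.Perm V} (h : SP U π) :
    ∃ σ χ : Equiv.Perm V, IsM σ ∧ Stab U σ ∧ Sub U m0 σ χ ∧ χ⁻¹ * σ = π := by
  have hpi : ∀ v, π (π⁻¹ v) = v := fun v => π.apply_symm_apply v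
  have hip : ∀ v, π⁻¹ (π v) = v := fun v => π.symm_apply_apply v
  have hnf : ∀ v, π⁻¹ v ≠ v := by
    intro v hv
    have h1 := hpi v
    rw [hv] at h1
    exact h.nofix v h1
  have hinj' : ∀ v a b, U (v, a) = U (v, b) → a = b := fun v a b e => hinj v e
  have hslt : ∀ v, π (π v) ≠ v → U (v, π v) < U (v, π⁻¹ v) := by
    intro v hl
    refine lt_of_le_of_ne (h.le v) (fun e => hl ?_)
    rw [hinj' v _ _ e]
    exact hpi v
  -- predicates
  let B : V → Prop := fun v => U (v, m0 v) < U (v, π⁻¹ v)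
  let E : V → Prop := fun v => m0 v = π v ∧ π v = π⁻¹ v
  have hA : ∀ w, ¬ B w → ¬ E w → B (π⁻¹ w) := by
    intro w hB hE
    have hwv : π (π⁻¹ w) = w := hpi w
    have hBw : U (w, π⁻¹ w) ≤ U (w, m0 w) := not_lt.mp hB
    generalize hv : π⁻¹ w = v at hwv hBw ⊢
    show U (v, m0 v) < U (v, π⁻¹ v)
    have hvw : v ≠ w := by rw [← hv]; exact hnf w
    rcases lt_or_eq_of_le hBw with hlt | heq
    · have h1 : U (v, m0 v) ≤ U (v, w) := by
        by_contra hcon
        exact hs0 v w hvw ⟨not_le.mp hcon, hlt⟩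
      by_cases hl : π (π v) = v
      · -- short
        have h2 : π⁻¹ v = w := by rw [← hwv]; nth_rewrite 1 [← hl]; exact hip _
        rw [h2]
        refine lt_of_le_of_ne h1 (fun e => ?_)
        have h3 : m0 v = w := hinj' v _ _ e
        have h4 : m0 w = v := by rw [← h3]; exact (hm0 v).1
        rw [h4] at hlt
        exact lt_irrefl _ hlt
      · have h2 := hslt v hl
        rw [hwv] at h2
        exact lt_of_le_of_lt h1 h2
    · have h3 : m0 w = v := (hinj' w _ _ heq).symm
      have h4 : m0 v = w := by rw [← h3]; exact (hm0 w).1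
      by_cases hl : π (π v) = v
      · exfalso
        apply hE
        rw [hwv] at hl
        refine ⟨?_, ?_⟩
        · rw [h3, hl]
        · rw [hl, hv]
      · have h2 := hslt v hl
        rw [hwv] at h2
        rw [h4]
        exact h2
  have hC : ∀ v, B v → ¬ B (m0 v) ∧ ¬ E (m0 v) := by
    intro v hB
    have hB' : U (v, m0 v) < U (v, π⁻¹ v) := hB
    have h1 : m0 (m0 v) = v := (hm0 v).1
    have h2 : m0 v ≠ v := (hm0 v).2
    constructor
    · intro hBw
      have hBw' : U (m0 v, m0 (m0 v)) < U (m0 v, π⁻¹ (m0 v)) := hBw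
      rw [h1] at hBw'
      exact h.nb v (m0 v) (Ne.symm h2) ⟨hB', hBw'⟩
    · rintro ⟨e1, e2⟩
      rw [h1] at e1
      have h3 : π⁻¹ v = m0 v := by have h4 := hip (m0 v); rwa [← e1] at h4
      rw [h3] at hB'
      exact lt_irrefl _ hB'
  -- counting
  have hcount : ∀ v, B v → ¬ B (π v) := by
    intro v hv
    have c1 : (Finset.univ.filter (fun v => ¬ B v ∧ ¬ E v)).image (fun v => π⁻¹ v) ⊆
        Finset.univ.filter B := by
      intro x hx
      rw [Finset.mem_image] at hx
      obtain ⟨y, hy, rfl⟩ := hx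
      rw [Finset.mem_filter] at hy ⊢
      exact ⟨Finset.mem_univ _, hA y hy.2.1 hy.2.2⟩
    have c2 : (Finset.univ.filter B).card ≤
        (Finset.univ.filter (fun v => ¬ B v ∧ ¬ E v)).card := by
      refine Finset.card_le_card_of_injOn m0 ?_ ?_
      · intro x hx
        have hx' : B x := (Finset.mem_filter.mp hx).2
        exact Finset.mem_coe.mpr (Finset.mem_filter.mpr ⟨Finset.mem_univ _, hC x hx'⟩)
      · intro x _ y _ hxy
        have h1 : m0 (m0 x) = m0 (m0 y) := congrArg m0 hxy
        rwa [(hm0 x).1, (hm0 y).1] at h1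
    have c3 : ((Finset.univ.filter (fun v => ¬ B v ∧ ¬ E v)).image (fun v => π⁻¹ v)).card =
        (Finset.univ.filter (fun v => ¬ B v ∧ ¬ E v)).card :=
      Finset.card_image_of_injective _ (π⁻¹).injective
    have c4 := Finset.eq_of_subset_of_card_le c1 (by rw [c3]; exact c2)
    have c5 : v ∈ (Finset.univ.filter (fun v => ¬ B v ∧ ¬ E v)).image (fun v => π⁻¹ v) := by
      rw [c4]
      exact Finset.mem_filter.mpr ⟨Finset.mem_univ _, hv⟩
    rw [Finset.mem_image] at c5
    obtain ⟨y, hy, hyv⟩ := c5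
    have c6 : y = π v := by rw [← hyv]; exact (hpi y).symm
    rw [← c6]
    exact (Finset.mem_filter.mp hy).2.1
  have h3b : ∀ v, π (π v) ≠ v → ¬ B v → B (π⁻¹ v) := by
    intro v hl hb
    refine hA v hb (fun hE => hl ?_)
    rw [hE.2]
    exact hpi v
  have hL1 : ∀ v, π (π v) ≠ v → π (π (π v)) ≠ π v := fun v hl e => hl (π.injective e)
  have hS1 : ∀ v, π (π v) = v → π (π (π v)) = π v := fun v hs => congrArg π hs
  have hS2 : ∀ v, π (π v) = v → π (π (π⁻¹ v)) = π⁻¹ v := by
    intro v hs
    rw [hpi]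
    nth_rewrite 2 [← hs]
    exact (hip _).symm
  have hL2 : ∀ v, π (π v) ≠ v → π (π (π⁻¹ v)) ≠ π⁻¹ v := by
    intro v hl e
    rw [hpi] at e
    apply hl
    rw [e]
    exact hpi v
  -- the matching
  let f : V → V := fun v => if π (π v) = v then π v else if B v then π⁻¹ v else π v
  have f_short : ∀ v, π (π v) = v → f v = π v := fun v hs => if_pos hs
  have f_lB : ∀ v, π (π v) ≠ v → B v → f v = π⁻¹ v := by
    intro v hl hb
    show (if π (π v) = v then π v else if B v then π⁻¹ v else π v) = π⁻¹ v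
    rw [if_neg hl, if_pos hb]
  have f_lnB : ∀ v, π (π v) ≠ v → ¬ B v → f v = π v := by
    intro v hl hb
    show (if π (π v) = v then π v else if B v then π⁻¹ v else π v) = π v
    rw [if_neg hl, if_neg hb]
  have hf2 : ∀ v, f (f v) = v := by
    intro v
    by_cases hl : π (π v) = v
    · rw [f_short v hl, f_short _ (hS1 v hl)]
      exact hl
    · by_cases hb : B v
      · rw [f_lB v hl hb]
        have hnb : ¬ B (π⁻¹ v) := by
          intro hb'
          apply hcount _ hb'
          rw [hpi]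
          exact hb
        rw [f_lnB _ (hL2 v hl) hnb]
        exact hpi v
      · rw [f_lnB v hl hb]
        have hb2 : B (π v) := by
          by_contra hcon
          have h1 := h3b (π v) (hL1 v hl) hcon
          rw [hip] at h1
          exact hb h1
        rw [f_lB _ (hL1 v hl) hb2]
        exact hip v
  have hfne : ∀ v, f v ≠ v := by
    intro v
    by_cases hl : π (π v) = v
    · rw [f_short v hl]; exact h.nofix v
    · by_cases hb : B v
      · rw [f_lB v hl hb]; exact hnf v
      · rw [f_lnB v hl hb]; exact h.nofix v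
  have hfle : ∀ v, U (v, f v) ≤ U (v, π⁻¹ v) := by
    intro v
    by_cases hl : π (π v) = v
    · rw [f_short v hl]; exact h.le v
    · by_cases hb : B v
      · rw [f_lB v hl hb]
      · rw [f_lnB v hl hb]; exact h.le v
  have hfinv : Function.Involutive f := hf2
  let σ : Equiv.Perm V := hfinv.toPerm f
  have hσ : ∀ v, σ v = f v := fun v => rfl
  have hσσ : ∀ v, σ (σ v) = v := fun v => hf2 v
  refine ⟨σ, σ * π⁻¹, fun v => ⟨hf2 v, hfne v⟩, ?_, ?_, ?_⟩
  · intro u w huw hbl
    exact h.nb u w huw ⟨lt_of_lt_of_le hbl.1 (hfle u), lt_of_lt_of_le hbl.2 (hfle w)⟩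
  · intro v hv
    have hχ : (σ * π⁻¹) v = f (π⁻¹ v) := rfl
    rw [hχ] at hv ⊢
    have hl : π (π v) ≠ v := by
      intro hs
      apply hv
      rw [f_short _ (hS2 v hs)]
      exact hpi v
    have hb : ¬ B v := by
      intro hb
      apply hv
      have hnb : ¬ B (π⁻¹ v) := by
        intro hb'
        apply hcount _ hb'
        rw [hpi]
        exact hb
      rw [f_lnB _ (hL2 v hl) hnb]
      exact hpi v
    have hcB : B (π⁻¹ v) := h3b v hl hb
    have hcl := hL2 v hl
    have hσc : σ (f (π⁻¹ v)) = π⁻¹ v := hf2 _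
    rw [hσc]
    refine ⟨?_, hnf v, ?_, ?_⟩
    · show U (v, f v) < U (v, m0 v)
      rw [f_lnB v hl hb]
      exact lt_of_lt_of_le (hslt v hl) (not_lt.mp hb)
    · show U (π⁻¹ v, v) < U (π⁻¹ v, f (π⁻¹ v))
      rw [f_lB _ hcl hcB]
      have h1 := hslt _ hcl
      rw [hpi] at h1
      exact h1
    · intro d hd hd2
      by_contra hcon
      exact h.nb v d (Ne.symm hd) ⟨not_le.mp hcon, lt_of_lt_of_le hd2 (hfle d)⟩
  · rw [mul_inv_rev, inv_inv, mul_assoc, inv_mul_cancel, mul_one]

end Pool.Agent.Helper651.SR
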