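import Pool.Agent.Helper651.SRF.Defs

set_option autoImplicit false
open MeasureTheory Set Filter Topology Classical
open scoped ENNReal Nat

namespace Pool.Agent.Helper651.SR

theorem h208_pow {V : Type} [Fintype V] (π : Equiv.Perm V) (v : V) (hv : π v ≠ v) (n : ℕ) :
    (π ^ n) v = v ↔ (π.cycleOf v).support.card ∣ n := by
  have hc : (π.cycleOf v).IsCycle := Equiv.Perm.isCycle_cycleOf π hv
  have hcv : (π.cycleOf v) v ≠ v := by
    rw [Equiv.Perm.cycleOf_apply_self]; exact hv
  rw [← hc.orderOf, orderOf_dvd_iff_pow_eq_one, hc.pow_eq_one_iff' hcv,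
    Equiv.Perm.cycleOf_pow_apply_self]

theorem h208_min {V : Type} [Fintype V] (π : Equiv.Perm V) (v : V) (hv : π v ≠ v) :
    Function.minimalPeriod π v = (π.cycleOf v).support.card := by
  apply Nat.dvd_antisymm
  · rw [← Function.isPeriodicPt_iff_minimalPeriod_dvd]
    show π^[_] v = v
    rw [Equiv.Perm.iterate_eq_pow]
    exact (h208_pow π v hv _).2 dvd_rfl
  · rw [← h208_pow π v hv, ← Equiv.Perm.iterate_eq_pow]
    exact Function.isPeriodicPt_minimalPeriod π v

theorem ct_lg {V : Type} [Fintype V] (π : Equiv.Perm V) :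
    (lg π).card = (π.cycleType.filter (fun k => 2 < k)).sum := by
  have h1 : lg π = (π.cycleFactorsFinset.filter (fun c => 2 < c.support.card)).biUnion
      (fun c => c.support) := by
    ext v
    unfold lg
    simp only [Finset.mem_filter, Finset.mem_univ, true_and, Finset.mem_biUnion]
    constructor
    · intro h
      have hv : π v ≠ v := fun h' => h (by rw [h', h'])
      have hc : (π.cycleOf v).IsCycle := Equiv.Perm.isCycle_cycleOf π hv
      refine ⟨π.cycleOf v, ⟨?_, ?_⟩, ?_⟩
      · rw [Equiv.Perm.cycleOf_mem_cycleFactorsFinset_iff, Equiv.Perm.mem_support]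
        exact hv
      · have h2 := hc.two_le_card_support
        rcases h2.lt_or_eq with h3 | h3
        · exact h3
        · exfalso
          apply h
          have h4 := (h208_pow π v hv 2).2 (by rw [← h3])
          rwa [pow_two, Equiv.Perm.mul_apply] at h4
      · rw [Equiv.Perm.mem_support, Equiv.Perm.cycleOf_apply_self]
        exact hv
    · rintro ⟨c, ⟨hc, h2⟩, hvc⟩ h
      have e := Equiv.Perm.cycle_is_cycleOf hvc hc
      have hv : π v ≠ v := by
        rw [Equiv.Perm.mem_support, e, Equiv.Perm.cycleOf_apply_self] at hvc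
        exact hvc
      have h4 := (h208_pow π v hv 2).1 (by rw [pow_two, Equiv.Perm.mul_apply]; exact h)
      rw [← e] at h4
      have := Nat.le_of_dvd (by norm_num) h4
      omega
  rw [h1, Finset.card_biUnion]
  · rw [Equiv.Perm.cycleType_def, Multiset.filter_map]
    rfl
  · intro c hc d hd hcd
    have hp := Equiv.Perm.cycleFactorsFinset_pairwise_disjoint π
      (Finset.mem_coe.2 (Finset.mem_filter.1 hc).1) (Finset.mem_coe.2 (Finset.mem_filter.1 hd).1) hcd
    exact Equiv.Perm.disjoint_iff_disjoint_support.1 hp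

theorem ct_AE {V : Type} [Fintype V] (π : Equiv.Perm V) :
    ((∀ v, π v ≠ v) ∧ AE π) ↔
      (π.cycleType.sum = Fintype.card V ∧ ∀ n ∈ π.cycleType, Even n) := by
  rw [Equiv.Perm.sum_cycleType]
  have hs : (∀ v, π v ≠ v) ↔ π.support.card = Fintype.card V := by
    rw [Finset.card_eq_iff_eq_univ, Finset.eq_univ_iff_forall]
    simp only [Equiv.Perm.mem_support]
  rw [← hs]
  constructor
  · rintro ⟨h1, h2⟩
    refine ⟨h1, ?_⟩
    intro n hn
    rw [Equiv.Perm.cycleType_def, Multiset.mem_map] at hn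
    obtain ⟨c, hc, rfl⟩ := hn
    have hc' : c ∈ π.cycleFactorsFinset := hc
    have hcyc : c.IsCycle := (Equiv.Perm.mem_cycleFactorsFinset_iff.1 hc').1
    obtain ⟨v, hv, _⟩ := hcyc
    have e := Equiv.Perm.cycle_is_cycleOf (Equiv.Perm.mem_support.2 hv) hc'
    have h3 := h2 v
    rw [h208_min π v (h1 v), ← e] at h3
    exact h3
  · rintro ⟨h1, h2⟩
    refine ⟨h1, ?_⟩
    intro v
    rw [h208_min π v (h1 v)]
    apply h2
    rw [Equiv.Perm.cycleType_def, Multiset.mem_map]
    refine ⟨π.cycleOf v, ?_, rfl⟩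
    show π.cycleOf v ∈ π.cycleFactorsFinset
    rw [Equiv.Perm.cycleOf_mem_cycleFactorsFinset_iff, Equiv.Perm.mem_support]
    exact h1 v

end Pool.Agent.Helper651.SR
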