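import Pool.Agent.Helper651.SRF.Defs
import Pool.Agent.Helper651.SRF.CtInfo

set_option autoImplicit false
open MeasureTheory Set Filter Topology Classical
open scoped ENNReal Nat

namespace Pool.Agent.Helper651.SR

/-- the cycle type belonging to the half lengths `μ` of the long cycles -/
def ctp (h : ℕ) (μ : Multiset ℕ) : Multiset ℕ := Multiset.replicate h 2 + μ.map (fun i => 2 * i)

theorem ctp_filter (h : ℕ) (μ : Multiset ℕ) (hμ : ∀ i ∈ μ, 2 ≤ i) :
    (ctp h μ).filter (fun k => 2 < k) = μ.map (fun i => 2 * i) := by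
  unfold ctp
  rw [Multiset.filter_add]
  have h1 : (Multiset.replicate h 2).filter (fun k => 2 < k) = 0 := by
    rw [Multiset.filter_eq_nil]
    intro a ha
    rw [Multiset.eq_of_mem_replicate ha]
    omega
  have h2 : (μ.map (fun i => 2 * i)).filter (fun k => 2 < k) = μ.map (fun i => 2 * i) := by
    rw [Multiset.filter_eq_self]
    intro a ha
    obtain ⟨i, hi, rfl⟩ := Multiset.mem_map.mp ha
    have := hμ i hi
    omega
  rw [h1, h2, zero_add]

theorem ctp_two_inj : Function.Injective (fun i : ℕ => 2 * i) := fun a b hab => by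
  have : 2 * a = 2 * b := hab
  omega

theorem ctp_inj (h : ℕ) (μ ν : Multiset ℕ) (he : ctp h μ = ctp h ν) : μ = ν := by
  unfold ctp at he
  exact Multiset.map_injective ctp_two_inj (add_left_cancel he)

theorem ctp_sum (h : ℕ) (μ : Multiset ℕ) : (ctp h μ).sum = 2 * h + 2 * μ.sum := by
  unfold ctp
  rw [Multiset.sum_add, Multiset.sum_replicate, Multiset.sum_map_mul_left, Multiset.map_id',
    smul_eq_mul]
  ring

theorem ctp_exists (c : Multiset ℕ) (h k : ℕ) (hs : c.sum = 2 * h + 2 * k)
    (he : ∀ n ∈ c, Even n) (h2 : ∀ n ∈ c, 2 ≤ n)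
    (hf : (c.filter (fun k => 2 < k)).sum = 2 * k) :
    ∃ μ : Multiset ℕ, (∀ i ∈ μ, 2 ≤ i) ∧ μ.sum = k ∧ c = ctp h μ := by
  have h1 : ((c.filter (fun k => 2 < k)).map (fun n => n / 2)).map (fun i => 2 * i) =
      c.filter (fun k => 2 < k) := by
    rw [Multiset.map_map]
    conv_rhs => rw [← Multiset.map_id (c.filter (fun k => 2 < k))]
    apply Multiset.map_congr rfl
    intro n hn
    obtain ⟨m, hm⟩ := he n (Multiset.mem_filter.mp hn).1
    show 2 * (n / 2) = n
    omega
  refine ⟨(c.filter (fun k => 2 < k)).map (fun n => n / 2), ?_, ?_, ?_⟩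
  · intro i hi
    obtain ⟨n, hn, rfl⟩ := Multiset.mem_map.mp hi
    have hn' := Multiset.mem_filter.mp hn
    obtain ⟨m, hm⟩ := he n hn'.1
    have := hn'.2
    omega
  · have h3 := ctp_sum 0 ((c.filter (fun k => 2 < k)).map (fun n => n / 2))
    unfold ctp at h3
    rw [h1, Multiset.replicate_zero, zero_add, hf] at h3
    omega
  · unfold ctp
    rw [h1]
    have h3 := Multiset.filter_add_not (fun k => 2 < k) c
    have h4 : c.filter (fun a => ¬ 2 < a) =
        Multiset.replicate (Multiset.card (c.filter (fun a => ¬ 2 < a))) 2 := by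
      rw [Multiset.eq_replicate_card]
      intro b hb
      have hb' := Multiset.mem_filter.mp hb
      have := h2 b hb'.1
      omega
    have h5 : Multiset.card (c.filter (fun a => ¬ 2 < a)) = h := by
      have h6 := congrArg Multiset.sum h3
      rw [Multiset.sum_add, h4, Multiset.sum_replicate, hf, hs, smul_eq_mul] at h6
      omega
    rw [h5] at h4
    rw [h4] at h3
    rw [add_comm] at h3
    exact h3.symm

theorem ctp_fact (h : ℕ) (μ : Multiset ℕ) (hμ : ∀ i ∈ μ, 2 ≤ i) :
    (∏ n ∈ (ctp h μ).toFinset, ((ctp h μ).count n).factorial) =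
      h.factorial * ∏ j ∈ μ.toFinset, (μ.count j).factorial := by
  have hsub : (ctp h μ).toFinset ⊆ insert 2 (μ.toFinset.image (fun i => 2 * i)) := by
    intro n hn
    rw [Multiset.mem_toFinset] at hn
    unfold ctp at hn
    rw [Multiset.mem_add] at hn
    rcases hn with hn | hn
    · rw [Multiset.eq_of_mem_replicate hn]
      exact Finset.mem_insert_self _ _
    · obtain ⟨i, hi, rfl⟩ := Multiset.mem_map.mp hn
      exact Finset.mem_insert_of_mem
        (Finset.mem_image.mpr ⟨i, Multiset.mem_toFinset.mpr hi, rfl⟩)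
  rw [Finset.prod_subset hsub]
  · rw [Finset.prod_insert, Finset.prod_image]
    · congr 1
      · congr 1
        unfold ctp
        rw [Multiset.count_add, Multiset.count_replicate_self, Multiset.count_eq_zero_of_notMem,
          add_zero]
        intro hc
        obtain ⟨i, hi, hi2⟩ := Multiset.mem_map.mp hc
        have := hμ i hi
        omega
      · apply Finset.prod_congr rfl
        intro j hj
        congr 1
        unfold ctp
        have hj2 := hμ j (Multiset.mem_toFinset.mp hj)
        have h7 : Multiset.count (2 * j) (Multiset.map (fun i => 2 * i) μ) = Multiset.count j μ :=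
          Multiset.count_map_eq_count' (fun i => 2 * i) μ ctp_two_inj j
        rw [Multiset.count_add, Multiset.count_replicate, if_neg (by omega), zero_add, h7]
    · intro x _ y _ hxy
      exact ctp_two_inj hxy
    · intro hc
      obtain ⟨i, hi, hi2⟩ := Finset.mem_image.mp hc
      have := hμ i (Multiset.mem_toFinset.mp hi)
      omega
  · intro n _ hn
    rw [Multiset.mem_toFinset] at hn
    rw [Multiset.count_eq_zero_of_notMem hn, Nat.factorial_zero]

theorem ctp_prod (h : ℕ) (μ : Multiset ℕ) :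
    (ctp h μ).prod = 2 ^ h * ∏ j ∈ μ.toFinset, (2 * j) ^ μ.count j := by
  unfold ctp
  rw [Multiset.prod_add, Multiset.prod_replicate, Finset.prod_multiset_map_count]

theorem wp_eq (a : ℝ) (μ : Multiset ℕ) :
    wp a μ = a ^ (Multiset.card μ) / ((∏ j ∈ μ.toFinset, ((2 : ℝ) * j) ^ μ.count j) *
      ∏ j ∈ μ.toFinset, ((μ.count j).factorial : ℝ)) := by
  unfold wp
  rw [← Finset.prod_mul_distrib, ← Multiset.toFinset_sum_count_eq, ← Finset.prod_pow_eq_pow_sum,
    ← Finset.prod_div_distrib]
  apply Finset.prod_congr rfl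
  intro j _
  rw [div_pow, div_div]

theorem ctp_card {V : Type} [Fintype V] (a : ℝ) (h k : ℕ)
    (hV : Fintype.card V = 2 * h + 2 * k) (μ : Multiset ℕ) (hμ : ∀ i ∈ μ, 2 ≤ i)
    (hk : μ.sum = k) :
    ((Finset.univ.filter (fun π : Equiv.Perm V => π.cycleType = ctp h μ)).card : ℝ) *
      a ^ (Multiset.card μ) =
      ((2 * h + 2 * k).factorial : ℝ) / (2 ^ h * h.factorial) * wp a μ := by
  have h1 := Equiv.Perm.card_of_cycleType_mul_eq V (ctp h μ)
  rw [if_pos, ctp_sum, hk, hV, Nat.sub_self, Nat.factorial_zero, one_mul, ctp_prod,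
    ctp_fact h μ hμ] at h1
  · have h2 := congrArg (fun n : ℕ => (n : ℝ)) h1
    simp only [Nat.cast_mul, Nat.cast_prod, Nat.cast_pow, Nat.cast_ofNat] at h2
    rw [wp_eq, ← h2]
    have hQ : (∏ j ∈ μ.toFinset, ((2 : ℝ) * j) ^ μ.count j) ≠ 0 := by
      rw [Finset.prod_ne_zero_iff]
      intro j hj
      have hj2 := hμ j (Multiset.mem_toFinset.mp hj)
      have hj3 : (0 : ℝ) < j := by
        have : 0 < j := by omega
        exact_mod_cast this
      positivity
    have hR : (∏ j ∈ μ.toFinset, ((μ.count j).factorial : ℝ)) ≠ 0 := by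
      rw [Finset.prod_ne_zero_iff]
      intro j _
      exact_mod_cast Nat.factorial_ne_zero _
    have hh : ((h.factorial : ℕ) : ℝ) ≠ 0 := by exact_mod_cast Nat.factorial_ne_zero _
    field_simp
  · rw [ctp_sum, hk, hV]
    refine ⟨le_rfl, fun x hx => ?_⟩
    unfold ctp at hx
    rw [Multiset.mem_add] at hx
    rcases hx with hx | hx
    · rw [Multiset.eq_of_mem_replicate hx]
    · obtain ⟨i, hi, rfl⟩ := Multiset.mem_map.mp hx
      have := hμ i hi
      omega

theorem ctp_iff {V : Type} [Fintype V] (h k : ℕ) (hV : Fintype.card V = 2 * h + 2 * k)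
    (π : Equiv.Perm V) : ((∀ v, π v ≠ v) ∧ AE π ∧ (lg π).card = 2 * k) ↔
      ∃ p : Nat.Partition k, (∀ i ∈ p.parts, 2 ≤ i) ∧ π.cycleType = ctp h p.parts := by
  rw [← and_assoc, ct_AE, ct_lg, hV]
  constructor
  · rintro ⟨⟨h1, h2⟩, h3⟩
    obtain ⟨μ, hμ1, hμ2, hμ3⟩ := ctp_exists π.cycleType h k h1 h2
      (fun n hn => Equiv.Perm.two_le_of_mem_cycleType hn) h3
    refine ⟨⟨μ, ?_, hμ2⟩, hμ1, hμ3⟩
    intro i hi
    have := hμ1 i hi
    omega
  · rintro ⟨p, hp1, hp2⟩
    rw [hp2]
    refine ⟨⟨?_, ?_⟩, ?_⟩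
    · rw [ctp_sum, p.parts_sum]
    · intro n hn
      unfold ctp at hn
      rw [Multiset.mem_add] at hn
      rcases hn with hn | hn
      · rw [Multiset.eq_of_mem_replicate hn]
        exact even_two
      · obtain ⟨i, hi, rfl⟩ := Multiset.mem_map.mp hn
        exact even_two_mul i
    · rw [ctp_filter h _ hp1]
      have h3 := ctp_sum 0 p.parts
      unfold ctp at h3
      rw [Multiset.replicate_zero, zero_add, p.parts_sum] at h3
      omega

theorem cnt {V : Type} [Fintype V] (a : ℝ) (h k : ℕ) (hV : Fintype.card V = 2 * h + 2 * k) :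
    ∑ π ∈ Finset.univ.filter (fun π : Equiv.Perm V => (∀ v, π v ≠ v) ∧ AE π ∧
        (lg π).card = 2 * k), a ^ lc π =
      ((2 * h + 2 * k).factorial : ℝ) / (2 ^ h * h.factorial) * ff a k := by
  have hA : Finset.univ.filter (fun π : Equiv.Perm V => (∀ v, π v ≠ v) ∧ AE π ∧
      (lg π).card = 2 * k) =
      ((Finset.univ : Finset (Nat.Partition k)).filter (fun p => ∀ i ∈ p.parts, 2 ≤ i)).biUnion
        (fun p => Finset.univ.filter (fun π : Equiv.Perm V => π.cycleType = ctp h p.parts)) := by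
    ext π
    rw [Finset.mem_filter, Finset.mem_biUnion, ctp_iff h k hV π]
    constructor
    · rintro ⟨-, p, hp1, hp2⟩
      exact ⟨p, Finset.mem_filter.mpr ⟨Finset.mem_univ p, hp1⟩,
        Finset.mem_filter.mpr ⟨Finset.mem_univ π, hp2⟩⟩
    · rintro ⟨p, hp, hπ⟩
      exact ⟨Finset.mem_univ π, p, (Finset.mem_filter.mp hp).2, (Finset.mem_filter.mp hπ).2⟩
  rw [hA, Finset.sum_biUnion]
  · unfold ff
    rw [Finset.mul_sum]
    apply Finset.sum_congr rfl
    intro p hp
    have hp' := (Finset.mem_filter.mp hp).2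
    rw [← ctp_card a h k hV p.parts hp' p.parts_sum, ← nsmul_eq_mul]
    apply Finset.sum_eq_card_nsmul
    intro π hπ
    have hπ' := (Finset.mem_filter.mp hπ).2
    unfold lc
    rw [hπ', ctp_filter h _ hp', Multiset.card_map]
  · intro p _ q _ hpq
    rw [Function.onFun, Finset.disjoint_left]
    intro π h1 h2
    apply hpq
    have h3 := (Finset.mem_filter.mp h1).2
    have h4 := (Finset.mem_filter.mp h2).2
    exact Nat.Partition.ext (ctp_inj h _ _ (h3.symm.trans h4))

end Pool.Agent.Helper651.SR
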