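import Pool.Agent.Helper651.SRF.Defs

set_option autoImplicit false
open MeasureTheory Set Filter Topology Classical
open scoped ENNReal Nat

namespace Pool.Agent.Helper651.SR

theorem conv_real (b : ℕ) : ∀ (a : ℕ) (u : ℝ),
    ∫ s in (0:ℝ)..u, (s ^ a / (a.factorial : ℝ)) * ((u - s) ^ b / (b.factorial : ℝ)) =
      u ^ (a + b + 1) / ((a + b + 1).factorial : ℝ) := by
  induction b with
  | zero =>
    intro a u
    have h1 : (fun s : ℝ => (s ^ a / (a.factorial : ℝ)) *
        ((u - s) ^ 0 / ((0 : ℕ).factorial : ℝ))) = fun s => s ^ a / (a.factorial : ℝ) := by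
      funext s
      simp
    rw [h1, intervalIntegral.integral_div, integral_pow, Nat.add_zero, Nat.factorial_succ]
    push_cast
    rw [zero_pow (Nat.succ_ne_zero a), sub_zero, div_div]
  | succ b ih =>
    intro a u
    have hG : ∀ s ∈ uIcc (0:ℝ) u, HasDerivAt
        (fun s : ℝ => (u - s) ^ (b + 1) / ((b + 1).factorial : ℝ))
        (-((u - s) ^ b / (b.factorial : ℝ))) s := by
      intro s _
      have h1 : HasDerivAt (fun s : ℝ => u - s) (-1) s := by
        simpa using (hasDerivAt_id s).const_sub u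
      have h2 := (h1.pow (b + 1)).div_const ((b + 1).factorial : ℝ)
      refine h2.congr_deriv ?_
      rw [Nat.factorial_succ]
      push_cast
      have h3 : (b.factorial : ℝ) ≠ 0 := by exact_mod_cast Nat.factorial_ne_zero b
      have h4 : ((b : ℝ) + 1) ≠ 0 := by positivity
      field_simp
      try ring
    have hF : ∀ s ∈ uIcc (0:ℝ) u, HasDerivAt
        (fun s : ℝ => s ^ (a + 1) / ((a + 1).factorial : ℝ))
        (s ^ a / (a.factorial : ℝ)) s := by
      intro s _
      have h2 := ((hasDerivAt_id s).pow (a + 1)).div_const ((a + 1).factorial : ℝ)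
      refine h2.congr_deriv ?_
      rw [Nat.factorial_succ]
      push_cast
      have h3 : (a.factorial : ℝ) ≠ 0 := by exact_mod_cast Nat.factorial_ne_zero a
      have h4 : ((a : ℝ) + 1) ≠ 0 := by positivity
      simp only [id]
      field_simp
      try ring
    have h := intervalIntegral.integral_mul_deriv_eq_deriv_mul hG hF
      ((by fun_prop : Continuous fun s : ℝ => -((u - s) ^ b / (b.factorial : ℝ))).intervalIntegrable _ _)
      ((by fun_prop : Continuous fun s : ℝ => s ^ a / (a.factorial : ℝ)).intervalIntegrable _ _)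
    have h1 : ∫ s in (0:ℝ)..u, (s ^ a / (a.factorial : ℝ)) *
        ((u - s) ^ (b + 1) / ((b + 1).factorial : ℝ)) =
        ∫ s in (0:ℝ)..u, ((u - s) ^ (b + 1) / ((b + 1).factorial : ℝ)) *
        (s ^ a / (a.factorial : ℝ)) := by
      congr 1
      funext s
      ring
    have h2 : ∫ s in (0:ℝ)..u, -((u - s) ^ b / (b.factorial : ℝ)) *
        (s ^ (a + 1) / ((a + 1).factorial : ℝ)) =
        - ∫ s in (0:ℝ)..u, (s ^ (a + 1) / ((a + 1).factorial : ℝ)) *
        ((u - s) ^ b / (b.factorial : ℝ)) := by
      rw [← intervalIntegral.integral_neg]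
      congr 1
      funext s
      ring
    rw [h1, h, h2, ih (a + 1) u, sub_self, zero_pow (Nat.succ_ne_zero b),
      zero_pow (Nat.succ_ne_zero a)]
    have h3 : a + 1 + b + 1 = a + (b + 1) + 1 := by ring
    rw [h3]
    ring

theorem conv (a b : ℕ) (g : ℝ → ℝ≥0∞) (hg : Measurable g) :
    ∫⁻ s, ∫⁻ t, ENNReal.ofReal (s ^ a / (a.factorial : ℝ)) *
      ENNReal.ofReal (t ^ b / (b.factorial : ℝ)) * g (s + t) ∂lav ∂lav =
    ∫⁻ s, ENNReal.ofReal (s ^ (a + b + 1) / ((a + b + 1).factorial : ℝ)) * g s ∂lav := by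
  unfold lav
  let A : ℝ → ℝ≥0∞ := fun s => ENNReal.ofReal (s ^ a / (a.factorial : ℝ))
  let B : ℝ → ℝ≥0∞ := fun s => ENNReal.ofReal (s ^ b / (b.factorial : ℝ))
  let C : ℝ → ℝ≥0∞ := fun s => ENNReal.ofReal (s ^ (a + b + 1) / ((a + b + 1).factorial : ℝ))
  have hA : Measurable A := by
    show Measurable fun s : ℝ => ENNReal.ofReal (s ^ a / (a.factorial : ℝ))
    fun_prop
  have hB : Measurable B := by
    show Measurable fun s : ℝ => ENNReal.ofReal (s ^ b / (b.factorial : ℝ))
    fun_prop
  let Ai : ℝ → ℝ≥0∞ := (Ioi (0:ℝ)).indicator A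
  let Bi : ℝ → ℝ≥0∞ := (Ioi (0:ℝ)).indicator B
  have hAi : Measurable Ai := hA.indicator measurableSet_Ioi
  have hBi : Measurable Bi := hB.indicator measurableSet_Ioi
  have step1 : ∀ s : ℝ, ∫⁻ t in Ioi (0:ℝ), A s * B t * g (s + t) =
      A s * ∫⁻ u, Bi (u - s) * g u := by
    intro s
    have e1 : ∫⁻ t in Ioi (0:ℝ), A s * B t * g (s + t) =
        A s * ∫⁻ t in Ioi (0:ℝ), B t * g (s + t) := by
      have hm : Measurable fun t : ℝ => B t * g (s + t) :=
        hB.mul (hg.comp (measurable_const.add measurable_id))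
      rw [← lintegral_const_mul _ hm]
      refine lintegral_congr fun t => ?_
      rw [mul_assoc]
    rw [e1]
    congr 1
    have e2 : ∫⁻ t in Ioi (0:ℝ), B t * g (s + t) = ∫⁻ t, Bi t * g (s + t) := by
      rw [← lintegral_indicator measurableSet_Ioi]
      refine lintegral_congr fun t => ?_
      by_cases ht : t ∈ Ioi (0:ℝ)
      · show _ = (Ioi (0:ℝ)).indicator B t * g (s + t)
        rw [indicator_of_mem ht, indicator_of_mem ht]
      · show _ = (Ioi (0:ℝ)).indicator B t * g (s + t)
        rw [indicator_of_notMem ht, indicator_of_notMem ht, zero_mul]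
    rw [e2, ← lintegral_sub_right_eq_self (fun t => Bi t * g (s + t)) s]
    refine lintegral_congr fun u => ?_
    rw [add_sub_cancel]
  have step2 : ∀ u : ℝ, ∫⁻ s, Ai s * Bi (u - s) = (Ioi (0:ℝ)).indicator C u := by
    intro u
    by_cases hu : u ∈ Ioi (0:ℝ)
    · rw [indicator_of_mem hu]
      have hu0 : (0:ℝ) ≤ u := le_of_lt hu
      have e1 : ∀ s : ℝ, Ai s * Bi (u - s) = (Ioo (0:ℝ) u).indicator (fun s =>
          ENNReal.ofReal ((s ^ a / (a.factorial : ℝ)) * ((u - s) ^ b / (b.factorial : ℝ)))) s := by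
        intro s
        show (Ioi (0:ℝ)).indicator A s * (Ioi (0:ℝ)).indicator B (u - s) = _
        by_cases h1 : s ∈ Ioi (0:ℝ)
        · by_cases h2 : u - s ∈ Ioi (0:ℝ)
          · have h3 : s ∈ Ioo (0:ℝ) u := ⟨h1, by have : 0 < u - s := h2; linarith⟩
            have h1' : 0 < s := h1
            rw [indicator_of_mem h1, indicator_of_mem h2, indicator_of_mem h3,
              ENNReal.ofReal_mul (by positivity)]
          · have h3 : s ∉ Ioo (0:ℝ) u := fun h => h2 (by
              show 0 < u - s
              linarith [h.2])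
            rw [indicator_of_notMem h2, indicator_of_notMem h3, mul_zero]
        · have h3 : s ∉ Ioo (0:ℝ) u := fun h => h1 h.1
          rw [indicator_of_notMem h1, indicator_of_notMem h3, zero_mul]
      rw [lintegral_congr e1, lintegral_indicator measurableSet_Ioo]
      have hcont : Continuous fun s : ℝ =>
          (s ^ a / (a.factorial : ℝ)) * ((u - s) ^ b / (b.factorial : ℝ)) := by fun_prop
      have hint : IntegrableOn (fun s : ℝ =>
          (s ^ a / (a.factorial : ℝ)) * ((u - s) ^ b / (b.factorial : ℝ))) (Ioo 0 u) :=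
        (hcont.continuousOn.integrableOn_Icc).mono_set Ioo_subset_Icc_self
      rw [← ofReal_integral_eq_lintegral_ofReal hint]
      · rw [← integral_Ioc_eq_integral_Ioo, ← intervalIntegral.integral_of_le hu0, conv_real]
      · refine (ae_restrict_iff' measurableSet_Ioo).2 (Eventually.of_forall fun s hs => ?_)
        have h1 : 0 < s := hs.1
        have h2 : 0 < u - s := by linarith [hs.2]
        show (0:ℝ) ≤ _
        positivity
    · rw [indicator_of_notMem hu]
      have hu0 : u ≤ 0 := not_lt.1 hu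
      rw [← lintegral_zero (μ := (volume : Measure ℝ))]
      refine lintegral_congr fun s => ?_
      show (Ioi (0:ℝ)).indicator A s * (Ioi (0:ℝ)).indicator B (u - s) = _
      by_cases h1 : s ∈ Ioi (0:ℝ)
      · have h2 : u - s ∉ Ioi (0:ℝ) := fun h => by
          have h3 : 0 < u - s := h
          have h4 : 0 < s := h1
          linarith
        rw [indicator_of_notMem h2, mul_zero]
      · rw [indicator_of_notMem h1, zero_mul]
  have step3 : ∀ s : ℝ, Measurable fun u => Bi (u - s) * g u := fun s =>
    (hBi.comp (measurable_id.sub measurable_const)).mul hg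
  calc ∫⁻ s in Ioi (0:ℝ), ∫⁻ t in Ioi (0:ℝ), A s * B t * g (s + t)
      = ∫⁻ s in Ioi (0:ℝ), A s * ∫⁻ u, Bi (u - s) * g u := lintegral_congr fun s => step1 s
    _ = ∫⁻ s, Ai s * ∫⁻ u, Bi (u - s) * g u := by
        rw [← lintegral_indicator measurableSet_Ioi]
        refine lintegral_congr fun s => ?_
        by_cases hs : s ∈ Ioi (0:ℝ)
        · show _ = (Ioi (0:ℝ)).indicator A s * _
          rw [indicator_of_mem hs, indicator_of_mem hs]
        · show _ = (Ioi (0:ℝ)).indicator A s * _
          rw [indicator_of_notMem hs, indicator_of_notMem hs, zero_mul]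
    _ = ∫⁻ s, ∫⁻ u, Ai s * (Bi (u - s) * g u) :=
        lintegral_congr fun s => (lintegral_const_mul _ (step3 s)).symm
    _ = ∫⁻ u, ∫⁻ s, Ai s * (Bi (u - s) * g u) := by
        apply lintegral_lintegral_swap
        apply Measurable.aemeasurable
        show Measurable fun p : ℝ × ℝ => Ai p.1 * (Bi (p.2 - p.1) * g p.2)
        exact (hAi.comp measurable_fst).mul
          ((hBi.comp (measurable_snd.sub measurable_fst)).mul (hg.comp measurable_snd))
    _ = ∫⁻ u, (∫⁻ s, Ai s * Bi (u - s)) * g u := by
        refine lintegral_congr fun u => ?_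
        have hm : Measurable fun s : ℝ => Ai s * Bi (u - s) :=
          hAi.mul (hBi.comp (measurable_const.sub measurable_id))
        rw [← lintegral_mul_const _ hm]
        refine lintegral_congr fun s => ?_
        rw [mul_assoc]
    _ = ∫⁻ u, (Ioi (0:ℝ)).indicator C u * g u := lintegral_congr fun u => by rw [step2 u]
    _ = ∫⁻ u in Ioi (0:ℝ), C u * g u := by
        rw [← lintegral_indicator measurableSet_Ioi]
        refine lintegral_congr fun u => ?_
        by_cases hu : u ∈ Ioi (0:ℝ)
        · rw [indicator_of_mem hu, indicator_of_mem hu]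
        · rw [indicator_of_notMem hu, indicator_of_notMem hu, zero_mul]

end Pool.Agent.Helper651.SR
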