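import Pool.Agent.Helper651.SRF.Defs

set_option autoImplicit false
open MeasureTheory Set Filter Topology Classical
open scoped ENNReal Nat

namespace Pool.Agent.Helper651.SR

theorem aux_one_sub_le (y : ℝ) (h0 : 0 ≤ y) (h1 : y ≤ 1) :
    1 - y ≤ Real.exp (-(y + y ^ 2 / 2)) := by
  rcases h1.lt_or_eq with h | h
  · have habs : |y| < 1 := by rw [abs_of_nonneg h0]; exact h
    have hs := Real.hasSum_pow_div_log_of_abs_lt_one habs
    have h2 := sum_le_hasSum (Finset.range 2) (fun n _ => by positivity) hs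
    simp [Finset.sum_range_succ] at h2
    have h3 : Real.log (1 - y) ≤ -(y + y ^ 2 / 2) := by
      have e : ((1 : ℝ) + 1) = 2 := by norm_num
      rw [e] at h2
      linarith
    calc 1 - y = Real.exp (Real.log (1 - y)) := (Real.exp_log (by linarith)).symm
      _ ≤ _ := Real.exp_le_exp.mpr h3
  · rw [h]
    norm_num
    positivity

theorem aux_sqrt_prod_le {V : Type} [Fintype V] (T : Finset (V × V)) (x : V → ℝ)
    (h0 : ∀ v, 0 ≤ x v) (h1 : ∀ v, x v ≤ 1) :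
    √(∏ p ∈ T, (1 - x p.1 * x p.2)) ≤
      Real.exp (-(∑ p ∈ T, (x p.1 * x p.2 + (x p.1 * x p.2) ^ 2 / 2)) / 2) := by
  have hy0 : ∀ p : V × V, 0 ≤ x p.1 * x p.2 := fun p => mul_nonneg (h0 _) (h0 _)
  have hy1 : ∀ p : V × V, x p.1 * x p.2 ≤ 1 := fun p => mul_le_one₀ (h1 _) (h0 _) (h1 _)
  have h : ∏ p ∈ T, (1 - x p.1 * x p.2) ≤
      Real.exp (-(∑ p ∈ T, (x p.1 * x p.2 + (x p.1 * x p.2) ^ 2 / 2))) := by
    rw [← Finset.sum_neg_distrib, Real.exp_sum]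
    refine Finset.prod_le_prod (fun p _ => by linarith [hy1 p]) fun p _ => ?_
    exact aux_one_sub_le _ (hy0 p) (hy1 p)
  rw [Real.exp_half]
  exact Real.sqrt_le_sqrt h

theorem aux_sum_perm {V : Type} [Fintype V] (π : Equiv.Perm V) (x : V → ℝ) :
    ∑ u, (x u * x (π u) + (x u * x (π u)) ^ 2 / 2) ≤
      ∑ u, (x u * x u + (x u * x u) ^ 2 / 2) := by
  have h1 : ∑ u, (x u * x (π u) + (x u * x (π u)) ^ 2 / 2) ≤
      ∑ u, ((x u * x u + (x u * x u) ^ 2 / 2) / 2 +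
        (x (π u) * x (π u) + (x (π u) * x (π u)) ^ 2 / 2) / 2) := by
    refine Finset.sum_le_sum fun u _ => ?_
    nlinarith [sq_nonneg (x u - x (π u)), sq_nonneg (x u ^ 2 - x (π u) ^ 2)]
  have h2 := Equiv.sum_comp π (fun u => (x u * x u + (x u * x u) ^ 2 / 2) / 2)
  refine h1.trans ?_
  rw [Finset.sum_add_distrib, h2, ← Finset.sum_add_distrib]
  refine (le_of_eq (Finset.sum_congr rfl fun u _ => by ring))

theorem aux_total {V : Type} [Fintype V] (x : V → ℝ) :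
    ∑ p : V × V, (x p.1 * x p.2 + (x p.1 * x p.2) ^ 2 / 2) =
      (∑ v, x v) ^ 2 + (∑ v, x v ^ 2) ^ 2 / 2 := by
  rw [Fintype.sum_prod_type, sq (∑ v, x v), sq (∑ v, x v ^ 2), Finset.sum_mul_sum,
    Finset.sum_mul_sum, Finset.sum_div, ← Finset.sum_add_distrib]
  refine Finset.sum_congr rfl fun u _ => ?_
  rw [Finset.sum_div, ← Finset.sum_add_distrib]
  refine Finset.sum_congr rfl fun w _ => ?_
  ring

theorem aux_diag {V : Type} [Fintype V] (x : V → ℝ) (h0 : ∀ v, 0 ≤ x v) (h1 : ∀ v, x v ≤ 1) :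
    ∑ u, (x u * x u + (x u * x u) ^ 2 / 2) ≤ 3 / 2 * ∑ v, x v ^ 2 := by
  rw [Finset.mul_sum]
  refine Finset.sum_le_sum fun u _ => ?_
  have h2 : x u * x u ≤ 1 := mul_le_one₀ (h1 u) (h0 u) (h1 u)
  nlinarith [mul_nonneg (h0 u) (h0 u)]

theorem D_le {V : Type} [Fintype V] (π : Equiv.Perm V) (hf : ∀ v, π v ≠ v) (x : V → ℝ)
    (h0 : ∀ v, 0 ≤ x v) (h1 : ∀ v, x v ≤ 1) :
    DD π x ≤ Real.exp (9 / 4 - (∑ v, x v) ^ 2 / 2) := by
  have hA := aux_sqrt_prod_le (npair π) x h0 h1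
  refine (show DD π x ≤ _ from hA).trans (Real.exp_le_exp.mpr ?_)
  have htot := aux_total x
  have hsplit := Finset.sum_filter_add_sum_filter_not (Finset.univ : Finset (V × V))
    (fun p => p.1 ≠ p.2 ∧ ¬ (π p.1 = p.2 ∧ π p.2 = p.1))
    (fun p => x p.1 * x p.2 + (x p.1 * x p.2) ^ 2 / 2)
  have hg0 : ∀ p : V × V, 0 ≤ x p.1 * x p.2 + (x p.1 * x p.2) ^ 2 / 2 := fun p =>
    add_nonneg (mul_nonneg (h0 _) (h0 _)) (by positivity)
  have hcomp : ∑ p ∈ Finset.univ.filter (fun p : V × V =>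
      ¬ (p.1 ≠ p.2 ∧ ¬ (π p.1 = p.2 ∧ π p.2 = p.1))),
      (x p.1 * x p.2 + (x p.1 * x p.2) ^ 2 / 2) ≤
      ∑ u, (x u * x u + (x u * x u) ^ 2 / 2) +
      ∑ u, (x u * x (π u) + (x u * x (π u)) ^ 2 / 2) := by
    rw [Finset.sum_filter]
    have h2 : ∀ p : V × V, (if ¬ (p.1 ≠ p.2 ∧ ¬ (π p.1 = p.2 ∧ π p.2 = p.1)) then
        (x p.1 * x p.2 + (x p.1 * x p.2) ^ 2 / 2) else 0) ≤
        (if p.1 = p.2 then (x p.1 * x p.2 + (x p.1 * x p.2) ^ 2 / 2) else 0) +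
        (if π p.1 = p.2 then (x p.1 * x p.2 + (x p.1 * x p.2) ^ 2 / 2) else 0) := by
      intro p
      have := hg0 p
      by_cases ha : p.1 = p.2
      · by_cases hb : π p.1 = p.2 <;> by_cases hc : π p.2 = p.1 <;> simp only [ha, hb, hc] <;>
          simp only [ha, hb] at * <;> split_ifs <;> linarith
      · by_cases hb : π p.1 = p.2
        · rw [if_neg ha, if_pos hb]
          split_ifs <;> linarith
        · rw [if_neg ha, if_neg hb, if_neg (not_not.mpr ⟨ha, fun h => hb h.1⟩)]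
          linarith
    refine (Finset.sum_le_sum fun p _ => h2 p).trans ?_
    rw [Finset.sum_add_distrib, Fintype.sum_prod_type, Fintype.sum_prod_type]
    simp
  have hperm := aux_sum_perm π x
  have hdiag := aux_diag x h0 h1
  have hdef : ∑ p ∈ npair π, (x p.1 * x p.2 + (x p.1 * x p.2) ^ 2 / 2) =
      ∑ p ∈ Finset.univ.filter (fun p : V × V => p.1 ≠ p.2 ∧ ¬ (π p.1 = p.2 ∧ π p.2 = p.1)),
        (x p.1 * x p.2 + (x p.1 * x p.2) ^ 2 / 2) := rfl
  rw [htot, ← hdef] at hsplit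
  nlinarith [sq_nonneg (∑ v, x v ^ 2 - 3)]

theorem N_le {V : Type} [Fintype V] (π : Equiv.Perm V) (hf : ∀ v, π v ≠ v) (x : V → ℝ)
    (h0 : ∀ v, 0 ≤ x v) (h1 : ∀ v, x v ≤ 1) :
    NN π x ≤ Real.exp (6 - (∑ v, x v) ^ 2 / 2) := by
  have hA := aux_sqrt_prod_le (nonadj π) x h0 h1
  refine (show NN π x ≤ _ from hA).trans (Real.exp_le_exp.mpr ?_)
  have htot := aux_total x
  have hsplit := Finset.sum_filter_add_sum_filter_not (Finset.univ : Finset (V × V))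
    (fun p => p.1 ≠ p.2 ∧ p.2 ≠ π p.1 ∧ p.1 ≠ π p.2)
    (fun p => x p.1 * x p.2 + (x p.1 * x p.2) ^ 2 / 2)
  have hg0 : ∀ p : V × V, 0 ≤ x p.1 * x p.2 + (x p.1 * x p.2) ^ 2 / 2 := fun p =>
    add_nonneg (mul_nonneg (h0 _) (h0 _)) (by positivity)
  have hcomp : ∑ p ∈ Finset.univ.filter (fun p : V × V =>
      ¬ (p.1 ≠ p.2 ∧ p.2 ≠ π p.1 ∧ p.1 ≠ π p.2)),
      (x p.1 * x p.2 + (x p.1 * x p.2) ^ 2 / 2) ≤
      ∑ u, (x u * x u + (x u * x u) ^ 2 / 2) +
      ∑ u, (x u * x (π u) + (x u * x (π u)) ^ 2 / 2) +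
      ∑ u, (x u * x (π u) + (x u * x (π u)) ^ 2 / 2) := by
    rw [Finset.sum_filter]
    have h2 : ∀ p : V × V, (if ¬ (p.1 ≠ p.2 ∧ p.2 ≠ π p.1 ∧ p.1 ≠ π p.2) then
        (x p.1 * x p.2 + (x p.1 * x p.2) ^ 2 / 2) else 0) ≤
        (if p.1 = p.2 then (x p.1 * x p.2 + (x p.1 * x p.2) ^ 2 / 2) else 0) +
        (if π p.1 = p.2 then (x p.1 * x p.2 + (x p.1 * x p.2) ^ 2 / 2) else 0) +
        (if π p.2 = p.1 then (x p.1 * x p.2 + (x p.1 * x p.2) ^ 2 / 2) else 0) := by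
      intro p
      have := hg0 p
      by_cases hP : ¬ (p.1 ≠ p.2 ∧ p.2 ≠ π p.1 ∧ p.1 ≠ π p.2)
      · rw [if_pos hP]
        by_cases ha : p.1 = p.2
        · rw [if_pos ha]
          split_ifs <;> linarith
        · by_cases hb : π p.1 = p.2
          · rw [if_neg ha, if_pos hb]
            split_ifs <;> linarith
          · have hc : π p.2 = p.1 := by
              by_contra hc
              exact hP ⟨ha, fun h => hb h.symm, fun h => hc h.symm⟩
            rw [if_neg ha, if_neg hb, if_pos hc]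
            linarith
      · rw [if_neg hP]
        split_ifs <;> linarith
    refine (Finset.sum_le_sum fun p _ => h2 p).trans ?_
    rw [Finset.sum_add_distrib, Finset.sum_add_distrib, Fintype.sum_prod_type,
      Fintype.sum_prod_type, Fintype.sum_prod_type_right]
    refine le_of_eq ?_
    congr 1
    · simp
    · simp only [Finset.sum_ite_eq, Finset.mem_univ, if_true]
      refine Finset.sum_congr rfl fun u _ => ?_
      ring
  have hperm := aux_sum_perm π x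
  have hdiag := aux_diag x h0 h1
  have hdef : ∑ p ∈ nonadj π, (x p.1 * x p.2 + (x p.1 * x p.2) ^ 2 / 2) =
      ∑ p ∈ Finset.univ.filter (fun p : V × V => p.1 ≠ p.2 ∧ p.2 ≠ π p.1 ∧ p.1 ≠ π p.2),
        (x p.1 * x p.2 + (x p.1 * x p.2) ^ 2 / 2) := rfl
  rw [htot, ← hdef] at hsplit
  nlinarith [sq_nonneg (∑ v, x v ^ 2 - 9 / 2)]

end Pool.Agent.Helper651.SR
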