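import Pool.Agent.Helper651.SR.Defs

set_option autoImplicit false
open MeasureTheory Set Filter Topology Classical
open scoped ENNReal Nat

namespace Pool.Agent.Helper651.SR

/-- the points which are not on cycles of length at most two -/
noncomputable def lg {V : Type} [Fintype V] (π : Equiv.Perm V) : Finset V :=
  Finset.univ.filter (fun v => π (π v) ≠ v)

/-- all cycles have even length -/
def AE {V : Type} (π : Equiv.Perm V) : Prop := ∀ v, Even (Function.minimalPeriod π v)

/-- sign of a permutation in the Euler identity -/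
noncomputable def wt {V : Type} [Fintype V] (π : Equiv.Perm V) : ℤ :=
  (Equiv.Perm.sign π : ℤ) * (-1) ^ ((Fintype.card V - (lg π).card) / 2)

/-- number of cycles of length at least three -/
noncomputable def lc {V : Type} [Fintype V] (π : Equiv.Perm V) : ℕ :=
  Multiset.card (π.cycleType.filter (fun k => 2 < k))

/-- `c` is the best (for `v`) among the `d ≠ v` which prefer `v` to their partner `m d` -/
def Best {V : Type} (U : V × V → ℝ) (m : V → V) (v c : V) : Prop :=
  c ≠ v ∧ U (c, v) < U (c, m c) ∧ ∀ d, d ≠ v → U (d, v) < U (d, m d) → U (v, c) ≤ U (v, d)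

/-- `χ` consists of cycles of the map `v ↦ σ (best candidate of v)` on `{σ better than m0}` -/
def Sub {V : Type} (U : V × V → ℝ) (m0 : V → V) (σ χ : Equiv.Perm V) : Prop :=
  ∀ v, χ v ≠ v → U (v, σ v) < U (v, m0 v) ∧ Best U σ v (σ (χ v))

/-- ordered pairs which are not adjacent on a cycle of `π` -/
noncomputable def nonadj {V : Type} [Fintype V] (π : Equiv.Perm V) : Finset (V × V) :=
  Finset.univ.filter (fun p => p.1 ≠ p.2 ∧ p.2 ≠ π p.1 ∧ p.1 ≠ π p.2)

/-- ordered pairs of different points which are not the points of a cycle of length two -/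
noncomputable def npair {V : Type} [Fintype V] (π : Equiv.Perm V) : Finset (V × V) :=
  Finset.univ.filter (fun p => p.1 ≠ p.2 ∧ ¬ (π p.1 = p.2 ∧ π p.2 = p.1))

noncomputable def NN {V : Type} [Fintype V] (π : Equiv.Perm V) (x : V → ℝ) : ℝ :=
  √(∏ p ∈ nonadj π, (1 - x p.1 * x p.2))

noncomputable def DD {V : Type} [Fintype V] (π : Equiv.Perm V) (x : V → ℝ) : ℝ :=
  √(∏ p ∈ npair π, (1 - x p.1 * x p.2))

/-- sum of the products over the edges of the long cycles -/
noncomputable def ss {V : Type} [Fintype V] (π : Equiv.Perm V) (x : V → ℝ) : ℝ :=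
  ∑ v ∈ lg π, x v * x (π v)

/-- sum of the products over the cycles of length two -/
noncomputable def MM {V : Type} [Fintype V] (π : Equiv.Perm V) (x : V → ℝ) : ℝ :=
  (∑ v ∈ Finset.univ.filter (fun v => π (π v) = v), x v * x (π v)) / 2

noncomputable def JJ {V : Type} [Fintype V] (π : Equiv.Perm V) : ℝ :=
  ∫ x, (∏ v ∈ lg π, x v) * NN π x ∂(Measure.pi fun _ : V => lam)

noncomputable def J0 {V : Type} [Fintype V] (π : Equiv.Perm V) : ℝ :=
  ∫ x, (∏ v ∈ lg π, x v) * DD π x ∂(Measure.pi fun _ : V => lam)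

noncomputable def J1 {V : Type} [Fintype V] (π : Equiv.Perm V) : ℝ :=
  ∫ x, (∏ v ∈ lg π, x v) * DD π x * ss π x ∂(Measure.pi fun _ : V => lam)

/-- Lebesgue measure on the half line -/
noncomputable def lav : Measure ℝ := volume.restrict (Ioi 0)

instance instSFLav : SigmaFinite lav := by unfold lav; infer_instance

/-- the weight of the comparison measure -/
noncomputable def WW {V : Type} [Fintype V] (π : Equiv.Perm V) (x : V → ℝ) : ℝ :=
  (∏ v ∈ lg π, x v) * Real.exp (-(∑ v, x v) ^ 2 / 2)

/-- the weight of a multiset of half lengths of cycles -/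
noncomputable def wp (a : ℝ) (μ : Multiset ℕ) : ℝ :=
  ∏ j ∈ μ.toFinset, (a / (2 * j)) ^ (μ.count j) / ((μ.count j).factorial : ℝ)

noncomputable def ff (a : ℝ) (k : ℕ) : ℝ :=
  ∑ p ∈ (Finset.univ : Finset (Nat.Partition k)).filter (fun p => ∀ i ∈ p.parts, 2 ≤ i),
    wp a p.parts

noncomputable def rr (H k : ℕ) : ℝ :=
  ∏ i ∈ Finset.range k, ((2 * H - 2 * i : ℝ) / (2 * H + 1 + 2 * i))

/-- `(2N-1)!!` -/
noncomputable def dbl (N : ℕ) : ℝ := ((Nat.doubleFactorial (2 * N - 1) : ℕ) : ℝ)

theorem dbl_succ (N : ℕ) : dbl (N + 1) = (2 * N + 1) * dbl N := by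
  unfold dbl
  rcases Nat.eq_zero_or_pos N with h | h
  · subst h; simp
  · have h1 : 2 * (N + 1) - 1 = (2 * N - 1) + 2 := by omega
    rw [h1, Nat.doubleFactorial_add_two]
    have h2 : 2 * N - 1 + 2 = 2 * N + 1 := by omega
    rw [h2]; push_cast; ring

theorem dbl_pos (N : ℕ) : 0 < dbl N := by
  unfold dbl
  exact_mod_cast Nat.doubleFactorial_pos _

end Pool.Agent.Helper651.SR
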