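import Pool.Agent.Helper651.SRF.Defs

set_option autoImplicit false
open MeasureTheory Set Filter Topology Classical
open scoped ENNReal Nat

namespace Pool.Agent.Helper651.SR

theorem dq {V : Type} [Fintype V] (π : Equiv.Perm V) (hf : ∀ v, π v ≠ v) (x : V → ℝ)
    (h0 : ∀ v, 0 ≤ x v) (h1 : ∀ v, x v ≤ 1) :
    DD π x = NN π x * ∏ v ∈ lg π, (1 - x v * x (π v)) := by
  have hset : npair π = nonadj π ∪ ((lg π).image (fun v => (v, π v)) ∪
      (lg π).image (fun v => (π v, v))) := by
    ext ⟨a, b⟩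
    simp only [npair, nonadj, lg, Finset.mem_filter, Finset.mem_univ, true_and, Finset.mem_union,
      Finset.mem_image, Prod.mk.injEq]
    constructor
    · rintro ⟨hab, hn⟩
      by_cases h1 : b = π a
      · right; left
        refine ⟨a, ?_, rfl, h1.symm⟩
        intro h2
        exact hn ⟨h1.symm, by rw [h1]; exact h2⟩
      · by_cases h2 : a = π b
        · right; right
          refine ⟨b, ?_, h2.symm, rfl⟩
          intro h3
          exact hn ⟨by rw [h2]; exact h3, h2.symm⟩
        · left; exact ⟨hab, h1, h2⟩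
    · rintro (⟨hab, h1, h2⟩ | ⟨v, hv, rfl, rfl⟩ | ⟨v, hv, rfl, rfl⟩)
      · exact ⟨hab, fun h => h1 h.1.symm⟩
      · exact ⟨fun h => hf v h.symm, fun h => hv h.2⟩
      · exact ⟨hf v, fun h => hv h.1⟩
  have hd1 : Disjoint (nonadj π) ((lg π).image (fun v => (v, π v)) ∪
      (lg π).image (fun v => (π v, v))) := by
    rw [Finset.disjoint_left]
    rintro ⟨a, b⟩ h1 h2
    simp only [nonadj, lg, Finset.mem_filter, Finset.mem_univ, true_and, Finset.mem_union,
      Finset.mem_image, Prod.mk.injEq] at h1 h2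
    rcases h2 with ⟨v, hv, rfl, rfl⟩ | ⟨v, hv, rfl, rfl⟩
    · exact h1.2.1 rfl
    · exact h1.2.2 rfl
  have hd2 : Disjoint ((lg π).image (fun v => (v, π v))) ((lg π).image (fun v => (π v, v))) := by
    rw [Finset.disjoint_left]
    rintro ⟨a, b⟩ h1 h2
    simp only [lg, Finset.mem_filter, Finset.mem_univ, true_and,
      Finset.mem_image, Prod.mk.injEq] at h1 h2
    obtain ⟨v, hv, rfl, rfl⟩ := h1
    obtain ⟨w, hw, h3, h4⟩ := h2
    apply hv
    rw [← h4]; exact h3
  have hA : ∏ p ∈ (lg π).image (fun v => (v, π v)), (1 - x p.1 * x p.2) =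
      ∏ v ∈ lg π, (1 - x v * x (π v)) := by
    rw [Finset.prod_image]
    intro v _ w _ h
    exact (Prod.mk.inj h).1
  have hB : ∏ p ∈ (lg π).image (fun v => (π v, v)), (1 - x p.1 * x p.2) =
      ∏ v ∈ lg π, (1 - x v * x (π v)) := by
    rw [Finset.prod_image]
    · exact Finset.prod_congr rfl fun v _ => by ring
    · intro v _ w _ h
      exact (Prod.mk.inj h).2
  have hP : 0 ≤ ∏ v ∈ lg π, (1 - x v * x (π v)) := by
    refine Finset.prod_nonneg fun v _ => ?_
    have := mul_le_one₀ (h1 v) (h0 (π v)) (h1 (π v))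
    linarith
  unfold DD NN
  rw [hset, Finset.prod_union hd1, Finset.prod_union hd2, hA, hB, ← sq,
    Real.sqrt_mul' _ (sq_nonneg _), Real.sqrt_sq hP]

end Pool.Agent.Helper651.SR
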