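import Pool.Agent.Helper651.SRF.Defs

set_option autoImplicit false
open MeasureTheory Set Filter Topology Classical
open scoped ENNReal Nat

namespace Pool.Agent.Helper651.SR

theorem rr_succ (H k : ℕ) :
    rr H (k + 1) = rr H k * ((2 * H - 2 * k : ℝ) / (2 * H + 1 + 2 * k)) := by
  unfold rr
  rw [Finset.prod_range_succ]

theorem rr_zero (H : ℕ) : rr H 0 = 1 := by
  unfold rr
  simp

theorem fact_dbl (H : ℕ) : ((2 * H).factorial : ℝ) = 2 ^ H * H.factorial * dbl H := by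
  induction H with
  | zero => simp [dbl]
  | succ H ih =>
    have h1 : 2 * (H + 1) = (2 * H + 1) + 1 := by ring
    rw [h1, Nat.factorial_succ, Nat.factorial_succ, dbl_succ, Nat.factorial_succ]
    push_cast
    rw [ih]
    ring

theorem rr_bd' (H k : ℕ) (hH : 1 ≤ H) (hk : k ≤ H) :
    0 ≤ rr H k ∧ rr H k ≤ Real.exp (-((2 * (k:ℝ) ^ 2 - k) / (4 * H + 1))) := by
  induction k with
  | zero => rw [rr_zero]; simp
  | succ k ih =>
    obtain ⟨h0, h1⟩ := ih (by omega)
    have hkH : ((k:ℝ) + 1) ≤ H := by exact_mod_cast hk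
    have hk0 : (0:ℝ) ≤ k := by positivity
    have hd : (0:ℝ) < 2 * H + 1 + 2 * k := by positivity
    have hfac0 : (0:ℝ) ≤ (2 * H - 2 * k : ℝ) / (2 * H + 1 + 2 * k) :=
      div_nonneg (by linarith) hd.le
    have hfac1 : (2 * H - 2 * k : ℝ) / (2 * H + 1 + 2 * k) ≤
        Real.exp (-((4 * (k:ℝ) + 1) / (4 * H + 1))) := by
      have h2 : (2 * H - 2 * k : ℝ) / (2 * H + 1 + 2 * k) =
          -((4 * (k:ℝ) + 1) / (2 * H + 1 + 2 * k)) + 1 := by
        field_simp
        ring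
      have h3 : (4 * (k:ℝ) + 1) / (4 * H + 1) ≤ (4 * (k:ℝ) + 1) / (2 * H + 1 + 2 * k) := by
        apply div_le_div_of_nonneg_left _ hd _
        · positivity
        · linarith
      rw [h2]
      exact (Real.add_one_le_exp _).trans (Real.exp_le_exp.2 (by linarith))
    rw [rr_succ]
    refine ⟨mul_nonneg h0 hfac0, ?_⟩
    refine (mul_le_mul h1 hfac1 hfac0 (Real.exp_pos _).le).trans ?_
    rw [← Real.exp_add]
    apply Real.exp_le_exp.2
    push_cast
    apply le_of_eq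
    field_simp
    ring


theorem rr_eq (H k : ℕ) (hk : k ≤ H) :
    ((2 * H).factorial : ℝ) / (2 ^ (H - k) * (H - k).factorial) / dbl (H + k) = rr H k := by
  induction k with
  | zero =>
    rw [rr_zero, fact_dbl]
    have h1 := dbl_pos H
    have h2 : (0:ℝ) < H.factorial := by exact_mod_cast Nat.factorial_pos H
    simp only [Nat.sub_zero, Nat.add_zero]
    field_simp
  | succ k ih =>
    have ih' := ih (by omega)
    obtain ⟨j, hj⟩ : ∃ j, H = j + k + 1 := ⟨H - (k + 1), by omega⟩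
    have h1 : H - k = j + 1 := by omega
    have h2 : H - (k + 1) = j := by omega
    rw [rr_succ, ← ih', h1, h2]
    have h3 : H + (k + 1) = (H + k) + 1 := by ring
    rw [h3, dbl_succ, Nat.factorial_succ]
    have h4 := dbl_pos (H + k)
    have h5 : (0:ℝ) < j.factorial := by exact_mod_cast Nat.factorial_pos j
    have h6 : (2 * H - 2 * k : ℝ) = 2 * (j + 1) := by
      rw [hj]; push_cast; ring
    rw [h6]
    have h7 : (0:ℝ) < 2 * H + 1 + 2 * k := by positivity
    have h8 : (2 * ((H + k : ℕ) : ℝ) + 1) = 2 * H + 1 + 2 * k := by push_cast; ring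
    rw [h8]
    push_cast
    field_simp
    ring

theorem rr_bd (H k : ℕ) (hH : 1 ≤ H) (hk : k ≤ H) :
    0 ≤ rr H k ∧ rr H k ≤ Real.exp (-(k : ℝ) ^ 2 / (5 * H)) := by
  obtain ⟨h0, h1⟩ := rr_bd' H k hH hk
  refine ⟨h0, h1.trans (Real.exp_le_exp.2 ?_)⟩
  have hH' : (1:ℝ) ≤ H := by exact_mod_cast hH
  have h2 : (k:ℝ) ^ 2 / (5 * H) ≤ (2 * (k:ℝ) ^ 2 - k) / (4 * H + 1) := by
    rcases Nat.eq_zero_or_pos k with rfl | hk1
    · simp
    · have hk1' : (1:ℝ) ≤ k := by exact_mod_cast hk1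
      have h3 : (k:ℝ) ^ 2 ≤ 2 * (k:ℝ) ^ 2 - k := by nlinarith
      calc (k:ℝ) ^ 2 / (5 * H) ≤ (k:ℝ) ^ 2 / (4 * H + 1) := by
            apply div_le_div_of_nonneg_left (by positivity) (by positivity)
            linarith
        _ ≤ _ := by
            apply div_le_div_of_nonneg_right h3 (by positivity)
  have h4 : -(k:ℝ) ^ 2 / (5 * H) = -((k:ℝ) ^ 2 / (5 * H)) := by ring
  rw [h4]
  linarith

theorem rr_step (H k : ℕ) (hH : 1 ≤ H) (hk : k ≤ H) :
    0 ≤ rr H k - rr H (k + 1) ∧ rr H k - rr H (k + 1) ≤ (4 * k + 1) / (2 * H) := by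
  obtain ⟨h0, h1⟩ := rr_bd' H k hH hk
  have hH' : (1:ℝ) ≤ H := by exact_mod_cast hH
  have h1' : rr H k ≤ 1 := by
    refine h1.trans ?_
    rw [Real.exp_le_one_iff]
    have : (0:ℝ) ≤ (2 * (k:ℝ) ^ 2 - k) / (4 * H + 1) := by
      apply div_nonneg _ (by positivity)
      rcases Nat.eq_zero_or_pos k with rfl | hk1
      · simp
      · have hk1' : (1:ℝ) ≤ k := by exact_mod_cast hk1
        nlinarith
    linarith
  have h2 : rr H k - rr H (k + 1) = rr H k * ((4 * (k:ℝ) + 1) / (2 * H + 1 + 2 * k)) := by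
    rw [rr_succ]
    have hd : (0:ℝ) < 2 * H + 1 + 2 * k := by positivity
    field_simp
    ring
  rw [h2]
  refine ⟨by positivity, ?_⟩
  calc rr H k * ((4 * (k:ℝ) + 1) / (2 * H + 1 + 2 * k))
      ≤ 1 * ((4 * (k:ℝ) + 1) / (2 * H + 1 + 2 * k)) :=
        mul_le_mul_of_nonneg_right h1' (by positivity)
    _ = (4 * (k:ℝ) + 1) / (2 * H + 1 + 2 * k) := one_mul _
    _ ≤ (4 * k + 1) / (2 * H) := by
        apply div_le_div_of_nonneg_left (by positivity) (by positivity)
        have : (0:ℝ) ≤ k := by positivity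
        linarith

end Pool.Agent.Helper651.SR
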