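import Pool.Agent.Helper651.SRF.Defs
import Pool.Agent.Helper651.SRF.RrBd

set_option autoImplicit false
open MeasureTheory Set Filter Topology Classical
open scoped ENNReal Nat

namespace Pool.Agent.Helper651.SR

theorem es_term (H k : ℕ) (hH : 1 ≤ H) (hk : k ≤ H) :
    rr H k * ((k : ℝ) / H) ^ 2 ≤ (10 / H) * Real.exp (-(1 / (10 * √(H : ℝ)))) ^ k := by
  have hHp : (0 : ℝ) < H := by exact_mod_cast hH
  set r := √(H : ℝ) with hr
  have hr0 : 0 < r := Real.sqrt_pos.2 hHp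
  have hr2 : r ^ 2 = H := Real.sq_sqrt hHp.le
  obtain ⟨h1, h2⟩ := rr_bd H k hH hk
  set t : ℝ := (k : ℝ) ^ 2 / (5 * H) with ht
  have ht0 : 0 ≤ t := by positivity
  have hneg : -(k : ℝ) ^ 2 / (5 * H) = -t := by rw [ht]; ring
  rw [hneg] at h2
  have e1 : ((k : ℝ) / H) ^ 2 = 5 * t / H := by rw [ht]; field_simp
  have h3 : t * Real.exp (-t / 2) ≤ 1 := by
    have h4 : t / 2 + 1 ≤ Real.exp (t / 2) := Real.add_one_le_exp _
    have h5 : (t / 2 + 1) ^ 2 ≤ Real.exp (t / 2) ^ 2 := pow_le_pow_left₀ (by positivity) h4 2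
    have h6 : t ≤ Real.exp (t / 2) := by
      have h7 := Real.quadratic_le_exp_of_nonneg (show 0 ≤ t / 2 by positivity)
      nlinarith [sq_nonneg (t / 2 - 1)]
    have h8 : Real.exp (t / 2) * Real.exp (-t / 2) = 1 := by
      rw [← Real.exp_add]
      have : t / 2 + -t / 2 = 0 := by ring
      rw [this, Real.exp_zero]
    calc t * Real.exp (-t / 2) ≤ Real.exp (t / 2) * Real.exp (-t / 2) :=
          mul_le_mul_of_nonneg_right h6 (Real.exp_pos _).le
      _ = 1 := h8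
  have h4 : Real.exp (-t) * t ≤ Real.exp (-t / 2) := by
    have : Real.exp (-t) = Real.exp (-t / 2) * Real.exp (-t / 2) := by
      rw [← Real.exp_add]; congr 1; ring
    rw [this]
    nlinarith [Real.exp_pos (-t / 2)]
  have h5 : Real.exp (-t / 2) ≤ 2 * Real.exp (-(1 / (10 * r))) ^ k := by
    rw [← Real.exp_nat_mul]
    set u : ℝ := (k : ℝ) / r with hu
    have e2 : -t / 2 = -(u / 10) + (u - u ^ 2) / 10 := by
      rw [ht, hu, ← hr2]; field_simp; ring
    have e3 : (k : ℝ) * -(1 / (10 * r)) = -(u / 10) := by rw [hu]; field_simp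
    rw [e2, e3, Real.exp_add]
    have h6 : Real.exp ((u - u ^ 2) / 10) ≤ 2 := by
      have h7 : (u - u ^ 2) / 10 ≤ Real.log 2 := by
        have := Real.log_two_gt_d9
        nlinarith [sq_nonneg (u - 1 / 2)]
      calc Real.exp ((u - u ^ 2) / 10) ≤ Real.exp (Real.log 2) := Real.exp_le_exp.2 h7
        _ = 2 := Real.exp_log (by norm_num)
    nlinarith [Real.exp_pos (-(u / 10))]
  calc rr H k * ((k : ℝ) / H) ^ 2 ≤ Real.exp (-t) * ((k : ℝ) / H) ^ 2 :=
        mul_le_mul_of_nonneg_right h2 (by positivity)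
    _ = (5 / H) * (Real.exp (-t) * t) := by rw [e1]; ring
    _ ≤ (5 / H) * (2 * Real.exp (-(1 / (10 * r))) ^ k) :=
        mul_le_mul_of_nonneg_left (h4.trans h5) (by positivity)
    _ = (10 / H) * Real.exp (-(1 / (10 * r))) ^ k := by ring


theorem err_sum (H : ℕ) (hH : 1 ≤ H) :
    ∑ k ∈ Finset.range (H + 1), rr H k * ((k : ℝ) / H) ^ 2 ≤ 1000 / √(H : ℝ) := by
  have hHp : (0 : ℝ) < H := by exact_mod_cast hH
  have hH1 : (1 : ℝ) ≤ H := by exact_mod_cast hH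
  set r := √(H : ℝ) with hr
  have hr0 : 0 < r := Real.sqrt_pos.2 hHp
  have hr2 : r ^ 2 = H := Real.sq_sqrt hHp.le
  have hr1 : 1 ≤ r := Real.one_le_sqrt.2 hH1
  set y : ℝ := 1 / (10 * r) with hy
  have hy0 : 0 < y := by positivity
  set q := Real.exp (-y) with hq
  have hq0 : 0 < q := Real.exp_pos _
  have hq1 : q < 1 := by rw [hq, Real.exp_lt_one_iff]; linarith
  have h1 : ∑ k ∈ Finset.range (H + 1), rr H k * ((k : ℝ) / H) ^ 2 ≤
      ∑ k ∈ Finset.range (H + 1), (10 / H) * q ^ k := by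
    apply Finset.sum_le_sum
    intro k hk
    rw [Finset.mem_range] at hk
    exact es_term H k hH (by omega)
  rw [← Finset.mul_sum] at h1
  have h2 : ∑ k ∈ Finset.range (H + 1), q ^ k ≤ (1 - q)⁻¹ := by
    rw [← tsum_geometric_of_lt_one hq0.le hq1]
    exact (summable_geometric_of_lt_one hq0.le hq1).sum_le_tsum _ (fun k _ => by positivity)
  have h3 : (1 - q)⁻¹ ≤ 1 + 1 / y := by
    have h4 : y + 1 ≤ Real.exp y := Real.add_one_le_exp y
    have h5 : Real.exp y * q = 1 := by rw [hq, ← Real.exp_add]; simp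
    have h6 : (y + 1) * q ≤ 1 := by nlinarith
    have h7 : 0 < 1 - q := by linarith
    rw [inv_le_comm₀ h7 (by positivity)]
    have h8 : (1 + 1 / y)⁻¹ = y / (y + 1) := by field_simp
    rw [h8, div_le_iff₀ (by positivity)]
    nlinarith
  have h4 : 1 + 1 / y = 1 + 10 * r := by rw [hy]; field_simp
  rw [h4] at h3
  have h5 : ∑ k ∈ Finset.range (H + 1), q ^ k ≤ 11 * r := by linarith
  calc ∑ k ∈ Finset.range (H + 1), rr H k * ((k : ℝ) / H) ^ 2 ≤
        (10 / H) * ∑ k ∈ Finset.range (H + 1), q ^ k := h1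
    _ ≤ (10 / H) * (11 * r) := mul_le_mul_of_nonneg_left h5 (by positivity)
    _ = 110 / r := by rw [← hr2]; field_simp; ring
    _ ≤ 1000 / r := div_le_div_of_nonneg_right (by norm_num) hr0.le

theorem f_sum (f : ℕ → ℝ) (hf : ∀ k : ℕ, |f k| ≤ 10 / ((k + 1) * √(k + 1))) (H : ℕ)
    (hH : 1 ≤ H) :
    ∑ k ∈ Finset.range (H + 1), |f k| * √((k + 1) / H) ≤
      10 * (1 + Real.log (H + 1)) / √(H : ℝ) := by
  have hHp : (0 : ℝ) < H := by exact_mod_cast hH
  have hr0 : 0 < √(H : ℝ) := Real.sqrt_pos.2 hHp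
  have h1 : ∀ k ∈ Finset.range (H + 1), |f k| * √((k + 1) / H) ≤
      (10 / √(H : ℝ)) * ((k : ℝ) + 1)⁻¹ := by
    intro k _
    have hk : (0 : ℝ) < (k : ℝ) + 1 := by positivity
    have hks : 0 < √((k : ℝ) + 1) := Real.sqrt_pos.2 hk
    rw [Real.sqrt_div hk.le]
    calc |f k| * (√((k : ℝ) + 1) / √(H : ℝ)) ≤
        10 / (((k : ℝ) + 1) * √((k : ℝ) + 1)) * (√((k : ℝ) + 1) / √(H : ℝ)) :=
          mul_le_mul_of_nonneg_right (hf k) (by positivity)
      _ = (10 / √(H : ℝ)) * ((k : ℝ) + 1)⁻¹ := by field_simp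
  refine (Finset.sum_le_sum h1).trans ?_
  rw [← Finset.mul_sum]
  have h2 : ∑ k ∈ Finset.range (H + 1), ((k : ℝ) + 1)⁻¹ ≤ 1 + Real.log ((H : ℝ) + 1) := by
    have h3 := harmonic_le_one_add_log (H + 1)
    have h4 : ((harmonic (H + 1) : ℚ) : ℝ) = ∑ k ∈ Finset.range (H + 1), ((k : ℝ) + 1)⁻¹ := by
      simp [harmonic]
    rw [h4] at h3
    push_cast at h3
    exact h3
  calc (10 / √(H : ℝ)) * ∑ k ∈ Finset.range (H + 1), ((k : ℝ) + 1)⁻¹ ≤
      (10 / √(H : ℝ)) * (1 + Real.log ((H : ℝ) + 1)) :=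
        mul_le_mul_of_nonneg_left h2 (by positivity)
    _ = 10 * (1 + Real.log (H + 1)) / √(H : ℝ) := by ring

end Pool.Agent.Helper651.SR
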