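import Pool.Agent.Helper651.SRF.Defs
import Pool.Agent.Helper651.SRF.Xy
import Pool.Agent.Helper651.SRF.BestEx

set_option autoImplicit false
open MeasureTheory Set Filter Topology Classical
open scoped ENNReal Nat

namespace Pool.Agent.Helper651.SR

theorem pts {V : Type} [Fintype V] {U : V × V → ℝ}
    (hinj : ∀ v, Function.Injective (fun w => U (v, w))) {m0 : V → V} {σ χ : Equiv.Perm V}
    (hm : IsM σ) (hs : Stab U σ) (hm0 : IsM m0) (hs0 : Stab U m0) (h : Sub U m0 σ χ) (v : V) :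
    (χ v ≠ v → χ (σ v) = σ v ∧ (χ⁻¹ * σ) v = σ v ∧ (χ⁻¹ * σ)⁻¹ v = σ (χ v) ∧
      (χ⁻¹ * σ) ((χ⁻¹ * σ) v) ≠ v ∧ ¬ U (v, m0 v) < U (v, (χ⁻¹ * σ)⁻¹ v)) ∧
    (χ (σ v) ≠ σ v → χ v = v ∧ (χ⁻¹ * σ)⁻¹ v = σ v ∧
      (χ⁻¹ * σ) ((χ⁻¹ * σ) v) ≠ v ∧ U (v, m0 v) < U (v, (χ⁻¹ * σ)⁻¹ v)) ∧
    (χ v = v → χ (σ v) = σ v → (χ⁻¹ * σ) v = σ v ∧ (χ⁻¹ * σ)⁻¹ v = σ v) := by
  have hss : ∀ x, σ (σ x) = x := fun x => (hm x).1
  have hsi : ∀ x, σ⁻¹ x = σ x := fun x => by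
    rw [Equiv.Perm.inv_eq_iff_eq]
    exact (hss x).symm
  have hpi : ∀ x, (χ⁻¹ * σ) x = χ⁻¹ (σ x) := fun x => rfl
  have hpinv : ∀ x, (χ⁻¹ * σ)⁻¹ x = σ (χ x) := fun x => by
    rw [mul_inv_rev, inv_inv, Equiv.Perm.mul_apply, hsi]
  have key : ∀ w, χ w ≠ w → χ (σ w) = σ w := by
    intro w hw
    by_contra hne
    have h1 := (xy hinj hm hs hm0 hs0 w).1 (h w hw).1
    have h2 := (h (σ w) hne).1
    exact lt_asymm h1.1 h2
  refine ⟨fun hv => ?_, fun hv => ?_, fun hv hv' => ?_⟩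
  · have hk := key v hv
    have hp : (χ⁻¹ * σ) v = σ v := by
      rw [hpi, Equiv.Perm.inv_eq_iff_eq]
      exact hk.symm
    refine ⟨hk, hp, hpinv v, ?_, ?_⟩
    · rw [hp, hpi, hss]
      intro hcon
      rw [Equiv.Perm.inv_eq_iff_eq] at hcon
      exact hv hcon.symm
    · rw [hpinv]
      have hb := best_prop hinj hm hs hm0 hs0 v (h v hv).1 _ (h v hv).2
      exact not_lt.mpr hb.2.1
  · have hk := key (σ v) hv
    rw [hss] at hk
    have h1 := (xy hinj hm hs hm0 hs0 (σ v)).1 (h (σ v) hv).1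
    have hpv : (χ⁻¹ * σ)⁻¹ v = σ v := by rw [hpinv, hk]
    refine ⟨hk, hpv, ?_, ?_⟩
    · have hχu : χ (χ⁻¹ (σ v)) = σ v := by simp
      have hu : χ⁻¹ (σ v) ≠ σ v := by
        intro hcon
        rw [hcon] at hχu
        exact hv hχu
      have hk2 := key (χ⁻¹ (σ v)) (by rw [hχu]; exact hu.symm)
      rw [hpi, hpi]
      intro hcon
      have h3 : χ⁻¹ (σ (χ⁻¹ (σ v))) = σ (χ⁻¹ (σ v)) := by
        rw [Equiv.Perm.inv_eq_iff_eq]
        exact hk2.symm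
      rw [h3] at hcon
      apply hu
      have := congrArg σ hcon
      rw [hss] at this
      exact this
    · rw [hpv]
      have h4 := h1.1
      rw [hss] at h4
      exact h4
  · refine ⟨?_, ?_⟩
    · rw [hpi, Equiv.Perm.inv_eq_iff_eq]
      exact hv'.symm
    · rw [hpinv, hv]

end Pool.Agent.Helper651.SR
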