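import Pool.Agent.Helper651.SRF.Defs
import Pool.Agent.Helper651.SRF.Xy
import Pool.Agent.Helper651.SRF.BestEx
import Pool.Agent.Helper651.SRF.Pts

set_option autoImplicit false
open MeasureTheory Set Filter Topology Classical
open scoped ENNReal Nat

namespace Pool.Agent.Helper651.SR

theorem fwd_ai {V : Type} (χ : Equiv.Perm V) (x : V) : χ (χ⁻¹ x) = x := χ.apply_symm_apply x

theorem fwd_long {V : Type} [Fintype V] {U : V × V → ℝ}
    (hinj : ∀ v, Function.Injective (fun w => U (v, w))) {m0 : V → V} {σ χ : Equiv.Perm V}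
    (hm : IsM σ) (hs : Stab U σ) (hm0 : IsM m0) (hs0 : Stab U m0) (h : Sub U m0 σ χ) (v : V)
    (hL : χ v ≠ v ∨ χ (σ v) ≠ σ v) :
    (χ ((χ⁻¹ * σ) v) ≠ (χ⁻¹ * σ) v ∨ χ (σ ((χ⁻¹ * σ) v)) ≠ σ ((χ⁻¹ * σ) v)) ∧
      (χ ((χ⁻¹ * σ) v) ≠ (χ⁻¹ * σ) v ↔ ¬ (χ v ≠ v)) := by
  obtain ⟨hA, hB, hC⟩ := pts hinj hm hs hm0 hs0 h v
  by_cases hv : χ v ≠ v
  · obtain ⟨h1, h2, -, -, -⟩ := hA hv
    rw [h2]
    constructor
    · right
      rw [(hm v).1]
      exact hv
    · constructor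
      · intro h3
        exact absurd h1 h3
      · intro h3
        exact absurd hv h3
  · have hv2 := hL.resolve_left hv
    have e : (χ⁻¹ * σ) v = χ⁻¹ (σ v) := rfl
    have hmv : χ ((χ⁻¹ * σ) v) ≠ (χ⁻¹ * σ) v := by
      rw [e]
      intro h3
      rw [fwd_ai] at h3
      apply hv2
      conv_lhs => rw [h3]
      rw [fwd_ai]
    exact ⟨Or.inl hmv, fun _ => hv, fun _ => hmv⟩

theorem fwd_short {V : Type} [Fintype V] {U : V × V → ℝ}
    (hinj : ∀ v, Function.Injective (fun w => U (v, w))) {m0 : V → V} {σ χ : Equiv.Perm V}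
    (hm : IsM σ) (hs : Stab U σ) (hm0 : IsM m0) (hs0 : Stab U m0) (h : Sub U m0 σ χ) (v : V)
    (hL : ¬ (χ v ≠ v ∨ χ (σ v) ≠ σ v)) : (χ⁻¹ * σ) ((χ⁻¹ * σ) v) = v := by
  rw [not_or, not_not, not_not] at hL
  obtain ⟨-, -, hC⟩ := pts hinj hm hs hm0 hs0 h v
  obtain ⟨-, -, hC'⟩ := pts hinj hm hs hm0 hs0 h (σ v)
  have h1 := (hC hL.1 hL.2).1
  have h2 := (hC' hL.2 (by rw [(hm v).1]; exact hL.1)).1
  rw [h1, h2, (hm v).1]

theorem fwd_nofix {V : Type} [Fintype V] {U : V × V → ℝ}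
    (hinj : ∀ v, Function.Injective (fun w => U (v, w))) {m0 : V → V} {σ χ : Equiv.Perm V}
    (hm : IsM σ) (hs : Stab U σ) (hm0 : IsM m0) (hs0 : Stab U m0) (h : Sub U m0 σ χ) (v : V) :
    (χ⁻¹ * σ) v ≠ v := by
  intro h1
  by_cases hv : χ v = v
  · have e : (χ⁻¹ * σ) v = χ⁻¹ (σ v) := rfl
    rw [e, Equiv.Perm.inv_eq_iff_eq, hv] at h1
    exact (hm v).2 h1
  · have h2 := ((pts hinj hm hs hm0 hs0 h v).1 hv).2.1
    rw [h2] at h1
    exact (hm v).2 h1

theorem fwd_iter {V : Type} [Fintype V] {U : V × V → ℝ}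
    (hinj : ∀ v, Function.Injective (fun w => U (v, w))) {m0 : V → V} {σ χ : Equiv.Perm V}
    (hm : IsM σ) (hs : Stab U σ) (hm0 : IsM m0) (hs0 : Stab U m0) (h : Sub U m0 σ χ) (v : V)
    (hL : χ v ≠ v ∨ χ (σ v) ≠ σ v) (k : ℕ) :
    (χ ((χ⁻¹ * σ)^[k] v) ≠ (χ⁻¹ * σ)^[k] v ∨
      χ (σ ((χ⁻¹ * σ)^[k] v)) ≠ σ ((χ⁻¹ * σ)^[k] v)) ∧
      (((χ ((χ⁻¹ * σ)^[k] v) ≠ (χ⁻¹ * σ)^[k] v) ↔ (χ v ≠ v)) ↔ Even k) := by
  induction k with
  | zero =>
    refine ⟨hL, ?_⟩
    simp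
  | succ k ih =>
    rw [Function.iterate_succ_apply']
    obtain ⟨h1, h2⟩ := ih
    obtain ⟨h3, h4⟩ := fwd_long hinj hm hs hm0 hs0 h _ h1
    refine ⟨h3, ?_⟩
    rw [h4, Nat.even_add_one, ← h2]
    tauto

theorem fwd_AE {V : Type} [Fintype V] {U : V × V → ℝ}
    (hinj : ∀ v, Function.Injective (fun w => U (v, w))) {m0 : V → V} {σ χ : Equiv.Perm V}
    (hm : IsM σ) (hs : Stab U σ) (hm0 : IsM m0) (hs0 : Stab U m0) (h : Sub U m0 σ χ) :
    AE (χ⁻¹ * σ) := by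
  intro v
  by_cases hL : χ v ≠ v ∨ χ (σ v) ≠ σ v
  · have h1 := (fwd_iter hinj hm hs hm0 hs0 h v hL (Function.minimalPeriod (χ⁻¹ * σ) v)).2
    rw [Function.iterate_minimalPeriod] at h1
    exact h1.mp Iff.rfl
  · have h1 := fwd_short hinj hm hs hm0 hs0 h v hL
    have h2 : Function.IsPeriodicPt (χ⁻¹ * σ) 2 v := h1
    have h3 := h2.minimalPeriod_dvd
    rcases (Nat.dvd_prime Nat.prime_two).mp h3 with h4 | h4
    · exfalso
      have h5 : Function.IsFixedPt (χ⁻¹ * σ) v := Function.minimalPeriod_eq_one_iff_isFixedPt.mp h4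
      exact fwd_nofix hinj hm hs hm0 hs0 h v h5
    · rw [h4]
      exact even_two

theorem fwd_SP {V : Type} [Fintype V] {U : V × V → ℝ}
    (hinj : ∀ v, Function.Injective (fun w => U (v, w))) {m0 : V → V} {σ χ : Equiv.Perm V}
    (hm : IsM σ) (hs : Stab U σ) (hm0 : IsM m0) (hs0 : Stab U m0) (h : Sub U m0 σ χ) :
    SP U (χ⁻¹ * σ) := by
  have hfix : ∀ v, χ v = v → (χ⁻¹ * σ)⁻¹ v = σ v := by
    intro v hv
    obtain ⟨-, hB, hC⟩ := pts hinj hm hs hm0 hs0 h v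
    by_cases h1 : χ (σ v) = σ v
    · exact (hC hv h1).2
    · exact (hB h1).2.1
  refine ⟨fwd_nofix hinj hm hs hm0 hs0 h, ?_, ?_⟩
  · intro v
    obtain ⟨hA, hB, hC⟩ := pts hinj hm hs hm0 hs0 h v
    by_cases hv : χ v = v
    · by_cases hv2 : χ (σ v) = σ v
      · obtain ⟨h1, h2⟩ := hC hv hv2
        rw [h1, h2]
      · rw [hfix v hv]
        set u := (χ⁻¹ * σ) v with hu
        have hχu : χ u = σ v := by
          rw [hu]
          show χ (χ⁻¹ (σ v)) = σ v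
          rw [fwd_ai]
        have hne : χ u ≠ u := by
          intro h0
          apply hv2
          rw [← hχu, h0, h0]
        have hb := (h u hne).2
        rw [hχu, (hm v).1] at hb
        exact hb.2.1.le
    · obtain ⟨-, h2, h3, -, -⟩ := hA hv
      rw [h2, h3]
      have hb := h v hv
      exact (best_prop hinj hm hs hm0 hs0 v hb.1 _ hb.2).1
  · rintro u w huw ⟨h1, h2⟩
    by_cases hu : χ u = u
    · by_cases hw : χ w = w
      · rw [hfix u hu] at h1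
        rw [hfix w hw] at h2
        exact hs u w huw ⟨h1, h2⟩
      · rw [hfix u hu] at h1
        have hb := (h w hw).2
        have h3 := ((pts hinj hm hs hm0 hs0 h w).1 hw).2.2.1
        rw [h3] at h2
        have h4 := hb.2.2 u huw h1
        exact absurd h2 (not_lt.mpr h4)
    · by_cases hw : χ w = w
      · rw [hfix w hw] at h2
        have hb := (h u hu).2
        have h3 := ((pts hinj hm hs hm0 hs0 h u).1 hu).2.2.1
        rw [h3] at h1
        have h4 := hb.2.2 w huw.symm h2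
        exact absurd h1 (not_lt.mpr h4)
      · have h3 := ((pts hinj hm hs hm0 hs0 h u).1 hu).2.2.2.2
        have h4 := ((pts hinj hm hs hm0 hs0 h w).1 hw).2.2.2.2
        exact hs0 u w huw ⟨h1.trans_le (not_lt.mp h3), h2.trans_le (not_lt.mp h4)⟩

theorem fwd_card {V : Type} [Fintype V] {U : V × V → ℝ}
    (hinj : ∀ v, Function.Injective (fun w => U (v, w))) {m0 : V → V} {σ χ : Equiv.Perm V}
    (hm : IsM σ) (hs : Stab U σ) (hm0 : IsM m0) (hs0 : Stab U m0) (h : Sub U m0 σ χ) :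
    (lg (χ⁻¹ * σ)).card = 2 * χ.support.card := by
  have e : lg (χ⁻¹ * σ) = χ.support ∪ χ.support.map σ.toEmbedding := by
    ext v
    rw [Finset.mem_union, Finset.mem_map_equiv, Equiv.Perm.mem_support, Equiv.Perm.mem_support]
    have hsy : σ.symm v = σ v := by
      rw [Equiv.symm_apply_eq]
      exact (hm v).1.symm
    rw [hsy]
    unfold lg
    rw [Finset.mem_filter]
    constructor
    · rintro ⟨-, h1⟩
      by_contra hc
      exact h1 (fwd_short hinj hm hs hm0 hs0 h v hc)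
    · intro h1
      refine ⟨Finset.mem_univ v, ?_⟩
      obtain ⟨hA, hB, -⟩ := pts hinj hm hs hm0 hs0 h v
      rcases h1 with h1 | h1
      · exact (hA h1).2.2.2.1
      · exact (hB h1).2.2.1
  have hd : Disjoint χ.support (χ.support.map σ.toEmbedding) := by
    rw [Finset.disjoint_left]
    intro v h1 h2
    rw [Equiv.Perm.mem_support] at h1
    rw [Finset.mem_map_equiv, Equiv.Perm.mem_support] at h2
    have hsy : σ.symm v = σ v := by
      rw [Equiv.symm_apply_eq]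
      exact (hm v).1.symm
    rw [hsy] at h2
    exact h2 ((pts hinj hm hs hm0 hs0 h v).1 h1).1
  rw [e, Finset.card_union_of_disjoint hd, Finset.card_map, two_mul]

theorem fwd {V : Type} [Fintype V] {U : V × V → ℝ}
    (hinj : ∀ v, Function.Injective (fun w => U (v, w))) {m0 : V → V} {σ χ : Equiv.Perm V}
    (hm : IsM σ) (hs : Stab U σ) (hm0 : IsM m0) (hs0 : Stab U m0) (h : Sub U m0 σ χ) :
    SP U (χ⁻¹ * σ) ∧ AE (χ⁻¹ * σ) ∧ (lg (χ⁻¹ * σ)).card = 2 * χ.support.card := by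
  exact ⟨fwd_SP hinj hm hs hm0 hs0 h, fwd_AE hinj hm hs hm0 hs0 h,
    fwd_card hinj hm hs hm0 hs0 h⟩

end Pool.Agent.Helper651.SR
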