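import Pool.Agent.Helper651.SRF.Defs
import Pool.Agent.Helper651.SRF.Pts

set_option autoImplicit false
open MeasureTheory Set Filter Topology Classical
open scoped ENNReal Nat

namespace Pool.Agent.Helper651.SR

theorem inj2_aux {V : Type} [Fintype V] {U : V × V → ℝ}
    (hinj : ∀ v, Function.Injective (fun w => U (v, w))) {m0 : V → V}
    {σ χ : Equiv.Perm V} (hm0 : IsM m0) (hs0 : Stab U m0)
    (hm : IsM σ) (hs : Stab U σ) (h : Sub U m0 σ χ) (v : V) :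
    σ v = if ((χ⁻¹ * σ) ((χ⁻¹ * σ) v) ≠ v ∧ U (v, m0 v) < U (v, (χ⁻¹ * σ)⁻¹ v))
      then (χ⁻¹ * σ)⁻¹ v else (χ⁻¹ * σ) v := by
  obtain ⟨hA, hB, hC⟩ := pts hinj hm hs hm0 hs0 h v
  by_cases h1 : χ v = v
  · by_cases h2 : χ (σ v) = σ v
    · obtain ⟨e1, e2⟩ := hC h1 h2
      split_ifs
      · exact e2.symm
      · exact e1.symm
    · obtain ⟨_, e1, e2, e3⟩ := hB h2
      rw [if_pos ⟨e2, e3⟩]
      exact e1.symm
  · obtain ⟨_, e1, _, e2, e3⟩ := hA h1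
    rw [if_neg (fun hh => e3 hh.2)]
    exact e1.symm

theorem inj2 {V : Type} [Fintype V] {U : V × V → ℝ}
    (hinj : ∀ v, Function.Injective (fun w => U (v, w))) {m0 : V → V}
    {σ χ σ' χ' : Equiv.Perm V} (hm0 : IsM m0) (hs0 : Stab U m0)
    (hm : IsM σ) (hs : Stab U σ) (h : Sub U m0 σ χ)
    (hm' : IsM σ') (hs' : Stab U σ') (h' : Sub U m0 σ' χ') (he : χ⁻¹ * σ = χ'⁻¹ * σ') :
    σ = σ' ∧ χ = χ' := by
  have e : σ = σ' := by
    apply Equiv.ext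
    intro v
    rw [inj2_aux hinj hm0 hs0 hm hs h v, inj2_aux hinj hm0 hs0 hm' hs' h' v, he]
  refine ⟨e, ?_⟩
  rw [← e] at he
  exact inv_injective (mul_right_cancel he)

end Pool.Agent.Helper651.SR
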