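import Pool.Agent.Helper651.SRF.Defs

set_option autoImplicit false
open MeasureTheory Set Filter Topology Classical
open scoped ENNReal Nat

namespace Pool.Agent.Helper651.SR

theorem noeven_aux1 {V : Type} (π : Equiv.Perm V) (he : AE π) (r : V) (z : ℤ)
    (hz : (π ^ z) r = r) : Even z := by
  have hn : (π ^ z.natAbs) r = r := by
    rcases Int.natAbs_eq z with h | h
    · rw [h, zpow_natCast] at hz
      exact hz
    · have h2 : (π ^ (-(z.natAbs : ℤ))) r = r := by rw [← h]; exact hz
      rw [zpow_neg, Equiv.Perm.inv_eq_iff_eq] at h2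
      have h3 : (π ^ (z.natAbs : ℤ)) r = r := h2.symm
      rwa [zpow_natCast] at h3
  have hp : Function.IsPeriodicPt π z.natAbs r := by
    rw [Function.IsPeriodicPt, Function.IsFixedPt, Equiv.Perm.iterate_eq_pow]
    exact hn
  have hd := hp.minimalPeriod_dvd
  have : Even z.natAbs := (he r).trans_dvd hd
  exact Int.natAbs_even.1 this

theorem noeven_aux2 {V : Type} (π : Equiv.Perm V) (he : AE π) :
    ∃ c : V → Prop, ∀ v, c (π v) ↔ ¬ c v := by
  have hr : ∀ v : V, ∃ i : ℤ, (π ^ i) (Quotient.out (Quotient.mk (Equiv.Perm.SameCycle.setoid π) v)) = v := by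
    intro v
    exact (Quotient.mk_out (s := Equiv.Perm.SameCycle.setoid π) v : _)
  choose k hk using hr
  refine ⟨fun v => Even (k v), fun v => ?_⟩
  have hq : Quotient.mk (Equiv.Perm.SameCycle.setoid π) (π v) =
      Quotient.mk (Equiv.Perm.SameCycle.setoid π) v :=
    Quotient.sound (s := Equiv.Perm.SameCycle.setoid π) ⟨-1, by simp⟩
  have h1 := hk (π v)
  rw [hq] at h1
  have h2 := hk v
  set r := Quotient.out (Quotient.mk (Equiv.Perm.SameCycle.setoid π) v) with hrdef
  have h3 : (π ^ (k v + 1)) r = π v := by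
    rw [add_comm, zpow_add, zpow_one, Equiv.Perm.mul_apply, h2]
  have h4 : (π ^ (k (π v) - (k v + 1))) r = r := by
    rw [sub_eq_neg_add, zpow_add, zpow_neg, Equiv.Perm.mul_apply, h1, Equiv.Perm.inv_eq_iff_eq]
    exact h3.symm
  have h5 := noeven_aux1 π he r _ h4
  rw [Int.even_sub, Int.even_add_one] at h5
  exact h5

theorem noeven {V : Type} [Fintype V] {U : V × V → ℝ} {π : Equiv.Perm V} (h : SP U π)
    (he : AE π) : ∃ m : V → V, IsM m ∧ Stab U m := by
  obtain ⟨c, hc⟩ := noeven_aux2 π he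
  have hc' : ∀ v, c (π⁻¹ v) ↔ ¬ c v := by
    intro v
    have := hc (π⁻¹ v)
    rw [show π (π⁻¹ v) = v from π.apply_symm_apply v] at this
    tauto
  have hle : ∀ v, U (v, if c v then π v else π⁻¹ v) ≤ U (v, π⁻¹ v) := by
    intro v
    split_ifs
    · exact h.le v
    · exact le_rfl
  refine ⟨fun v => if c v then π v else π⁻¹ v, ?_, ?_⟩
  · intro x
    by_cases hx : c x
    · have h1 : ¬ c (π x) := by rw [hc]; exact not_not.2 hx
      simp only [if_pos hx, if_neg h1]
      exact ⟨π.symm_apply_apply x, h.nofix x⟩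
    · have h1 : c (π⁻¹ x) := by rw [hc']; exact hx
      simp only [if_neg hx, if_pos h1]
      refine ⟨π.apply_symm_apply x, fun h2 => h.nofix x ?_⟩
      conv_lhs => rw [← h2]
      exact π.apply_symm_apply x
  · rintro u w huw ⟨h1, h2⟩
    exact h.nb u w huw ⟨h1.trans_le (hle u), h2.trans_le (hle w)⟩

end Pool.Agent.Helper651.SR
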