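import Pool.Agent.Helper651.SRF.Defs

set_option autoImplicit false
open MeasureTheory Set Filter Topology Classical
open scoped ENNReal Nat

namespace Pool.Agent.Helper651.SR

/-- the matrix of the toggling argument -/
noncomputable def tgM {V : Type} (X : Finset V) (ph : V → V) : Matrix V V ℤ :=
  fun w v => if w = v then 1 else if v ∈ X ∧ w = ph v then -1 else 0

theorem tgM_det {V : Type} [Fintype V] (X : Finset V) (hX : X.Nonempty) (ph : V → V)
    (h : ∀ v ∈ X, ph v ∈ X ∧ ph v ≠ v) : (tgM X ph).det = 0 := by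
  rw [← Matrix.det_transpose, ← Matrix.exists_mulVec_eq_zero_iff]
  refine ⟨fun w => if w ∈ X then 1 else 0, ?_, ?_⟩
  · intro h0
    obtain ⟨v, hv⟩ := hX
    have h1 := congrFun h0 v
    simp only [if_pos hv, Pi.zero_apply] at h1
    exact one_ne_zero h1
  · funext v
    show ∑ w, (tgM X ph).transpose v w * (if w ∈ X then (1 : ℤ) else 0) = 0
    have h1 : ∀ w, (tgM X ph).transpose v w * (if w ∈ X then (1 : ℤ) else 0) =
        (if w = v then (if v ∈ X then (1 : ℤ) else 0) else 0) +
        (if w = ph v then (if v ∈ X then (-1 : ℤ) else 0) else 0) := by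
      intro w
      rw [Matrix.transpose_apply]
      unfold tgM
      by_cases hwv : w = v
      · subst hwv
        by_cases hwX : w ∈ X
        · have h2 : ¬ w = ph w := fun h3 => (h w hwX).2 h3.symm
          rw [if_pos rfl, if_pos rfl, if_neg h2, if_pos hwX]
          norm_num
        · rw [if_pos rfl, if_pos rfl, if_neg hwX]
          by_cases h2 : w = ph w
          · rw [if_pos h2, if_neg hwX]; norm_num
          · rw [if_neg h2]; norm_num
      · rw [if_neg hwv, if_neg hwv]
        by_cases hvX : v ∈ X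
        · by_cases h2 : w = ph v
          · have h3 : w ∈ X := by rw [h2]; exact (h v hvX).1
            rw [if_pos ⟨hvX, h2⟩, if_pos h2, if_pos h3, if_pos hvX]
            norm_num
          · rw [if_neg (fun h3 => h2 h3.2), if_neg h2]
            norm_num
        · rw [if_neg (fun h3 => hvX h3.1), if_neg hvX]
          by_cases h2 : w = ph v
          · rw [if_pos h2]; norm_num
          · rw [if_neg h2]; norm_num
    rw [Finset.sum_congr rfl (fun w _ => h1 w), Finset.sum_add_distrib]
    rw [Finset.sum_ite_eq' Finset.univ v, Finset.sum_ite_eq' Finset.univ (ph v)]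
    rw [if_pos (Finset.mem_univ _), if_pos (Finset.mem_univ _)]
    by_cases hvX : v ∈ X
    · rw [if_pos hvX, if_pos hvX]; norm_num
    · rw [if_neg hvX, if_neg hvX]; norm_num

theorem tgM_prod {V : Type} [Fintype V] (X : Finset V) (ph : V → V) (χ : Equiv.Perm V) :
    ∏ v, tgM X ph (χ v) v =
      if (∀ v, χ v ≠ v → v ∈ X ∧ χ v = ph v) then (-1) ^ χ.support.card else 0 := by
  by_cases hc : ∀ v, χ v ≠ v → v ∈ X ∧ χ v = ph v
  · rw [if_pos hc]
    rw [← Finset.prod_subset (Finset.subset_univ χ.support)]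
    · rw [← Finset.prod_const]
      apply Finset.prod_congr rfl
      intro v hv
      rw [Equiv.Perm.mem_support] at hv
      unfold tgM
      rw [if_neg hv, if_pos (hc v hv)]
    · intro v _ hv
      rw [Equiv.Perm.mem_support, not_not] at hv
      unfold tgM
      rw [if_pos hv]
  · rw [if_neg hc]
    push Not at hc
    obtain ⟨v, hv, hv2⟩ := hc
    apply Finset.prod_eq_zero (Finset.mem_univ v)
    unfold tgM
    rw [if_neg hv, if_neg (fun h3 => hv2 h3.1 h3.2)]

theorem toggle {V : Type} [Fintype V] (X : Finset V) (hX : X.Nonempty) (ph : V → V)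
    (h : ∀ v ∈ X, ph v ∈ X ∧ ph v ≠ v) :
    ∑ χ ∈ Finset.univ.filter (fun χ : Equiv.Perm V => ∀ v, χ v ≠ v → v ∈ X ∧ χ v = ph v),
      (Equiv.Perm.sign χ : ℤ) * (-1) ^ χ.support.card = 0 := by
  have h1 := tgM_det X hX ph h
  rw [Matrix.det_apply'] at h1
  rw [Finset.sum_filter]
  refine Eq.trans ?_ h1
  apply Finset.sum_congr rfl
  intro χ _
  rw [tgM_prod]
  by_cases hc : ∀ v, χ v ≠ v → v ∈ X ∧ χ v = ph v
  · rw [if_pos hc, if_pos hc]
    simp
  · rw [if_neg hc, if_neg hc, mul_zero]

end Pool.Agent.Helper651.SR
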