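import Pool.Agent.Helper651.SRF.Defs

set_option autoImplicit false
open MeasureTheory Set Filter Topology Classical
open scoped ENNReal Nat

namespace Pool.Agent.Helper651.SR

theorem wtval {V : Type} [Fintype V] {σ χ : Equiv.Perm V} (hm : IsM σ)
    (hl : (lg (χ⁻¹ * σ)).card = 2 * χ.support.card) :
    wt (χ⁻¹ * σ) = (Equiv.Perm.sign χ : ℤ) * (-1) ^ χ.support.card := by
  have h2 : σ ^ 2 = 1 := by
    ext v
    rw [pow_two, Equiv.Perm.mul_apply, Equiv.Perm.one_apply]
    exact (hm v).1
  have hct : σ.cycleType = Multiset.replicate (Multiset.card σ.cycleType) 2 := by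
    rw [Multiset.eq_replicate]
    refine ⟨rfl, ?_⟩
    exact (Equiv.Perm.pow_prime_eq_one_iff (p := 2)).1 h2
  have hsupp : σ.support = Finset.univ := by
    ext v
    simp only [Equiv.Perm.mem_support, Finset.mem_univ, iff_true]
    exact (hm v).2
  set k := Multiset.card σ.cycleType with hk
  have hsum : 2 * k = Fintype.card V := by
    have := Equiv.Perm.sum_cycleType σ
    rw [hsupp, Finset.card_univ, hct, Multiset.sum_replicate, smul_eq_mul] at this
    omega
  have hsign : (Equiv.Perm.sign σ : ℤ) = (-1) ^ k := by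
    rw [Equiv.Perm.sign_of_cycleType, Equiv.Perm.sum_cycleType, hsupp, Finset.card_univ, ← hsum, ← hk]
    push_cast
    rw [pow_add, pow_mul]
    norm_num
  have hle : 2 * χ.support.card ≤ 2 * k := by
    rw [← hl, hsum]
    exact Finset.card_le_univ _
  unfold wt
  rw [hl, ← hsum]
  have h3 : (2 * k - 2 * χ.support.card) / 2 = k - χ.support.card := by omega
  rw [h3, Equiv.Perm.sign_mul, Equiv.Perm.sign_inv]
  push_cast
  rw [hsign, mul_assoc]
  congr 1
  obtain ⟨d, hd⟩ : ∃ d, k = χ.support.card + d := ⟨k - χ.support.card, by omega⟩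
  rw [hd, Nat.add_sub_cancel_left, pow_add, mul_assoc, ← pow_add, ← two_mul, pow_mul]
  norm_num

end Pool.Agent.Helper651.SR
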