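import Pool.Agent.Helper651.SRF.Defs
import Pool.Agent.Helper651.SRF.Xy
import Pool.Agent.Helper651.SRF.BestEx
import Pool.Agent.Helper651.SRF.Fwd
import Pool.Agent.Helper651.SRF.Bwd
import Pool.Agent.Helper651.SRF.Inj2
import Pool.Agent.Helper651.SRF.Toggle
import Pool.Agent.Helper651.SRF.Wtval
import Pool.Agent.Helper651.SRF.Noeven

set_option autoImplicit false
open MeasureTheory Set Filter Topology Classical
open scoped ENNReal Nat

namespace Pool.Agent.Helper651.SR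

theorem euler_inner {V : Type} [Fintype V] {U : V × V → ℝ}
    (hinj : ∀ v, Function.Injective (fun w => U (v, w))) {m0 : V → V} (hm0 : IsM m0)
    (hs0 : Stab U m0) (σ : Equiv.Perm V) (hm : IsM σ) (hs : Stab U σ) (hne : ⇑σ ≠ m0) :
    ∑ χ ∈ Finset.univ.filter (fun χ : Equiv.Perm V => Sub U m0 σ χ),
      (Equiv.Perm.sign χ : ℤ) * (-1) ^ χ.support.card = 0 := by
  obtain ⟨X, hmem⟩ : ∃ X : Finset V, ∀ v, v ∈ X ↔ U (v, σ v) < U (v, m0 v) := by
    refine ⟨Finset.univ.filter (fun v => U (v, σ v) < U (v, m0 v)), ?_⟩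
    intro v
    rw [Finset.mem_filter]
    exact ⟨fun h => h.2, fun h => ⟨Finset.mem_univ _, h⟩⟩
  obtain ⟨ph, hph⟩ : ∃ ph : V → V, ∀ v ∈ X, Best U σ v (σ (ph v)) := by
    have h1 : ∀ v, ∃ w, v ∈ X → Best U σ v (σ w) := by
      intro v
      by_cases hv : v ∈ X
      · obtain ⟨c, hc⟩ := best_ex hinj hm hs hm0 hs0 v ((hmem v).mp hv)
        refine ⟨σ c, fun _ => ?_⟩
        rw [(hm c).1]
        exact hc
      · exact ⟨v, fun h => absurd h hv⟩
    choose ph hph using h1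
    exact ⟨ph, fun v hv => hph v hv⟩
  have hXne : X.Nonempty := by
    obtain ⟨v, hv⟩ : ∃ v, σ v ≠ m0 v := by
      by_contra hcon
      apply hne
      funext v
      by_contra h
      exact hcon ⟨v, h⟩
    have hU : U (v, σ v) ≠ U (v, m0 v) := fun h => hv (hinj v h)
    rcases lt_or_gt_of_ne hU with h | h
    · exact ⟨v, (hmem v).mpr h⟩
    · exact ⟨σ v, (hmem _).mpr ((xy hinj hm hs hm0 hs0 v).2 h).1⟩
  have h := toggle X hXne ph (by
    intro v hv
    have hp := best_prop hinj hm hs hm0 hs0 v ((hmem v).mp hv) _ (hph v hv)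
    have e : σ (σ (ph v)) = ph v := (hm (ph v)).1
    obtain ⟨_, _, _, h4, h5⟩ := hp
    rw [e] at h4 h5
    exact ⟨(hmem _).mpr h4, h5⟩)
  rw [← h]
  apply Finset.sum_congr _ (fun _ _ => rfl)
  ext χ
  rw [Finset.mem_filter, Finset.mem_filter]
  apply and_congr_right
  intro _
  constructor
  · intro hsub v hv
    obtain ⟨h1, h2⟩ := hsub v hv
    have hvX : v ∈ X := (hmem v).mpr h1
    refine ⟨hvX, ?_⟩
    have h3 := best_uniq hinj v _ _ h2 (hph v hvX)
    exact σ.injective h3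
  · intro hsub v hv
    obtain ⟨h1, h2⟩ := hsub v hv
    refine ⟨(hmem v).mp h1, ?_⟩
    rw [h2]
    exact hph v h1

theorem euler_one {V : Type} [Fintype V] {U : V × V → ℝ} {m0 : V → V} (σ : Equiv.Perm V)
    (he : ⇑σ = m0) :
    ∑ χ ∈ Finset.univ.filter (fun χ : Equiv.Perm V => Sub U m0 σ χ),
      (Equiv.Perm.sign χ : ℤ) * (-1) ^ χ.support.card = 1 := by
  have h1 : ∀ χ ∈ Finset.univ.filter (fun χ : Equiv.Perm V => Sub U m0 σ χ), χ = 1 := by
    intro χ hχ
    rw [Finset.mem_filter] at hχ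
    apply Equiv.ext
    intro v
    by_contra hv
    have h2 := (hχ.2 v hv).1
    rw [he] at h2
    exact lt_irrefl _ h2
  have h2 : (1 : Equiv.Perm V) ∈ Finset.univ.filter (fun χ : Equiv.Perm V => Sub U m0 σ χ) := by
    rw [Finset.mem_filter]
    refine ⟨Finset.mem_univ _, ?_⟩
    intro v hv
    exact absurd rfl hv
  rw [Finset.sum_eq_single_of_mem 1 h2 (fun χ hχ hne => absurd (h1 χ hχ) hne)]
  simp

theorem euler {V : Type} [Fintype V] {U : V × V → ℝ}
    (hinj : ∀ v, Function.Injective (fun w => U (v, w))) :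
    ∑ π ∈ Finset.univ.filter (fun π : Equiv.Perm V => SP U π ∧ AE π), wt π =
      if (∃ m : V → V, IsM m ∧ Stab U m) then 1 else 0 := by
  by_cases hex : ∃ m : V → V, IsM m ∧ Stab U m
  · rw [if_pos hex]
    obtain ⟨m0, hm0, hs0⟩ := hex
    obtain ⟨σ0, hσ0⟩ : ∃ σ0 : Equiv.Perm V, ⇑σ0 = m0 :=
      ⟨⟨m0, m0, fun x => (hm0 x).1, fun x => (hm0 x).1⟩, rfl⟩
    have hbij : ∑ p ∈ (Finset.univ.filter (fun σ : Equiv.Perm V => IsM σ ∧ Stab U σ)).sigma
        (fun σ => Finset.univ.filter (fun χ : Equiv.Perm V => Sub U m0 σ χ)),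
          (Equiv.Perm.sign p.2 : ℤ) * (-1) ^ p.2.support.card =
        ∑ π ∈ Finset.univ.filter (fun π : Equiv.Perm V => SP U π ∧ AE π), wt π := by
      apply Finset.sum_bij (fun p _ => p.2⁻¹ * p.1)
      · rintro ⟨σ, χ⟩ hp
        rw [Finset.mem_sigma, Finset.mem_filter, Finset.mem_filter] at hp
        rw [Finset.mem_filter]
        have h1 := fwd hinj hp.1.2.1 hp.1.2.2 hm0 hs0 hp.2.2
        exact ⟨Finset.mem_univ _, h1.1, h1.2.1⟩
      · rintro ⟨σ, χ⟩ hp ⟨σ', χ'⟩ hp' he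
        rw [Finset.mem_sigma, Finset.mem_filter, Finset.mem_filter] at hp hp'
        obtain ⟨e1, e2⟩ := inj2 hinj hm0 hs0 hp.1.2.1 hp.1.2.2 hp.2.2 hp'.1.2.1 hp'.1.2.2 hp'.2.2 he
        simp only at e1 e2
        subst e1
        subst e2
        rfl
      · intro π hπ
        rw [Finset.mem_filter] at hπ
        obtain ⟨σ, χ, h1, h2, h3, h4⟩ := bwd hinj hm0 hs0 hπ.2.1
        refine ⟨⟨σ, χ⟩, ?_, h4⟩
        rw [Finset.mem_sigma, Finset.mem_filter, Finset.mem_filter]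
        exact ⟨⟨Finset.mem_univ _, h1, h2⟩, Finset.mem_univ _, h3⟩
      · rintro ⟨σ, χ⟩ hp
        rw [Finset.mem_sigma, Finset.mem_filter, Finset.mem_filter] at hp
        have h1 := fwd hinj hp.1.2.1 hp.1.2.2 hm0 hs0 hp.2.2
        exact (wtval hp.1.2.1 h1.2.2).symm
    rw [← hbij, Finset.sum_sigma]
    have hσ0m : σ0 ∈ Finset.univ.filter (fun σ : Equiv.Perm V => IsM σ ∧ Stab U σ) := by
      rw [Finset.mem_filter, hσ0]
      exact ⟨Finset.mem_univ _, hm0, hs0⟩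
    rw [Finset.sum_eq_single_of_mem σ0 hσ0m]
    · exact euler_one σ0 hσ0
    · intro σ hσ hne
      rw [Finset.mem_filter] at hσ
      apply euler_inner hinj hm0 hs0 σ hσ.2.1 hσ.2.2
      intro h
      apply hne
      apply Equiv.ext
      intro v
      rw [h, hσ0]
  · rw [if_neg hex]
    apply Finset.sum_eq_zero
    intro π hπ
    rw [Finset.mem_filter] at hπ
    exact absurd (noeven hπ.2.1 hπ.2.2) hex

end Pool.Agent.Helper651.SR
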