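import Pool.Agent.Helper651.SRF.Defs

set_option autoImplicit false
open MeasureTheory Set Filter Topology Classical
open scoped ENNReal Nat

namespace Pool.Agent.Helper651.SR

theorem zG_main (f : ℕ → ℝ) (h0 : f 0 = 1)
    (hr : ∀ k : ℕ, 2 * (k + 1) * f (k + 1) = -∑ i ∈ Finset.range k, f i) :
    (∑ i ∈ Finset.range 1, f i = 1) ∧ (∑ i ∈ Finset.range 2, f i = 1) ∧
    ∀ k : ℕ, 2 ≤ k → 0 < ∑ i ∈ Finset.range (k + 1), f i ∧
      (2 * (k:ℝ) - 1) * (∑ i ∈ Finset.range (k + 1), f i) ≤ 2 * k * ∑ i ∈ Finset.range (k + 2), f i ∧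
      (2 * (k:ℝ) + 2) * (∑ i ∈ Finset.range (k + 2), f i) ≤ (2 * k + 1) * ∑ i ∈ Finset.range (k + 1), f i ∧
      (∑ i ∈ Finset.range (k + 1), f i) ^ 2 * (k + 1) ≤ 2 ∧
      9 / 16 ≤ (∑ i ∈ Finset.range (k + 1), f i) ^ 2 * (k - 1) := by
  set G : ℕ → ℝ := fun k => ∑ i ∈ Finset.range (k + 1), f i with hG
  have hf1 : f 1 = 0 := by
    have := hr 0
    simp at this
    exact this
  have hG0 : G 0 = 1 := by simp [hG, h0]
  have hG1 : G 1 = 1 := by simp [hG, Finset.sum_range_succ, h0, hf1]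
  have hrec : ∀ k : ℕ, 2 * ((k:ℝ) + 2) * G (k + 2) = 2 * ((k:ℝ) + 2) * G (k + 1) - G k := by
    intro k
    have h1 := hr (k + 1)
    have h2 : G (k + 2) = G (k + 1) + f (k + 2) := by
      simp only [hG]
      rw [Finset.sum_range_succ f (k + 1 + 1)]
    have h3 : (∑ i ∈ Finset.range (k + 1), f i) = G k := rfl
    rw [h3] at h1
    push_cast at h1
    rw [h2]
    have h4 : (2 * ((k:ℝ) + 1 + 1) * f (k + 1 + 1)) = 2 * ((k:ℝ) + 2) * f (k + 2) := by ring_nf
    rw [h4] at h1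
    linarith
  have hG2 : G 2 = 3 / 4 := by
    have := hrec 0
    rw [hG0] at this
    norm_num [hG1] at this
    linarith
  have hG3 : G 3 = 7 / 12 := by
    have := hrec 1
    rw [hG1] at this
    norm_num [hG2] at this
    linarith
  refine ⟨hG0, hG1, ?_⟩
  intro k hk
  change 0 < G k ∧ (2 * (k:ℝ) - 1) * G k ≤ 2 * k * G (k + 1) ∧
    (2 * (k:ℝ) + 2) * G (k + 1) ≤ (2 * k + 1) * G k ∧ G k ^ 2 * (k + 1) ≤ 2 ∧
    9 / 16 ≤ G k ^ 2 * (k - 1)
  induction k, hk using Nat.le_induction with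
  | base =>
    rw [hG2, show G (2 + 1) = 7 / 12 from hG3]
    norm_num
  | succ k hk ih =>
    obtain ⟨i1, i2, i3, i4, i5⟩ := ih
    have hK : (2:ℝ) ≤ (k:ℝ) := by exact_mod_cast hk
    have hr' := hrec k
    have hy : 0 < G (k + 1) := by
      have : 0 < 2 * (k:ℝ) * G (k + 1) := lt_of_lt_of_le (mul_pos (by linarith) i1) i2
      exact (mul_pos_iff_of_pos_left (by linarith)).1 this
    have e : G (k + 1 + 1) = G (k + 2) := rfl
    rw [e]
    push_cast
    set x := G k with hx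
    set y := G (k + 1) with hydef
    set z := G (k + 2) with hz
    set K : ℝ := (k:ℝ) with hKdef
    refine ⟨hy, ?_, ?_, ?_, ?_⟩
    · -- (2(K+1)-1) y ≤ 2 (K+1) z
      have h1 : (K + 1) * x ≤ (K + 2) * y := by
        have h2 : (K + 1) * (2 * K) * x ≤ (K + 2) * (2 * K - 1) * x := by
          apply mul_le_mul_of_nonneg_right _ i1.le
          nlinarith
        have h3 : (K + 2) * ((2 * K - 1) * x) ≤ (K + 2) * (2 * K * y) :=
          mul_le_mul_of_nonneg_left i2 (by linarith)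
        have h4 : 2 * K * ((K + 1) * x) ≤ 2 * K * ((K + 2) * y) := by nlinarith
        exact le_of_mul_le_mul_left h4 (by linarith)
      have h5 : (K + 2) * ((2 * (K + 1) - 1) * y) ≤ (K + 2) * (2 * (K + 1) * z) := by
        have h6 : (K + 2) * (2 * (K + 1) * z) = (K + 1) * (2 * (K + 2) * z) := by ring
        rw [h6, hr']
        nlinarith
      exact le_of_mul_le_mul_left h5 (by linarith)
    · -- (2(K+1)+2) z ≤ (2(K+1)+1) y
      have h1 : y ≤ x := by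
        have : (2 * K + 2) * y ≤ (2 * K + 2) * x := by linarith
        exact le_of_mul_le_mul_left this (by linarith)
      have h2 : (2 * (K + 1) + 2) * z = 2 * (K + 2) * z := by ring
      rw [h2, hr']
      linarith
    · have h1 : ((2 * K + 2) * y) ^ 2 ≤ ((2 * K + 1) * x) ^ 2 :=
        pow_le_pow_left₀ (mul_nonneg (by linarith) hy.le) i3 2
      have h2 : (2 * K + 1) ^ 2 * (K + 2) ≤ (2 * K + 2) ^ 2 * (K + 1) := by nlinarith
      have h3 : (2 * K + 2) ^ 2 * (y ^ 2 * (K + 1 + 1)) ≤ (2 * K + 2) ^ 2 * 2 := by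
        calc (2 * K + 2) ^ 2 * (y ^ 2 * (K + 1 + 1)) = ((2 * K + 2) * y) ^ 2 * (K + 2) := by ring
          _ ≤ ((2 * K + 1) * x) ^ 2 * (K + 2) :=
              mul_le_mul_of_nonneg_right h1 (by linarith)
          _ = (2 * K + 1) ^ 2 * (K + 2) * x ^ 2 := by ring
          _ ≤ (2 * K + 2) ^ 2 * (K + 1) * x ^ 2 := mul_le_mul_of_nonneg_right h2 (sq_nonneg _)
          _ = (2 * K + 2) ^ 2 * (x ^ 2 * (K + 1)) := by ring
          _ ≤ (2 * K + 2) ^ 2 * 2 := mul_le_mul_of_nonneg_left i4 (sq_nonneg _)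
      exact le_of_mul_le_mul_left h3 (by nlinarith)
    · have h1 : ((2 * K - 1) * x) ^ 2 ≤ (2 * K * y) ^ 2 :=
        pow_le_pow_left₀ (mul_nonneg (by linarith) i1.le) i2 2
      have h3 : (2 * K) ^ 2 * (9 / 16) ≤ (2 * K) ^ 2 * (y ^ 2 * (K + 1 - 1)) := by
        calc (2 * K) ^ 2 * (9 / 16) ≤ (2 * K) ^ 2 * (x ^ 2 * (K - 1)) :=
              mul_le_mul_of_nonneg_left i5 (sq_nonneg _)
          _ = (4 * K * (K - 1)) * (K * x ^ 2) := by ring
          _ ≤ (2 * K - 1) ^ 2 * (K * x ^ 2) :=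
              mul_le_mul_of_nonneg_right (by nlinarith) (mul_nonneg (by linarith) (sq_nonneg _))
          _ = ((2 * K - 1) * x) ^ 2 * K := by ring
          _ ≤ (2 * K * y) ^ 2 * K := mul_le_mul_of_nonneg_right h1 (by linarith)
          _ = (2 * K) ^ 2 * (y ^ 2 * (K + 1 - 1)) := by ring
      exact le_of_mul_le_mul_left h3 (by positivity)

theorem G_bd (f : ℕ → ℝ) (h0 : f 0 = 1)
    (hr : ∀ k : ℕ, 2 * (k + 1) * f (k + 1) = -∑ i ∈ Finset.range k, f i) :
    (∀ k : ℕ, 1 / (2 * √(k + 1)) ≤ ∑ i ∈ Finset.range (k + 1), f i) ∧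
    (∀ k : ℕ, ∑ i ∈ Finset.range (k + 1), f i ≤ 3 / √(k + 1)) := by
  obtain ⟨g0, g1, hm⟩ := zG_main f h0 hr
  have key : ∀ k : ℕ, 0 < ∑ i ∈ Finset.range (k + 1), f i ∧
      (∑ i ∈ Finset.range (k + 1), f i) ^ 2 * (k + 1) ≤ 2 ∧
      1 / 4 ≤ (∑ i ∈ Finset.range (k + 1), f i) ^ 2 * (k + 1) := by
    intro k
    rcases Nat.lt_or_ge k 2 with h | h
    · interval_cases k
      · rw [show (0:ℕ) + 1 = 1 from rfl, g0]; norm_num
      · rw [show (1:ℕ) + 1 = 2 from rfl, g1]; norm_num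
    · obtain ⟨i1, -, -, i4, i5⟩ := hm k h
      refine ⟨i1, i4, ?_⟩
      have : 0 ≤ (∑ i ∈ Finset.range (k + 1), f i) ^ 2 := sq_nonneg _
      nlinarith
  constructor
  · intro k
    obtain ⟨i1, i2, i3⟩ := key k
    have hs : 0 < √((k:ℝ) + 1) := Real.sqrt_pos.2 (by positivity)
    have hs2 : √((k:ℝ) + 1) ^ 2 = (k:ℝ) + 1 := Real.sq_sqrt (by positivity)
    rw [div_le_iff₀ (by positivity)]
    set G := ∑ i ∈ Finset.range (k + 1), f i with hG
    have h1 : (1 / 2) ^ 2 ≤ (G * √((k:ℝ) + 1)) ^ 2 := by rw [mul_pow, hs2]; linarith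
    have h2 : (1:ℝ) / 2 ≤ G * √((k:ℝ) + 1) := le_of_sq_le_sq h1 (mul_nonneg i1.le hs.le)
    linarith
  · intro k
    obtain ⟨i1, i2, i3⟩ := key k
    have hs : 0 < √((k:ℝ) + 1) := Real.sqrt_pos.2 (by positivity)
    have hs2 : √((k:ℝ) + 1) ^ 2 = (k:ℝ) + 1 := Real.sq_sqrt (by positivity)
    rw [le_div_iff₀ hs]
    set G := ∑ i ∈ Finset.range (k + 1), f i with hG
    have h1 : (G * √((k:ℝ) + 1)) ^ 2 ≤ 3 ^ 2 := by rw [mul_pow, hs2]; linarith
    exact le_of_sq_le_sq h1 (by norm_num)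


theorem f_bd (f : ℕ → ℝ) (h0 : f 0 = 1)
    (hr : ∀ k : ℕ, 2 * (k + 1) * f (k + 1) = -∑ i ∈ Finset.range k, f i) (k : ℕ) :
    |f k| ≤ 10 / ((k + 1) * √(k + 1)) := by
  obtain ⟨-, hub⟩ := G_bd f h0 hr
  obtain ⟨g0, g1, hm⟩ := zG_main f h0 hr
  rcases k with _ | _ | j
  · rw [h0]; norm_num
  · have : f (0 + 1) = 0 := by
      have := hr 0
      simp at this
      exact this
    rw [this, abs_zero]; positivity
  · have h1 := hr (j + 1)
    have h2 := hub j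
    have hpos : 0 < ∑ i ∈ Finset.range (j + 1), f i := by
      rcases Nat.lt_or_ge j 2 with h | h
      · interval_cases j
        · rw [show (0:ℕ) + 1 = 1 from rfl, g0]; norm_num
        · rw [show (1:ℕ) + 1 = 2 from rfl, g1]; norm_num
      · exact (hm j h).1
    set G := ∑ i ∈ Finset.range (j + 1), f i with hG
    push_cast at h1 ⊢
    have h3 : f (j + 1 + 1) = -(G / (2 * ((j:ℝ) + 2))) := by
      field_simp
      linarith
    rw [h3, abs_neg, abs_of_pos (by positivity)]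
    have hs1 : 0 < √((j:ℝ) + 1) := Real.sqrt_pos.2 (by positivity)
    have hs3 : 0 < √((j:ℝ) + 1 + 1 + 1) := Real.sqrt_pos.2 (by positivity)
    have hle : √((j:ℝ) + 1 + 1 + 1) ≤ 2 * √((j:ℝ) + 1) := by
      have : (2:ℝ) * √((j:ℝ) + 1) = √(4 * ((j:ℝ) + 1)) := by
        rw [Real.sqrt_mul (by norm_num), show (4:ℝ) = 2 ^ 2 by norm_num,
          Real.sqrt_sq (by norm_num)]
      rw [this]
      apply Real.sqrt_le_sqrt
      have : (0:ℝ) ≤ j := Nat.cast_nonneg j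
      linarith
    have h4 : G * √((j:ℝ) + 1) ≤ 3 := by rwa [le_div_iff₀ hs1] at h2
    rw [div_le_div_iff₀ (by positivity) (by positivity)]
    have hj : (0:ℝ) ≤ j := Nat.cast_nonneg j
    calc G * (((j:ℝ) + 1 + 1 + 1) * √((j:ℝ) + 1 + 1 + 1))
        ≤ G * (((j:ℝ) + 1 + 1 + 1) * (2 * √((j:ℝ) + 1))) := by
          apply mul_le_mul_of_nonneg_left _ hpos.le
          apply mul_le_mul_of_nonneg_left hle (by positivity)
      _ = (G * √((j:ℝ) + 1)) * (2 * ((j:ℝ) + 3)) := by ring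
      _ ≤ 3 * (2 * ((j:ℝ) + 3)) := mul_le_mul_of_nonneg_right h4 (by positivity)
      _ ≤ 10 * (2 * ((j:ℝ) + 2)) := by linarith


theorem f1_bd (f : ℕ → ℝ) (h0 : f 0 = 1)
    (hr : ∀ k : ℕ, 2 * (k + 1) * f (k + 1) = ∑ i ∈ Finset.range k, f i) (k : ℕ) :
    0 ≤ f k ∧ f k ≤ 1 := by
  induction k using Nat.strong_induction_on with
  | _ k ih =>
    rcases k with _ | j
    · rw [h0]; norm_num
    · have h1 := hr j
      have h2 : 0 ≤ ∑ i ∈ Finset.range j, f i :=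
        Finset.sum_nonneg fun i hi => (ih i (by rw [Finset.mem_range] at hi; omega)).1
      have h3 : ∑ i ∈ Finset.range j, f i ≤ j := by
        calc ∑ i ∈ Finset.range j, f i ≤ ∑ i ∈ Finset.range j, (1:ℝ) :=
              Finset.sum_le_sum fun i hi => (ih i (by rw [Finset.mem_range] at hi; omega)).2
          _ = j := by simp
      have hj : (0:ℝ) < 2 * ((j:ℝ) + 1) := by positivity
      have h4 : f (j + 1) = (∑ i ∈ Finset.range j, f i) / (2 * ((j:ℝ) + 1)) := by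
        rw [eq_div_iff hj.ne', mul_comm]; exact h1
      rw [h4]
      refine ⟨div_nonneg h2 hj.le, ?_⟩
      rw [div_le_one hj]
      have : (0:ℝ) ≤ j := Nat.cast_nonneg j
      linarith

end Pool.Agent.Helper651.SR
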