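import Pool.Agent.Helper651.SRF.Defs

set_option autoImplicit false
open MeasureTheory Set Filter Topology Classical
open scoped ENNReal Nat

namespace Pool.Agent.Helper651.SR

theorem aux_wp_erase (a : ℝ) (μ : Multiset ℕ) (j : ℕ) (hj : j ∈ μ) (hj0 : 0 < j) :
    (j : ℝ) * (μ.count j : ℝ) * wp a μ = a / 2 * wp a (μ.erase j) := by
  have hjr : (j : ℝ) ≠ 0 := by exact_mod_cast hj0.ne'
  have hc : 0 < μ.count j := Multiset.count_pos.2 hj
  obtain ⟨c, hc'⟩ : ∃ c, μ.count j = c + 1 := ⟨μ.count j - 1, by omega⟩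
  have hjf : j ∈ μ.toFinset := Multiset.mem_toFinset.2 hj
  have h1 : wp a (μ.erase j) = ∏ i ∈ μ.toFinset,
      (a / (2 * i)) ^ ((μ.erase j).count i) / (((μ.erase j).count i).factorial : ℝ) := by
    unfold wp
    apply Finset.prod_subset
    · intro i hi
      rw [Multiset.mem_toFinset] at hi ⊢
      exact Multiset.mem_of_mem_erase hi
    · intro i _ hi
      rw [Multiset.mem_toFinset] at hi
      rw [Multiset.count_eq_zero_of_notMem hi]
      simp
  rw [h1]
  unfold wp
  rw [← Finset.mul_prod_erase _ _ hjf, ← Finset.mul_prod_erase _ _ hjf]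
  have h2 : ∏ i ∈ μ.toFinset.erase j,
      (a / (2 * i)) ^ ((μ.erase j).count i) / (((μ.erase j).count i).factorial : ℝ) =
      ∏ i ∈ μ.toFinset.erase j, (a / (2 * i)) ^ (μ.count i) / ((μ.count i).factorial : ℝ) := by
    refine Finset.prod_congr rfl ?_
    intro i hi
    rw [Multiset.count_erase_of_ne (Finset.ne_of_mem_erase hi)]
  rw [h2, Multiset.count_erase_self, hc', Nat.add_sub_cancel, Nat.factorial_succ]
  set R : ℝ := ∏ i ∈ μ.toFinset.erase j, (a / (2 * i)) ^ (μ.count i) / ((μ.count i).factorial : ℝ)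
  have hf : (c.factorial : ℝ) ≠ 0 := by exact_mod_cast c.factorial_ne_zero
  have hc1 : (c : ℝ) + 1 ≠ 0 := by positivity
  push_cast
  rw [pow_succ]
  field_simp

theorem ff_zero (a : ℝ) : ff a 0 = 1 := by
  unfold ff
  rw [Finset.sum_filter, Finset.univ_unique, Finset.sum_singleton]
  have h : (default : Nat.Partition 0).parts = 0 := by
    have := (default : Nat.Partition 0).parts_sum
    rw [Multiset.eq_zero_iff_forall_notMem]
    intro i hi
    have h1 := (default : Nat.Partition 0).parts_pos hi
    have h2 := Multiset.single_le_sum (fun _ _ => Nat.zero_le _) i hi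
    omega
  rw [h]
  simp [wp]

theorem ff_rec (a : ℝ) (k : ℕ) :
    2 * (k + 1) * ff a (k + 1) = a * ∑ i ∈ Finset.range k, ff a i := by
  have h1 : ((k : ℝ) + 1) * ff a (k + 1) = ∑ p ∈ (Finset.univ :
      Finset (Nat.Partition (k + 1))).filter (fun p => ∀ i ∈ p.parts, 2 ≤ i),
      ∑ j ∈ p.parts.toFinset, a / 2 * wp a (p.parts.erase j) := by
    unfold ff
    rw [Finset.mul_sum]
    refine Finset.sum_congr rfl ?_
    intro p hp
    rw [Finset.mem_filter] at hp
    have h2 : ((k : ℝ) + 1) = ∑ j ∈ p.parts.toFinset, (j : ℝ) * (p.parts.count j : ℝ) := by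
      have h3 := p.parts_sum
      rw [Finset.sum_multiset_count] at h3
      have h4 : (((k + 1 : ℕ)) : ℝ) = ((∑ m ∈ p.parts.toFinset, p.parts.count m • m : ℕ) : ℝ) := by
        rw [h3]
      push_cast at h4
      rw [h4]
      refine Finset.sum_congr rfl fun j _ => ?_
      simp [mul_comm]
    rw [h2, Finset.sum_mul]
    refine Finset.sum_congr rfl ?_
    intro j hj
    rw [Multiset.mem_toFinset] at hj
    exact aux_wp_erase a _ j hj (by have := hp.2 j hj; omega)
  have h2 : (∑ p ∈ (Finset.univ :
      Finset (Nat.Partition (k + 1))).filter (fun p => ∀ i ∈ p.parts, 2 ≤ i),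
      ∑ j ∈ p.parts.toFinset, a / 2 * wp a (p.parts.erase j)) =
      ∑ i ∈ Finset.range k, ∑ q ∈ (Finset.univ :
      Finset (Nat.Partition i)).filter (fun p => ∀ i ∈ p.parts, 2 ≤ i), a / 2 * wp a q.parts := by
    rw [Finset.sum_sigma', Finset.sum_sigma']
    symm
    refine Finset.sum_bij (fun (y : (i : ℕ) × Nat.Partition i) hy =>
      (⟨⟨(k + 1 - y.1) ::ₘ y.2.parts, ?_, ?_⟩, k + 1 - y.1⟩ :
        (_ : Nat.Partition (k + 1)) × ℕ)) ?_ ?_ ?_ ?_
    · intro i hi
      rw [Finset.mem_sigma, Finset.mem_range] at hy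
      rcases Multiset.mem_cons.1 hi with h | h
      · have := hy.1
        omega
      · exact y.2.parts_pos h
    · rw [Finset.mem_sigma, Finset.mem_range] at hy
      rw [Multiset.sum_cons, y.2.parts_sum]
      have := hy.1
      omega
    · intro y hy
      rw [Finset.mem_sigma, Finset.mem_range, Finset.mem_filter] at hy
      rw [Finset.mem_sigma, Finset.mem_filter, Multiset.mem_toFinset]
      refine ⟨⟨Finset.mem_univ _, ?_⟩, Multiset.mem_cons_self _ _⟩
      intro i hi
      rcases Multiset.mem_cons.1 hi with h | h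
      · have := hy.1
        omega
      · exact hy.2.2 i h
    · rintro ⟨i, q⟩ hy ⟨i', q'⟩ hy' h
      rw [Finset.mem_sigma, Finset.mem_range] at hy hy'
      have hi := hy.1
      have hi' := hy'.1
      simp only [Sigma.mk.injEq, heq_eq_eq, Nat.Partition.mk.injEq] at h
      simp only at hi hi'
      have hii : i = i' := by omega
      subst hii
      have hq := (Multiset.cons_inj_right _).1 h.1
      have : q = q' := Nat.Partition.ext hq
      rw [this]
    · rintro ⟨p, j⟩ hp
      rw [Finset.mem_sigma, Finset.mem_filter, Multiset.mem_toFinset] at hp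
      have hpj : j ∈ p.parts := hp.2
      have hp2 : ∀ i ∈ p.parts, 2 ≤ i := hp.1.2
      have hj2 := hp2 j hpj
      have hse : j + (p.parts.erase j).sum = k + 1 := by
        rw [Multiset.sum_erase hpj, p.parts_sum]
      refine ⟨⟨k + 1 - j, ⟨p.parts.erase j, ?_, ?_⟩⟩, ?_, ?_⟩
      · intro i hi
        exact p.parts_pos (Multiset.mem_of_mem_erase hi)
      · omega
      · rw [Finset.mem_sigma, Finset.mem_range, Finset.mem_filter]
        refine ⟨by simp only; omega, Finset.mem_univ _, ?_⟩
        intro i hi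
        exact hp2 i (Multiset.mem_of_mem_erase hi)
      · have hjj : k + 1 - (k + 1 - j) = j := by omega
        have : (k + 1 - (k + 1 - j)) ::ₘ p.parts.erase j = p.parts := by
          rw [hjj, Multiset.cons_erase hpj]
        simp only [Sigma.mk.injEq, heq_eq_eq]
        refine ⟨Nat.Partition.ext this, hjj⟩
    · intro y hy
      simp only
      rw [Multiset.erase_cons_head]
  have h3 : ∀ i, (∑ q ∈ (Finset.univ :
      Finset (Nat.Partition i)).filter (fun p => ∀ i ∈ p.parts, 2 ≤ i), a / 2 * wp a q.parts) =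
      a / 2 * ff a i := by
    intro i
    unfold ff
    rw [Finset.mul_sum]
  simp only [h3] at h2
  rw [h2, ← Finset.mul_sum] at h1
  rw [mul_assoc, h1]
  ring

end Pool.Agent.Helper651.SR
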