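import Pool.Agent.Helper651.SRF.Defs
import Pool.Agent.Helper651.SRF.FBd
import Pool.Agent.Helper651.SRF.RrBd

set_option autoImplicit false
open MeasureTheory Set Filter Topology Classical
open scoped ENNReal Nat

namespace Pool.Agent.Helper651.SR

theorem main_sum_abel (f r : ℕ → ℝ) (m : ℕ) :
    ∑ k ∈ Finset.range m, f k * r k
      = ∑ k ∈ Finset.range m, (∑ i ∈ Finset.range (k + 1), f i) * (r k - r (k + 1))
        + (∑ i ∈ Finset.range m, f i) * r m := by
  induction m with
  | zero => simp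
  | succ m ih =>
    rw [Finset.sum_range_succ, ih, Finset.sum_range_succ
      (fun k => (∑ i ∈ Finset.range (k + 1), f i) * (r k - r (k + 1))), Finset.sum_range_succ f m]
    ring

theorem main_sum_zero (H : ℕ) : rr H (H + 1) = 0 := by
  unfold rr
  rw [Finset.prod_range_succ]
  have : ((2 * (H:ℝ) - 2 * (H:ℝ)) / (2 * (H:ℝ) + 1 + 2 * (H:ℝ))) = 0 := by
    rw [sub_self, zero_div]
  rw [this, mul_zero]

theorem main_sum (f : ℕ → ℝ) (h0 : f 0 = 1)
    (hr : ∀ k : ℕ, 2 * (k + 1) * f (k + 1) = -∑ i ∈ Finset.range k, f i) (H : ℕ) (hH : 1 ≤ H) :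
    1 / 10 * (H : ℝ) ^ (-(1 / 4 : ℝ)) ≤ ∑ k ∈ Finset.range (H + 1), f k * rr H k ∧
      ∑ k ∈ Finset.range (H + 1), f k * rr H k ≤ 30 * (H : ℝ) ^ (-(1 / 4 : ℝ)) := by
  obtain ⟨hlow, hup⟩ := G_bd f h0 hr
  have hH1 : (1:ℝ) ≤ H := by exact_mod_cast hH
  have hH0 : (0:ℝ) < H := by linarith
  set q : ℝ := (H : ℝ) ^ (1 / 4 : ℝ) with hq
  set s : ℝ := √(H : ℝ) with hs
  have hq1 : 1 ≤ q := Real.one_le_rpow hH1 (by norm_num)
  have hq0 : 0 < q := by linarith
  have hqs : q * q = s := by
    rw [hq, hs, ← Real.rpow_add hH0, Real.sqrt_eq_rpow]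
    norm_num
  have hss : s * s = H := Real.mul_self_sqrt hH0.le
  have hs1 : 1 ≤ s := by
    rw [← hqs]
    nlinarith
  have hneg : (H : ℝ) ^ (-(1 / 4 : ℝ)) = 1 / q := by
    rw [Real.rpow_neg hH0.le, ← hq, one_div]
  rw [hneg]
  have hr0 : rr H 0 = 1 := by
    unfold rr
    simp
  have hrH : rr H (H + 1) = 0 := main_sum_zero H
  -- Abel summation
  have habel : ∑ k ∈ Finset.range (H + 1), f k * rr H k
      = ∑ k ∈ Finset.range (H + 1), (∑ i ∈ Finset.range (k + 1), f i) * (rr H k - rr H (k + 1)) := by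
    rw [main_sum_abel f (rr H) (H + 1), hrH, mul_zero, add_zero]
  rw [habel]
  set T : ℕ → ℝ := fun k => (∑ i ∈ Finset.range (k + 1), f i) * (rr H k - rr H (k + 1)) with hT
  have hG0 : ∀ k : ℕ, 0 ≤ ∑ i ∈ Finset.range (k + 1), f i := fun k =>
    le_trans (by positivity) (hlow k)
  have hstep0 : ∀ k ∈ Finset.range (H + 1), 0 ≤ rr H k - rr H (k + 1) := by
    intro k hk
    exact (rr_step H k hH (by have := Finset.mem_range.1 hk; omega)).1
  have hT0 : ∀ k ∈ Finset.range (H + 1), 0 ≤ T k := fun k hk => mul_nonneg (hG0 k) (hstep0 k hk)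
  constructor
  · -- lower bound
    have key : ∀ K : ℕ, 1 ≤ K → K ≤ H + 1 → (K : ℝ) ≤ 4 * s → rr H K ≤ 1 / 4 →
        1 / 10 * (1 / q) ≤ ∑ k ∈ Finset.range (H + 1), T k := by
      intro K hK1 hKH hK4 hrK
      have hKpos : (0:ℝ) < K := by exact_mod_cast hK1
      have hsub : Finset.range K ⊆ Finset.range (H + 1) := Finset.range_subset_range.2 hKH
      have h1 : ∑ k ∈ Finset.range K, T k ≤ ∑ k ∈ Finset.range (H + 1), T k :=
        Finset.sum_le_sum_of_subset_of_nonneg hsub fun k hk _ => hT0 k hk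
      refine le_trans ?_ h1
      have h2 : ∑ k ∈ Finset.range K, 1 / (2 * √(K:ℝ)) * (rr H k - rr H (k + 1))
          ≤ ∑ k ∈ Finset.range K, T k := by
        apply Finset.sum_le_sum
        intro k hk
        apply mul_le_mul_of_nonneg_right _ (hstep0 k (hsub hk))
        refine le_trans ?_ (hlow k)
        have hk1 : ((k:ℝ) + 1) ≤ K := by exact_mod_cast Finset.mem_range.1 hk
        apply one_div_le_one_div_of_le (by positivity)
        have := Real.sqrt_le_sqrt hk1
        linarith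
      refine le_trans ?_ h2
      rw [← Finset.mul_sum, Finset.sum_range_sub', hr0]
      have hsq : √(K:ℝ) ≤ 2 * q := by
        rw [Real.sqrt_le_left (by linarith)]
        nlinarith
      have hsq0 : 0 < √(K:ℝ) := Real.sqrt_pos.2 hKpos
      have h3 : 1 / (4 * q) ≤ 1 / (2 * √(K:ℝ)) :=
        one_div_le_one_div_of_le (by positivity) (by linarith)
      have h4 : 3 / 4 ≤ 1 - rr H K := by linarith
      have h5 : 1 / (4 * q) * (3 / 4) ≤ 1 / (2 * √(K:ℝ)) * (1 - rr H K) :=
        mul_le_mul h3 h4 (by norm_num) (by positivity)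
      refine le_trans ?_ h5
      have h6 : 1 / (4 * q) = 1 / 4 * (1 / q) := by
        rw [one_div, one_div, mul_inv]
        ring
      rw [h6]
      have h7 : 0 < 1 / q := by positivity
      nlinarith
    have hceil1 : 3 * s ≤ (⌈3 * s⌉₊ : ℝ) := Nat.le_ceil _
    have hceil2 : (⌈3 * s⌉₊ : ℝ) < 3 * s + 1 := Nat.ceil_lt_add_one (by linarith)
    have hK1 : 1 ≤ ⌈3 * s⌉₊ := by
      rw [Nat.one_le_ceil_iff]
      linarith
    by_cases hK : ⌈3 * s⌉₊ ≤ H
    · refine key ⌈3 * s⌉₊ hK1 (by omega) (by linarith) ?_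
      refine (rr_bd H _ hH hK).2.trans ?_
      have h1 : -((⌈3 * s⌉₊ : ℝ)) ^ 2 / (5 * H) ≤ -(9 / 5) := by
        rw [neg_div, neg_le_neg_iff, le_div_iff₀ (by positivity)]
        nlinarith
      refine (Real.exp_le_exp.2 h1).trans ?_
      rw [Real.exp_neg]
      have h2 : (4:ℝ) ≤ Real.exp (9 / 5) := by
        have h3 : (1:ℝ) + 9 / 5 + (9 / 5) ^ 2 / 2 ≤ Real.exp (9 / 5) :=
          Real.quadratic_le_exp_of_nonneg (by norm_num)
        refine le_trans ?_ h3
        norm_num
      rw [one_div]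
      exact inv_anti₀ (by norm_num) h2
    · refine key (H + 1) (by omega) le_rfl ?_ ?_
      · have h1 : H + 1 ≤ ⌈3 * s⌉₊ := by omega
        have h2 : ((H + 1 : ℕ) : ℝ) ≤ (⌈3 * s⌉₊ : ℝ) := by exact_mod_cast h1
        linarith
      · rw [hrH]
        norm_num
  · -- upper bound
    set K : ℕ := ⌈s⌉₊ with hK
    have hceil1 : s ≤ (K : ℝ) := Nat.le_ceil _
    have hceil2 : (K : ℝ) < s + 1 := Nat.ceil_lt_add_one (by linarith)
    have hKH : K ≤ H := by
      rw [hK, Nat.ceil_le]
      nlinarith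
    have hK0 : (0:ℝ) < K := by linarith
    have hsplit : ∑ k ∈ Finset.range (H + 1), T k
        = ∑ k ∈ Finset.range K, T k + ∑ k ∈ Finset.Ico K (H + 1), T k := by
      rw [Finset.range_eq_Ico, Finset.range_eq_Ico,
        Finset.sum_Ico_consecutive T (Nat.zero_le K) (by omega)]
    have h1 : ∑ k ∈ Finset.range K, T k ≤ 18 * (1 / q) := by
      have hterm : ∀ k ∈ Finset.range K, T k ≤ 6 / H * √(K:ℝ) := by
        intro k hk
        have hkK := Finset.mem_range.1 hk
        have hstep := rr_step H k hH (by omega)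
        have hk1 : ((k:ℝ) + 1) ≤ K := by exact_mod_cast hkK
        have hkpos : (0:ℝ) < (k:ℝ) + 1 := by positivity
        have hsk : 0 < √((k:ℝ) + 1) := Real.sqrt_pos.2 hkpos
        have h2 : T k ≤ 3 / √((k:ℝ) + 1) * ((4 * k + 1) / (2 * H)) := by
          apply mul_le_mul (hup k) hstep.2 hstep.1 (by positivity)
        refine h2.trans ?_
        have h3 : 3 / √((k:ℝ) + 1) * ((4 * k + 1) / (2 * H))
            ≤ 3 / √((k:ℝ) + 1) * ((4 * (k + 1)) / (2 * H)) := by
          apply mul_le_mul_of_nonneg_left _ (by positivity)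
          apply div_le_div_of_nonneg_right _ (by positivity)
          linarith
        refine h3.trans ?_
        have h4 : 3 / √((k:ℝ) + 1) * ((4 * (k + 1)) / (2 * H)) = 6 / H * √((k:ℝ) + 1) := by
          have h5 : (k:ℝ) + 1 = √((k:ℝ) + 1) * √((k:ℝ) + 1) := (Real.mul_self_sqrt hkpos.le).symm
          have h6 : 4 * ((k:ℝ) + 1) = 4 * (√((k:ℝ) + 1) * √((k:ℝ) + 1)) := by rw [← h5]
          rw [h6]
          field_simp
          ring
        rw [h4]
        exact mul_le_mul_of_nonneg_left (Real.sqrt_le_sqrt hk1) (by positivity)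
      have h2 := Finset.sum_le_sum hterm
      rw [Finset.sum_const, Finset.card_range, nsmul_eq_mul] at h2
      refine h2.trans ?_
      have hsq : √(K:ℝ) ≤ 3 / 2 * q := by
        rw [Real.sqrt_le_left (by positivity)]
        nlinarith
      have hK2 : (K:ℝ) ≤ 2 * s := by linarith
      have h3 : (K:ℝ) * (6 / H * √(K:ℝ)) ≤ (2 * s) * (6 / H * (3 / 2 * q)) := by
        apply mul_le_mul hK2 _ (by positivity) (by positivity)
        exact mul_le_mul_of_nonneg_left hsq (by positivity)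
      refine h3.trans (le_of_eq ?_)
      have h4 : (H:ℝ) = q * q * (q * q) := by rw [hqs, hss]
      have h5 : s = q * q := hqs.symm
      rw [h4, h5]
      field_simp
      ring
    have h2 : ∑ k ∈ Finset.Ico K (H + 1), T k ≤ 3 * (1 / q) := by
      have hterm : ∀ k ∈ Finset.Ico K (H + 1), T k ≤ 3 / q * (rr H k - rr H (k + 1)) := by
        intro k hk
        obtain ⟨hk1, hk2⟩ := Finset.mem_Ico.1 hk
        apply mul_le_mul_of_nonneg_right _ (hstep0 k (Finset.mem_range.2 hk2))
        refine (hup k).trans ?_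
        apply div_le_div_of_nonneg_left (by norm_num) hq0
        rw [Real.le_sqrt' hq0]
        have : (K:ℝ) ≤ k := by exact_mod_cast hk1
        nlinarith
      have h3 := Finset.sum_le_sum hterm
      refine h3.trans ?_
      rw [← Finset.mul_sum, Finset.sum_Ico_eq_sub _ (by omega : K ≤ H + 1),
        Finset.sum_range_sub', Finset.sum_range_sub', hr0, hrH]
      have h4 : rr H K ≤ 1 := by
        refine (rr_bd H K hH hKH).2.trans ?_
        apply Real.exp_le_one_iff.2
        apply div_nonpos_of_nonpos_of_nonneg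
        · nlinarith [sq_nonneg (K:ℝ)]
        · positivity
      have h5 : 0 < 3 / q := by positivity
      have h6 : 3 * (1 / q) = 3 / q := by ring
      rw [h6]
      nlinarith
    rw [hsplit]
    have h7 : 0 < 1 / q := by positivity
    linarith

end Pool.Agent.Helper651.SR
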