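import Pool.Agent.Helper651.SRF.Defs
import Pool.Agent.Helper651.SRF.FBd
import Pool.Agent.Helper651.SRF.RrBd
import Pool.Agent.Helper651.SRF.MainSum
import Pool.Agent.Helper651.SRF.ErrSum

set_option autoImplicit false
open MeasureTheory Set Filter Topology Classical
open scoped ENNReal Nat

namespace Pool.Agent.Helper651.SR

theorem final_num_aux1 (C0 : ℝ) (hC : 0 < C0) : ∃ N : ℕ, 1 ≤ N ∧ ∀ H : ℕ, N ≤ H →
    C0 * ((10 * (1 + Real.log (H + 1)) + 1000)) ≤ 1 / 20 * (H : ℝ) ^ (1 / 4 : ℝ) := by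
  have hl : (fun x : ℝ => Real.log x) =o[atTop] fun x => x ^ (1 / 4 : ℝ) :=
    isLittleO_log_rpow_atTop (by norm_num)
  have hc : (fun _ : ℝ => (1 : ℝ)) =o[atTop] fun x => x ^ (1 / 4 : ℝ) :=
    Asymptotics.isLittleO_const_left.2
      (Or.inr (tendsto_norm_atTop_atTop.comp (tendsto_rpow_atTop (by norm_num))))
  have hs : (fun x : ℝ => C0 * (1020 * 1 + 10 * Real.log x)) =o[atTop]
      fun x => x ^ (1 / 4 : ℝ) :=
    ((hc.const_mul_left 1020).add (hl.const_mul_left 10)).const_mul_left C0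
  have hb := hs.bound (c := 1 / 20) (by norm_num)
  obtain ⟨x0, hx0⟩ := eventually_atTop.1 hb
  refine ⟨max 1 ⌈x0⌉₊, le_max_left _ _, fun H hH => ?_⟩
  have hH1 : 1 ≤ H := le_trans (le_max_left _ _) hH
  have hH2 : ⌈x0⌉₊ ≤ H := le_trans (le_max_right _ _) hH
  have hHR : (1 : ℝ) ≤ H := by exact_mod_cast hH1
  have h1 := hx0 (H : ℝ) (le_trans (Nat.le_ceil x0) (by exact_mod_cast hH2))
  rw [Real.norm_eq_abs, Real.norm_eq_abs, abs_of_nonneg (Real.rpow_nonneg (by linarith) _)] at h1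
  refine le_trans ?_ (le_trans (le_abs_self _) h1)
  have h2 : Real.log ((H : ℝ) + 1) ≤ 1 + Real.log H := by
    have h3 : Real.log ((H : ℝ) + 1) ≤ Real.log (2 * H) :=
      Real.log_le_log (by linarith) (by linarith)
    rw [Real.log_mul (by norm_num) (by linarith)] at h3
    have h4 := Real.log_two_lt_d9
    linarith
  exact mul_le_mul_of_nonneg_left (by linarith) hC.le

theorem final_num (C0 : ℝ) (hC : 0 < C0) (f : ℕ → ℝ) (h0 : f 0 = 1)
    (hr : ∀ k : ℕ, 2 * (k + 1) * f (k + 1) = -∑ i ∈ Finset.range k, f i) :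
    ∃ c C : ℝ, 0 < c ∧ 0 < C ∧ ∃ N : ℕ, ∀ H : ℕ, N ≤ H → ∀ (P : ℝ) (Θ : ℕ → ℝ),
      (∀ k ≤ H, |Θ k - Real.exp (1 / 2)| ≤ C0 * √((k + 1) / H)) →
      |P - ∑ k ∈ Finset.range (H + 1), f k * rr H k * Θ k| ≤
        C0 * ∑ k ∈ Finset.range (H + 1), rr H k * ((k : ℝ) / H) ^ 2 →
      c * (2 * H : ℝ) ^ (-(1 / 4 : ℝ)) ≤ P ∧ P ≤ C * (2 * H : ℝ) ^ (-(1 / 4 : ℝ)) := by
  obtain ⟨N, hN1, hN⟩ := final_num_aux1 C0 hC
  refine ⟨1 / 20, 2 ^ (1 / 4 : ℝ) * (30 * Real.exp (1 / 2) + 1 / 20), by norm_num, by positivity,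
    N, ?_⟩
  intro H hH P Θ hΘ hP
  have hH1 : 1 ≤ H := le_trans hN1 hH
  have hHR : (1 : ℝ) ≤ H := by exact_mod_cast hH1
  have hH0 : (0 : ℝ) < H := by linarith
  have hs0 : 0 < √(H : ℝ) := Real.sqrt_pos.2 hH0
  obtain ⟨hm1, hm2⟩ := main_sum f h0 hr H hH1
  have he := err_sum H hH1
  have hf := f_sum f (f_bd f h0 hr) H hH1
  have hb := hN H hH
  set S := ∑ k ∈ Finset.range (H + 1), f k * rr H k with hS
  -- the error from Θ
  have hE : |∑ k ∈ Finset.range (H + 1), f k * rr H k * Θ k - Real.exp (1 / 2) * S| ≤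
      C0 * (10 * (1 + Real.log (H + 1)) / √(H : ℝ)) := by
    rw [hS, Finset.mul_sum, ← Finset.sum_sub_distrib]
    refine le_trans (Finset.abs_sum_le_sum_abs _ _) ?_
    refine le_trans ?_ (mul_le_mul_of_nonneg_left hf hC.le)
    rw [Finset.mul_sum]
    refine Finset.sum_le_sum fun k hk => ?_
    have hk' : k ≤ H := by
      have := Finset.mem_range.1 hk
      omega
    have hr1 := rr_bd H k hH1 hk'
    have hr2 : rr H k ≤ 1 := by
      refine le_trans hr1.2 ?_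
      rw [Real.exp_le_one_iff]
      have : 0 ≤ (k : ℝ) ^ 2 / (5 * H) := by positivity
      have h3 : -(k : ℝ) ^ 2 / (5 * H) = -((k : ℝ) ^ 2 / (5 * H)) := by ring
      rw [h3]; linarith
    have h4 : f k * rr H k * Θ k - Real.exp (1 / 2) * (f k * rr H k) =
        f k * rr H k * (Θ k - Real.exp (1 / 2)) := by ring
    rw [h4, abs_mul, abs_mul, abs_of_nonneg hr1.1]
    have h5 := hΘ k hk'
    calc |f k| * rr H k * |Θ k - Real.exp (1 / 2)| ≤ |f k| * 1 * (C0 * √((k + 1) / H)) := by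
          refine mul_le_mul ?_ h5 (abs_nonneg _) (by positivity)
          exact mul_le_mul_of_nonneg_left hr2 (abs_nonneg _)
      _ = C0 * (|f k| * √((k + 1) / H)) := by ring
  have hE2 : |P - Real.exp (1 / 2) * S| ≤
      C0 * (10 * (1 + Real.log (H + 1)) + 1000) / √(H : ℝ) := by
    have h6 : C0 * ∑ k ∈ Finset.range (H + 1), rr H k * ((k : ℝ) / H) ^ 2 ≤
        C0 * (1000 / √(H : ℝ)) := mul_le_mul_of_nonneg_left he hC.le
    have h7 : P - Real.exp (1 / 2) * S =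
        (P - ∑ k ∈ Finset.range (H + 1), f k * rr H k * Θ k) +
        (∑ k ∈ Finset.range (H + 1), f k * rr H k * Θ k - Real.exp (1 / 2) * S) := by ring
    rw [h7]
    refine le_trans (abs_add_le _ _) ?_
    have h8 : C0 * (10 * (1 + Real.log (H + 1)) + 1000) / √(H : ℝ) =
        C0 * (1000 / √(H : ℝ)) + C0 * (10 * (1 + Real.log (H + 1)) / √(H : ℝ)) := by ring
    rw [h8]
    exact add_le_add (le_trans hP h6) hE
  have hpow : (H : ℝ) ^ (1 / 4 : ℝ) / √(H : ℝ) = (H : ℝ) ^ (-(1 / 4 : ℝ)) := by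
    rw [Real.sqrt_eq_rpow, ← Real.rpow_sub hH0]
    norm_num
  have hE3 : |P - Real.exp (1 / 2) * S| ≤ 1 / 20 * (H : ℝ) ^ (-(1 / 4 : ℝ)) := by
    refine le_trans hE2 ?_
    rw [← hpow]
    have h9 : C0 * (10 * (1 + Real.log (H + 1)) + 1000) / √(H : ℝ) ≤
        1 / 20 * (H : ℝ) ^ (1 / 4 : ℝ) / √(H : ℝ) :=
      div_le_div_of_nonneg_right hb hs0.le
    refine le_trans h9 (le_of_eq ?_)
    ring
  have h2pow : (2 * H : ℝ) ^ (-(1 / 4 : ℝ)) = 2 ^ (-(1 / 4 : ℝ)) * (H : ℝ) ^ (-(1 / 4 : ℝ)) :=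
    Real.mul_rpow (by norm_num) hH0.le
  have h2le : (2 : ℝ) ^ (-(1 / 4 : ℝ)) ≤ 1 :=
    Real.rpow_le_one_of_one_le_of_nonpos (by norm_num) (by norm_num)
  have h2mul : (2 : ℝ) ^ (1 / 4 : ℝ) * 2 ^ (-(1 / 4 : ℝ)) = 1 := by
    rw [← Real.rpow_add (by norm_num)]
    norm_num
  have hq0 : 0 < (H : ℝ) ^ (-(1 / 4 : ℝ)) := Real.rpow_pos_of_pos hH0 _
  have hexp1 : 1 ≤ Real.exp (1 / 2) := Real.one_le_exp (by norm_num)
  have hab := abs_le.1 hE3
  constructor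
  · rw [h2pow]
    have h10 : 1 / 20 * (2 ^ (-(1 / 4 : ℝ)) * (H : ℝ) ^ (-(1 / 4 : ℝ))) ≤
        1 / 20 * (H : ℝ) ^ (-(1 / 4 : ℝ)) := by
      have := mul_le_mul_of_nonneg_right h2le hq0.le
      linarith
    have h11 : 0 ≤ S := by linarith
    have h12 : S ≤ Real.exp (1 / 2) * S := by nlinarith
    linarith [hab.1]
  · rw [h2pow]
    have h13 : 2 ^ (1 / 4 : ℝ) * (30 * Real.exp (1 / 2) + 1 / 20) *
        (2 ^ (-(1 / 4 : ℝ)) * (H : ℝ) ^ (-(1 / 4 : ℝ))) =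
        (2 ^ (1 / 4 : ℝ) * 2 ^ (-(1 / 4 : ℝ))) *
          ((30 * Real.exp (1 / 2) + 1 / 20) * (H : ℝ) ^ (-(1 / 4 : ℝ))) := by ring
    rw [h13, h2mul, one_mul]
    have h14 : Real.exp (1 / 2) * S ≤ Real.exp (1 / 2) * (30 * (H : ℝ) ^ (-(1 / 4 : ℝ))) :=
      mul_le_mul_of_nonneg_left hm2 (by positivity)
    nlinarith [hab.2]

end Pool.Agent.Helper651.SR
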