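import Pool.Agent.Helper651.SRF.Defs

set_option autoImplicit false
open MeasureTheory Set Filter Topology Classical
open scoped ENNReal Nat

namespace Pool.Agent.Helper651.SR

theorem lamlav (V : Type) [Fintype V] : (Measure.pi fun _ : V => lam) =
    (Measure.pi fun _ : V => lav).restrict {x | ∀ v, x v ≤ 1} := by
  have h1 : lam = lav.restrict (Iic 1) := by
    unfold lam lav
    rw [Measure.restrict_restrict measurableSet_Iic]
    have h2 : (Iic (1 : ℝ)) ∩ Ioi 0 = Ioc 0 1 := by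
      ext x
      simp only [mem_inter_iff, mem_Iic, mem_Ioi, mem_Ioc]
      exact and_comm
    rw [h2]
    exact Measure.restrict_congr_set Ioc_ae_eq_Icc.symm
  have h3 : {x : V → ℝ | ∀ v, x v ≤ 1} = Set.univ.pi (fun _ : V => Iic (1 : ℝ)) := by
    ext x
    simp only [mem_setOf_eq, mem_univ_pi, mem_Iic]
  rw [h3, Measure.restrict_pi_pi, h1]

theorem lav_pos (V : Type) [Fintype V] : ∀ᵐ x ∂(Measure.pi fun _ : V => lav), ∀ v, 0 < x v := by
  rw [ae_all_iff]
  intro v
  have h1 : ∀ᵐ y ∂lav, (0 : ℝ) < y := by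
    unfold lav
    exact ae_restrict_mem measurableSet_Ioi
  exact (Measure.tendsto_eval_ae_ae (μ := fun _ : V => lav) (i := v)).eventually h1

theorem lam_mem (V : Type) [Fintype V] :
    ∀ᵐ x ∂(Measure.pi fun _ : V => lam), ∀ v, 0 ≤ x v ∧ x v ≤ 1 := by
  rw [ae_all_iff]
  intro v
  have h1 : ∀ᵐ y ∂lam, (0 : ℝ) ≤ y ∧ y ≤ 1 := by
    unfold lam
    exact ae_restrict_mem measurableSet_Icc
  exact (Measure.tendsto_eval_ae_ae (μ := fun _ : V => lam) (i := v)).eventually h1

end Pool.Agent.Helper651.SR
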