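import Pool.Agent.Helper651.SRF.Defs

set_option autoImplicit false
open MeasureTheory Set Filter Topology Classical
open scoped ENNReal Nat

namespace Pool.Agent.Helper651.SR

theorem gmom (j : ℕ) : ∫⁻ s, ENNReal.ofReal (s ^ (2 * j + 1)) *
    ENNReal.ofReal (Real.exp (-s ^ 2 / 2)) ∂lav = ENNReal.ofReal (2 ^ j * (j.factorial : ℝ)) := by
  have hpt : ∀ s ∈ Ioi (0 : ℝ), ENNReal.ofReal (s ^ (2 * j + 1)) *
      ENNReal.ofReal (Real.exp (-s ^ 2 / 2)) =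
      ENNReal.ofReal (s ^ (((2 * j + 1 : ℕ) : ℝ)) * Real.exp (-(1 / 2) * s ^ (2 : ℝ))) := by
    intro s hs
    have hs0 : (0 : ℝ) ≤ s := le_of_lt hs
    rw [← ENNReal.ofReal_mul (pow_nonneg hs0 _), Real.rpow_natCast]
    congr 3
    rw [show (2 : ℝ) = ((2 : ℕ) : ℝ) by norm_num, Real.rpow_natCast]
    push_cast
    ring
  have h1 : ∫⁻ s, ENNReal.ofReal (s ^ (2 * j + 1)) *
      ENNReal.ofReal (Real.exp (-s ^ 2 / 2)) ∂lav =
      ∫⁻ s in Ioi (0 : ℝ), ENNReal.ofReal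
        (s ^ (((2 * j + 1 : ℕ) : ℝ)) * Real.exp (-(1 / 2) * s ^ (2 : ℝ))) := by
    unfold lav
    exact setLIntegral_congr_fun measurableSet_Ioi hpt
  have hq : (-1 : ℝ) < ((2 * j + 1 : ℕ) : ℝ) := by
    have : (0 : ℝ) ≤ ((2 * j + 1 : ℕ) : ℝ) := Nat.cast_nonneg _
    linarith
  have hint := integrableOn_rpow_mul_exp_neg_mul_rpow (p := 2) (b := 1 / 2) hq two_pos
    (by norm_num)
  rw [h1, ← ofReal_integral_eq_lintegral_ofReal hint]
  · rw [integral_rpow_mul_exp_neg_mul_rpow two_pos hq (by norm_num)]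
    congr 1
    have h2 : (((2 * j + 1 : ℕ) : ℝ) + 1) / 2 = (j : ℝ) + 1 := by push_cast; ring
    have h3 : -(((2 * j + 1 : ℕ) : ℝ) + 1) / 2 = -((j : ℝ) + 1) := by push_cast; ring
    rw [h2, h3, Real.Gamma_nat_eq_factorial]
    have h4 : ((1 : ℝ) / 2) ^ (-((j : ℝ) + 1)) = 2 ^ (j + 1) := by
      rw [Real.rpow_neg (by norm_num), ← Real.inv_rpow (by norm_num)]
      have : ((1 : ℝ) / 2)⁻¹ = 2 := by norm_num
      rw [this]
      have : ((j : ℝ) + 1) = ((j + 1 : ℕ) : ℝ) := by push_cast; ring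
      rw [this, Real.rpow_natCast]
    rw [h4, pow_succ]
    ring
  · filter_upwards [self_mem_ae_restrict (measurableSet_Ioi (a := (0 : ℝ)))] with s hs
    have hs0 : (0 : ℝ) ≤ s := le_of_lt hs
    change 0 ≤ _
    positivity

end Pool.Agent.Helper651.SR
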