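import Pool.Agent.Helper651.SRF.Defs
import Pool.Agent.Helper651.SRF.Conv

set_option autoImplicit false
open MeasureTheory Set Filter Topology Classical
open scoped ENNReal Nat

namespace Pool.Agent.Helper651.SR

theorem fac_split_24387 (a : ℕ) (s : ℝ) :
    ENNReal.ofReal (s ^ a) = ENNReal.ofReal (a.factorial : ℝ) *
      ENNReal.ofReal (s ^ a / (a.factorial : ℝ)) := by
  have h : (0 : ℝ) < (a.factorial : ℝ) := by exact_mod_cast a.factorial_pos
  rw [← ENNReal.ofReal_mul h.le, mul_div_cancel₀ _ h.ne']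

theorem sumlaw_fin_24387 (n : ℕ) : ∀ (e : Fin (n + 1) → ℕ) (g : ℝ → ℝ≥0∞), Measurable g →
    ∫⁻ x, (∏ v, ENNReal.ofReal (x v ^ e v)) * g (∑ v, x v)
        ∂(Measure.pi fun _ : Fin (n + 1) => lav) =
      ENNReal.ofReal (∏ v, ((e v).factorial : ℝ)) *
        ∫⁻ s, ENNReal.ofReal (s ^ (n + ∑ v, e v) / ((n + ∑ v, e v).factorial : ℝ)) * g s ∂lav := by
  induction n with
  | zero =>
    intro e g hg
    have hmp := measurePreserving_funUnique lav (Fin 1)
    have hF : Measurable (fun s : ℝ => ENNReal.ofReal (s ^ e 0) * g s) := by fun_prop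
    have h1 := hmp.lintegral_comp hF
    have h2 : ∀ x : Fin 1 → ℝ, (∏ v, ENNReal.ofReal (x v ^ e v)) * g (∑ v, x v) =
        ENNReal.ofReal ((MeasurableEquiv.funUnique (Fin 1) ℝ x) ^ e 0) *
          g (MeasurableEquiv.funUnique (Fin 1) ℝ x) := by
      intro x
      rw [Fin.prod_univ_one, Fin.sum_univ_one]
      rfl
    have h3 : ∫⁻ x, (∏ v, ENNReal.ofReal (x v ^ e v)) * g (∑ v, x v)
        ∂(Measure.pi fun _ : Fin (0 + 1) => lav) =
        ∫⁻ s, ENNReal.ofReal (s ^ e 0) * g s ∂lav := by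
      rw [← h1]
      exact lintegral_congr h2
    have hz : 0 + e 0 = e 0 := Nat.zero_add _
    rw [h3, Fin.prod_univ_one, Fin.sum_univ_one, hz, ← lintegral_const_mul']
    · apply lintegral_congr
      intro s
      rw [fac_split_24387 (e 0) s, mul_assoc]
    · exact ENNReal.ofReal_ne_top
  | succ n ih =>
    intro e g hg
    have hmp := measurePreserving_piFinSuccAbove (n := n + 1) (α := fun _ => ℝ)
      (fun _ : Fin (n + 1 + 1) => lav) 0
    set F : ℝ × (Fin (n + 1) → ℝ) → ℝ≥0∞ := fun p =>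
      ENNReal.ofReal (p.1 ^ e 0) * ((∏ j, ENNReal.ofReal (p.2 j ^ e (Fin.succ j))) *
        g (p.1 + ∑ j, p.2 j)) with hF
    have hFm : Measurable F := by
      apply Measurable.mul
      · fun_prop
      · apply Measurable.mul
        · apply Finset.measurable_fun_prod
          intro j _
          fun_prop
        · apply hg.comp
          fun_prop
    have h1 := hmp.lintegral_comp hFm
    have h2 : ∀ x : Fin (n + 1 + 1) → ℝ, (∏ v, ENNReal.ofReal (x v ^ e v)) * g (∑ v, x v) =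
        F (MeasurableEquiv.piFinSuccAbove (fun _ => ℝ) 0 x) := by
      intro x
      rw [Fin.prod_univ_succ, Fin.sum_univ_succ, mul_assoc]
      rfl
    have h3 : ∫⁻ x, (∏ v, ENNReal.ofReal (x v ^ e v)) * g (∑ v, x v)
        ∂(Measure.pi fun _ : Fin (n + 1 + 1) => lav) =
        ∫⁻ p, F p ∂(lav.prod (Measure.pi fun _ : Fin (n + 1) => lav)) := by
      rw [lintegral_congr h2]
      exact h1
    rw [h3, lintegral_prod _ hFm.aemeasurable]
    set e' : Fin (n + 1) → ℕ := fun j => e (Fin.succ j) with he'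
    set C' : ℝ≥0∞ := ENNReal.ofReal (∏ v, ((e' v).factorial : ℝ)) with hC'
    have h4 : ∀ t : ℝ, ∫⁻ y, F (t, y) ∂(Measure.pi fun _ : Fin (n + 1) => lav) =
        (ENNReal.ofReal ((e 0).factorial : ℝ) * C') *
          ∫⁻ s, ENNReal.ofReal (t ^ e 0 / ((e 0).factorial : ℝ)) *
          ENNReal.ofReal (s ^ (n + ∑ v, e' v) / ((n + ∑ v, e' v).factorial : ℝ)) * g (t + s) ∂lav := by
      intro t
      have hgt : Measurable (fun s => g (t + s)) := by fun_prop
      have h5 := ih e' (fun s => g (t + s)) hgt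
      simp only [hF]
      rw [lintegral_const_mul' _ _ ENNReal.ofReal_ne_top]
      rw [h5, fac_split_24387 (e 0) t]
      have h6 : ∀ s : ℝ, ENNReal.ofReal (t ^ e 0 / ((e 0).factorial : ℝ)) *
          ENNReal.ofReal (s ^ (n + ∑ v, e' v) / ((n + ∑ v, e' v).factorial : ℝ)) * g (t + s) =
          ENNReal.ofReal (t ^ e 0 / ((e 0).factorial : ℝ)) *
          (ENNReal.ofReal (s ^ (n + ∑ v, e' v) / ((n + ∑ v, e' v).factorial : ℝ)) * g (t + s)) :=
        fun s => mul_assoc _ _ _
      rw [lintegral_congr h6, lintegral_const_mul' _ _ ENNReal.ofReal_ne_top]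
      ring
    rw [lintegral_congr h4, lintegral_const_mul' _ _ (ENNReal.mul_ne_top ENNReal.ofReal_ne_top
      ENNReal.ofReal_ne_top), conv (e 0) (n + ∑ v, e' v) g hg]
    have h7 : e 0 + (n + ∑ v, e' v) + 1 = n + 1 + ∑ v, e v := by
      rw [Fin.sum_univ_succ e]
      simp only [he']
      ring
    have h8 : ENNReal.ofReal ((e 0).factorial : ℝ) * C' =
        ENNReal.ofReal (∏ v, ((e v).factorial : ℝ)) := by
      rw [hC', ← ENNReal.ofReal_mul (Nat.cast_nonneg _), Fin.prod_univ_succ (fun v => ((e v).factorial : ℝ))]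
    rw [h7, h8]

theorem sumlaw (V : Type) [Fintype V] (hV : 0 < Fintype.card V) (e : V → ℕ) (g : ℝ → ℝ≥0∞)
    (hg : Measurable g) :
    ∫⁻ x, (∏ v, ENNReal.ofReal (x v ^ e v)) * g (∑ v, x v) ∂(Measure.pi fun _ : V => lav) =
      ENNReal.ofReal (∏ v, ((e v).factorial : ℝ)) *
        ∫⁻ s, ENNReal.ofReal (s ^ (Fintype.card V + (∑ v, e v) - 1) /
          ((Fintype.card V + (∑ v, e v) - 1).factorial : ℝ)) * g s ∂lav := by
  obtain ⟨n, hn⟩ : ∃ n, Fintype.card V = n + 1 := ⟨Fintype.card V - 1, by omega⟩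
  let eqv : Fin (n + 1) ≃ V := (Fintype.equivFinOfCardEq hn).symm
  have hmp := measurePreserving_piCongrLeft (α := fun _ : V => ℝ) (fun _ : V => lav) eqv
  have hFm : Measurable (fun x : V → ℝ => (∏ v, ENNReal.ofReal (x v ^ e v)) * g (∑ v, x v)) := by
    apply Measurable.mul
    · apply Finset.measurable_fun_prod
      intro j _
      fun_prop
    · apply hg.comp
      fun_prop
  have h1 := hmp.lintegral_comp hFm
  have hval : ∀ (y : Fin (n + 1) → ℝ) (i : Fin (n + 1)),
      (MeasurableEquiv.piCongrLeft (fun _ : V => ℝ) eqv y) (eqv i) = y i := by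
    intro y i
    exact Equiv.piCongrLeft_apply_apply (P := fun _ : V => ℝ) eqv y i
  have h2 : ∀ y : Fin (n + 1) → ℝ,
      (∏ v, ENNReal.ofReal ((MeasurableEquiv.piCongrLeft (fun _ : V => ℝ) eqv y) v ^ e v)) *
        g (∑ v, (MeasurableEquiv.piCongrLeft (fun _ : V => ℝ) eqv y) v) =
      (∏ i, ENNReal.ofReal (y i ^ e (eqv i))) * g (∑ i, y i) := by
    intro y
    rw [← Equiv.prod_comp eqv, ← Equiv.sum_comp eqv]
    congr 1
    · exact Finset.prod_congr rfl fun i _ => by rw [hval]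
    · congr 1
      exact Finset.sum_congr rfl fun i _ => by rw [hval]
  rw [← h1, lintegral_congr h2, sumlaw_fin_24387 n (fun i => e (eqv i)) g hg]
  have h3 : ∏ i, ((e (eqv i)).factorial : ℝ) = ∏ v, ((e v).factorial : ℝ) :=
    Equiv.prod_comp eqv (fun v => ((e v).factorial : ℝ))
  have h4 : Fintype.card V + (∑ v, e v) - 1 = n + ∑ i, e (eqv i) := by
    rw [hn, Equiv.sum_comp eqv e]
    omega
  rw [h3, h4]

end Pool.Agent.Helper651.SR
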