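import Pool.Agent.Helper651.SRF.Defs
import Pool.Agent.Helper651.SRF.Sumlaw
import Pool.Agent.Helper651.SRF.Gmom
import Pool.Agent.Helper651.SRF.Lamlav

set_option autoImplicit false
open MeasureTheory Set Filter Topology Classical
open scoped ENNReal Nat

namespace Pool.Agent.Helper651.SR

theorem momB_lint (V : Type) [Fintype V] (hV : 0 < Fintype.card V) (e : V → ℕ) (M : ℕ)
    (h : Fintype.card V + ∑ v, e v = 2 * M) :
    ∫⁻ x, ENNReal.ofReal ((∏ v, x v ^ e v) * Real.exp (-(∑ v, x v) ^ 2 / 2))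
      ∂(Measure.pi fun _ : V => lav) = ENNReal.ofReal ((∏ v, ((e v).factorial : ℝ)) / dbl M) := by
  obtain ⟨j, rfl⟩ : ∃ j, M = j + 1 := ⟨M - 1, by omega⟩
  have h1 : ∫⁻ x, ENNReal.ofReal ((∏ v, x v ^ e v) * Real.exp (-(∑ v, x v) ^ 2 / 2))
      ∂(Measure.pi fun _ : V => lav) =
      ∫⁻ x, (∏ v, ENNReal.ofReal (x v ^ e v)) * (fun s : ℝ => ENNReal.ofReal (Real.exp (-s ^ 2 / 2)))
        (∑ v, x v) ∂(Measure.pi fun _ : V => lav) := by
    refine lintegral_congr_ae ((lav_pos V).mono (fun x hx => ?_))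
    show ENNReal.ofReal ((∏ v, x v ^ e v) * Real.exp (-(∑ v, x v) ^ 2 / 2)) =
      (∏ v, ENNReal.ofReal (x v ^ e v)) * ENNReal.ofReal (Real.exp (-(∑ v, x v) ^ 2 / 2))
    rw [ENNReal.ofReal_mul (Finset.prod_nonneg (fun v _ => pow_nonneg (hx v).le _)),
      ENNReal.ofReal_prod_of_nonneg (fun v _ => pow_nonneg (hx v).le _)]
  have hm : Measurable (fun s : ℝ => ENNReal.ofReal (Real.exp (-s ^ 2 / 2))) := by fun_prop
  rw [h1, sumlaw V hV e _ hm]
  have hexp : Fintype.card V + ∑ v, e v - 1 = 2 * j + 1 := by omega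
  rw [hexp]
  have hf : (0:ℝ) < ((2 * j + 1).factorial : ℝ) := by exact_mod_cast Nat.factorial_pos _
  have h2 : ∫⁻ s, ENNReal.ofReal (s ^ (2 * j + 1) / ((2 * j + 1).factorial : ℝ)) *
      (fun s : ℝ => ENNReal.ofReal (Real.exp (-s ^ 2 / 2))) s ∂lav =
      ENNReal.ofReal (((2 * j + 1).factorial : ℝ)⁻¹) * ENNReal.ofReal (2 ^ j * (j.factorial : ℝ)) := by
    rw [← gmom, ← lintegral_const_mul _ (by fun_prop)]
    refine lintegral_congr (fun s => ?_)
    show ENNReal.ofReal (s ^ (2 * j + 1) / ((2 * j + 1).factorial : ℝ)) *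
      ENNReal.ofReal (Real.exp (-s ^ 2 / 2)) = _
    rw [div_eq_mul_inv, ENNReal.ofReal_mul' (inv_nonneg.2 hf.le)]
    ring
  rw [h2, ← ENNReal.ofReal_mul (inv_nonneg.2 hf.le), ← ENNReal.ofReal_mul
    (Finset.prod_nonneg (fun v _ => by positivity))]
  congr 1
  rw [div_eq_mul_inv]
  congr 1
  unfold dbl
  have h3 : 2 * (j + 1) - 1 = 2 * j + 1 := by omega
  rw [h3]
  have h4 : (2 * j + 1).factorial = Nat.doubleFactorial (2 * j + 1) * Nat.doubleFactorial (2 * j) :=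
    Nat.factorial_eq_mul_doubleFactorial (2 * j)
  rw [h4, Nat.doubleFactorial_two_mul]
  have h5 : (0:ℝ) < (Nat.doubleFactorial (2 * j + 1) : ℝ) := by
    exact_mod_cast Nat.doubleFactorial_pos _
  have h6 : (0:ℝ) < (j.factorial : ℝ) := by exact_mod_cast Nat.factorial_pos _
  push_cast
  field_simp

theorem momB (V : Type) [Fintype V] (hV : 0 < Fintype.card V) (e : V → ℕ) (M : ℕ)
    (h : Fintype.card V + ∑ v, e v = 2 * M) :
    Integrable (fun x : V → ℝ => (∏ v, x v ^ e v) * Real.exp (-(∑ v, x v) ^ 2 / 2))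
      (Measure.pi fun _ : V => lav) ∧
    ∫ x, (∏ v, x v ^ e v) * Real.exp (-(∑ v, x v) ^ 2 / 2) ∂(Measure.pi fun _ : V => lav) =
      (∏ v, ((e v).factorial : ℝ)) / dbl M := by
  have hl := momB_lint V hV e M h
  have hnn : 0 ≤ᵐ[Measure.pi fun _ : V => lav]
      (fun x : V → ℝ => (∏ v, x v ^ e v) * Real.exp (-(∑ v, x v) ^ 2 / 2)) :=
    (lav_pos V).mono (fun x hx => mul_nonneg
      (Finset.prod_nonneg (fun v _ => pow_nonneg (hx v).le _)) (Real.exp_pos _).le)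
  have hmeas : AEStronglyMeasurable
      (fun x : V → ℝ => (∏ v, x v ^ e v) * Real.exp (-(∑ v, x v) ^ 2 / 2))
      (Measure.pi fun _ : V => lav) :=
    (Continuous.measurable (by fun_prop)).aestronglyMeasurable
  refine ⟨⟨hmeas, ?_⟩, ?_⟩
  · rw [hasFiniteIntegral_iff_ofReal hnn, hl]
    exact ENNReal.ofReal_lt_top
  · rw [integral_eq_lintegral_of_nonneg_ae hnn hmeas, hl, ENNReal.toReal_ofReal]
    exact div_nonneg (Finset.prod_nonneg (fun v _ => by positivity)) (dbl_pos M).le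

end Pool.Agent.Helper651.SR
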