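import Pool.Agent.Helper651.SRF.Defs
import Pool.Agent.Helper651.SRF.Momb

set_option autoImplicit false
open MeasureTheory Set Filter Topology Classical
open scoped ENNReal Nat

namespace Pool.Agent.Helper651.SR

theorem momL_ind {V : Type} [Fintype V] (s : Finset V) (x : V → ℝ) :
    ∏ v ∈ s, x v = ∏ v, x v ^ (if v ∈ s then 1 else 0) := by
  have h1 : ∀ v, x v ^ (if v ∈ s then 1 else 0) = if v ∈ s then x v else 1 := by
    intro v
    split_ifs <;> simp
  simp only [h1]
  rw [Finset.prod_ite_mem, Finset.univ_inter]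

theorem momL_eq {V : Type} [Fintype V] (π : Equiv.Perm V) (d : V → ℕ) (x : V → ℝ) :
    WW π x * ∏ v, x v ^ d v =
      (∏ v, x v ^ ((if v ∈ lg π then 1 else 0) + d v)) * Real.exp (-(∑ v, x v) ^ 2 / 2) := by
  unfold WW
  rw [momL_ind]
  simp only [pow_add, Finset.prod_mul_distrib]
  ring

theorem momL {V : Type} [Fintype V] (π : Equiv.Perm V) (h k j : ℕ) (hh : 1 ≤ h)
    (hV : Fintype.card V = 2 * h) (hk : (lg π).card = 2 * k) (d : V → ℕ)
    (hd : ∑ v, d v = 2 * j) :
    Integrable (fun x : V → ℝ => WW π x * ∏ v, x v ^ d v) (Measure.pi fun _ : V => lav) ∧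
    ∫ x, WW π x * ∏ v, x v ^ d v ∂(Measure.pi fun _ : V => lav) =
      (∏ v, (((if v ∈ lg π then 1 else 0) + d v).factorial : ℝ)) / dbl (h + k + j) := by
  have hpos : 0 < Fintype.card V := by omega
  have hsum : Fintype.card V + ∑ v, ((if v ∈ lg π then 1 else 0) + d v) = 2 * (h + k + j) := by
    rw [Finset.sum_add_distrib, hd, Finset.sum_ite_mem, Finset.univ_inter, Finset.sum_const,
      smul_eq_mul, mul_one, hk, hV]
    ring
  have key := momB V hpos (fun v => (if v ∈ lg π then 1 else 0) + d v) (h + k + j) hsum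
  simp only [momL_eq]
  exact key

theorem mom2 {V : Type} [Fintype V] (π : Equiv.Perm V) (h k i j t : ℕ) (hh : 1 ≤ h)
    (hV : Fintype.card V = 2 * h) (hk : (lg π).card = 2 * k) (hij : i + j = 2 * t) (a b : V) :
    Integrable (fun x : V → ℝ => WW π x * (x a ^ i * x b ^ j)) (Measure.pi fun _ : V => lav) ∧
    ∫ x, WW π x * (x a ^ i * x b ^ j) ∂(Measure.pi fun _ : V => lav) =
      (if a = b then ((((if a ∈ lg π then 1 else 0) + i + j : ℕ)).factorial : ℝ) else
        ((((if a ∈ lg π then 1 else 0) + i : ℕ)).factorial : ℝ) *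
        ((((if b ∈ lg π then 1 else 0) + j : ℕ)).factorial : ℝ)) / dbl (h + k + t) := by
  have hx : ∀ x : V → ℝ, x a ^ i * x b ^ j =
      ∏ v, x v ^ ((if v = a then i else 0) + (if v = b then j else 0)) := by
    intro x
    simp only [pow_add, Finset.prod_mul_distrib]
    have h1 : ∀ (c : V) (n : ℕ), ∏ v, x v ^ (if v = c then n else 0) = x c ^ n := by
      intro c n
      rw [Finset.prod_eq_single c]
      · rw [if_pos rfl]
      · intro v _ hv
        rw [if_neg hv, pow_zero]
      · intro hc
        exact absurd (Finset.mem_univ c) hc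
    rw [h1, h1]
  have hd : ∑ v : V, ((if v = a then i else 0) + (if v = b then j else 0)) = 2 * t := by
    rw [Finset.sum_add_distrib]
    simp [hij]
  have key := momL π h k t hh hV hk
    (fun v => (if v = a then i else 0) + (if v = b then j else 0)) hd
  simp only [hx]
  refine ⟨key.1, key.2.trans ?_⟩
  congr 1
  by_cases hab : a = b
  · rw [if_pos hab]
    subst hab
    rw [Finset.prod_eq_single a]
    · rw [if_pos rfl, if_pos rfl, add_assoc]
    · intro v _ hv
      rw [if_neg hv, if_neg hv]
      split_ifs <;> simp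
    · intro hc
      exact absurd (Finset.mem_univ a) hc
  · rw [if_neg hab]
    rw [Finset.prod_eq_mul a b hab]
    · rw [if_pos rfl, if_neg hab, if_neg (Ne.symm hab), if_pos rfl, add_zero, zero_add]
    · intro v _ hv
      rw [if_neg hv.1, if_neg hv.2]
      split_ifs <;> simp
    · intro hc
      exact absurd (Finset.mem_univ a) hc
    · intro hc
      exact absurd (Finset.mem_univ b) hc

end Pool.Agent.Helper651.SR
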