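import Pool.Agent.Helper651.SRF.Defs
import Pool.Agent.Helper651.SRF.Moml

set_option autoImplicit false
open MeasureTheory Set Filter Topology Classical
open scoped ENNReal Nat

namespace Pool.Agent.Helper651.SR

theorem x975_sing {V : Type} [Fintype V] (π : Equiv.Perm V) (h k : ℕ) (hh : 1 ≤ h)
    (hV : Fintype.card V = 2 * h) (hk : (lg π).card = 2 * k) (S : Finset V) (i t : ℕ)
    (hi : i = 2 * t) :
    Integrable (fun x : V → ℝ => WW π x * (∑ v ∈ S, x v ^ i)) (Measure.pi fun _ : V => lav) ∧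
    ∫ x, WW π x * (∑ v ∈ S, x v ^ i) ∂(Measure.pi fun _ : V => lav) =
      (∑ v ∈ S, ((((if v ∈ lg π then 1 else 0) + i : ℕ)).factorial : ℝ)) / dbl (h + k + t) := by
  have hm : ∀ v : V, Integrable (fun x : V → ℝ => WW π x * x v ^ i) (Measure.pi fun _ : V => lav) ∧
      ∫ x, WW π x * x v ^ i ∂(Measure.pi fun _ : V => lav) =
      ((((if v ∈ lg π then 1 else 0) + i : ℕ)).factorial : ℝ) / dbl (h + k + t) := by
    intro v
    have h1 := mom2 π h k i 0 t hh hV hk (by omega) v v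
    rw [if_pos rfl, add_zero] at h1
    simpa only [pow_zero, mul_one] using h1
  have e : (fun x : V → ℝ => WW π x * (∑ v ∈ S, x v ^ i)) =
      fun x => ∑ v ∈ S, WW π x * x v ^ i := by
    funext x; rw [Finset.mul_sum]
  constructor
  · rw [e]
    exact integrable_finsetSum _ fun v _ => (hm v).1
  · rw [e, integral_finsetSum _ fun v _ => (hm v).1, Finset.sum_div]
    exact Finset.sum_congr rfl fun v _ => (hm v).2

theorem x975_pair {V : Type} [Fintype V] (π : Equiv.Perm V) (h k : ℕ) (hh : 1 ≤ h)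
    (hV : Fintype.card V = 2 * h) (hk : (lg π).card = 2 * k) (S : Finset V) (i t : ℕ)
    (hi : i + i = 2 * t) (c : V → V → ℝ)
    (hc : ∀ a ∈ S, ∀ b ∈ S, (if a = b then ((((if a ∈ lg π then 1 else 0) + i + i : ℕ)).factorial : ℝ) else
        ((((if a ∈ lg π then 1 else 0) + i : ℕ)).factorial : ℝ) *
        ((((if b ∈ lg π then 1 else 0) + i : ℕ)).factorial : ℝ)) ≤ c a b) :
    Integrable (fun x : V → ℝ => WW π x * (∑ v ∈ S, x v ^ i) ^ 2) (Measure.pi fun _ : V => lav) ∧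
    ∫ x, WW π x * (∑ v ∈ S, x v ^ i) ^ 2 ∂(Measure.pi fun _ : V => lav) ≤
      (∑ a ∈ S, ∑ b ∈ S, c a b) / dbl (h + k + t) := by
  have hm := fun a b => mom2 π h k i i t hh hV hk hi a b
  have e : (fun x : V → ℝ => WW π x * (∑ v ∈ S, x v ^ i) ^ 2) =
      fun x => ∑ a ∈ S, ∑ b ∈ S, WW π x * (x a ^ i * x b ^ i) := by
    funext x
    rw [pow_two, Finset.sum_mul_sum, Finset.mul_sum]
    exact Finset.sum_congr rfl fun a _ => Finset.mul_sum _ _ _
  constructor
  · rw [e]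
    exact integrable_finsetSum _ fun a _ => integrable_finsetSum _ fun b _ => (hm a b).1
  · rw [e, integral_finsetSum _ fun a _ => integrable_finsetSum _ fun b _ => (hm a b).1,
      Finset.sum_div]
    refine Finset.sum_le_sum fun a ha => ?_
    rw [integral_finsetSum _ fun b _ => (hm a b).1, Finset.sum_div]
    refine Finset.sum_le_sum fun b hb => ?_
    rw [(hm a b).2]
    exact div_le_div_of_nonneg_right (hc a ha b hb) (dbl_pos _).le

theorem x975_D (h k : ℕ) (hh : 1 ≤ h) :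
    2 * (h : ℝ) * dbl (h + k) ≤ dbl (h + k + 1) ∧ 4 * (h : ℝ) ^ 2 * dbl (h + k) ≤ dbl (h + k + 2) ∧
      8 * (h : ℝ) ^ 3 * dbl (h + k) ≤ dbl (h + k + 3) := by
  have hh' : (1:ℝ) ≤ h := by exact_mod_cast hh
  have hk' : (0:ℝ) ≤ k := Nat.cast_nonneg k
  have d0 := dbl_pos (h + k)
  have d1 := dbl_pos (h + k + 1)
  have d2 := dbl_pos (h + k + 2)
  have e1 := dbl_succ (h + k)
  have e2 := dbl_succ (h + k + 1)
  have e3 := dbl_succ (h + k + 2)
  rw [show h + k + 1 + 1 = h + k + 2 from rfl] at e2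
  rw [show h + k + 2 + 1 = h + k + 3 from rfl] at e3
  push_cast at e1 e2 e3
  have f1 : 2 * (h : ℝ) * dbl (h + k) ≤ dbl (h + k + 1) := by
    rw [e1]
    exact mul_le_mul_of_nonneg_right (by linarith) d0.le
  have f2 : 2 * (h : ℝ) * dbl (h + k + 1) ≤ dbl (h + k + 2) := by
    rw [e2]
    exact mul_le_mul_of_nonneg_right (by linarith) d1.le
  have f3 : 2 * (h : ℝ) * dbl (h + k + 2) ≤ dbl (h + k + 3) := by
    rw [e3]
    exact mul_le_mul_of_nonneg_right (by linarith) d2.le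
  have g2 : 4 * (h : ℝ) ^ 2 * dbl (h + k) ≤ dbl (h + k + 2) := by
    calc 4 * (h : ℝ) ^ 2 * dbl (h + k) = 2 * h * (2 * h * dbl (h + k)) := by ring
      _ ≤ 2 * h * dbl (h + k + 1) := mul_le_mul_of_nonneg_left f1 (by linarith)
      _ ≤ _ := f2
  refine ⟨f1, g2, ?_⟩
  calc 8 * (h : ℝ) ^ 3 * dbl (h + k) = 2 * h * (4 * h ^ 2 * dbl (h + k)) := by ring
    _ ≤ 2 * h * dbl (h + k + 2) := mul_le_mul_of_nonneg_left g2 (by linarith)
    _ ≤ _ := f3

theorem x975_fac (e i : ℕ) (he : e ≤ 1) : ((e + i).factorial : ℝ) ≤ ((i + 1).factorial : ℝ) := by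
  exact_mod_cast Nat.factorial_le (by omega)

theorem mom4 {V : Type} [Fintype V] (π : Equiv.Perm V) (h k : ℕ) (hh : 1 ≤ h)
    (hV : Fintype.card V = 2 * h) (hk : (lg π).card = 2 * k) :
    (Integrable (fun x : V → ℝ => WW π x * (∑ v, x v ^ 4)) (Measure.pi fun _ : V => lav) ∧
    ∫ x, WW π x * (∑ v, x v ^ 4) ∂(Measure.pi fun _ : V => lav) ≤
      100 * (1 / h) / dbl (h + k)) ∧
    (Integrable (fun x : V → ℝ => WW π x * (∑ v, x v ^ 3) ^ 2)
      (Measure.pi fun _ : V => lav) ∧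
    ∫ x, WW π x * (∑ v, x v ^ 3) ^ 2 ∂(Measure.pi fun _ : V => lav) ≤
      2000 * (1 / h) / dbl (h + k)) := by
  obtain ⟨D1, D2, D3⟩ := x975_D h k hh
  have hh' : (1:ℝ) ≤ h := by exact_mod_cast hh
  have hh0 : (0:ℝ) < h := by linarith
  have d0 := dbl_pos (h + k)
  have hle : ∀ v : V, (if v ∈ lg π then 1 else 0) ≤ 1 := by
    intro v; split_ifs <;> norm_num
  constructor
  · have h1 := x975_sing π h k hh hV hk Finset.univ 4 2 rfl
    refine ⟨h1.1, ?_⟩
    rw [h1.2, div_le_div_iff₀ (dbl_pos _) d0]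
    have h2 : (∑ v : V, ((((if v ∈ lg π then 1 else 0) + 4 : ℕ)).factorial : ℝ)) ≤ 240 * h := by
      calc (∑ v : V, ((((if v ∈ lg π then 1 else 0) + 4 : ℕ)).factorial : ℝ)) ≤ ∑ v : V, (120:ℝ) := by
            refine Finset.sum_le_sum fun v _ => ?_
            have := x975_fac _ 4 (hle v)
            norm_num [Nat.factorial] at this ⊢
            exact this
        _ = 240 * h := by
            rw [Finset.sum_const, Finset.card_univ, hV, nsmul_eq_mul]; push_cast; ring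
    have h3 : 100 * (1 / (h:ℝ)) * (4 * (h : ℝ) ^ 2 * dbl (h + k)) ≤
        100 * (1 / (h:ℝ)) * dbl (h + k + 2) := mul_le_mul_of_nonneg_left D2 (by positivity)
    have h4 : 100 * (1 / (h:ℝ)) * (4 * (h : ℝ) ^ 2 * dbl (h + k)) = 400 * h * dbl (h + k) := by
      field_simp; ring
    rw [h4] at h3
    have h5 := mul_le_mul_of_nonneg_right h2 d0.le
    nlinarith [mul_pos hh0 d0]
  · have h1 := x975_pair π h k hh hV hk Finset.univ 3 3 rfl
      (fun a b => 576 + if a = b then 5040 else 0) (by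
        intro a _ b _
        split_ifs <;> norm_num [Nat.factorial])
    refine ⟨h1.1, h1.2.trans ?_⟩
    rw [div_le_div_iff₀ (dbl_pos _) d0]
    have h2 : (∑ a : V, ∑ b : V, ((576:ℝ) + if a = b then 5040 else 0)) =
        2304 * (h:ℝ) ^ 2 + 10080 * h := by
      have h6 : ∀ a : V, (∑ b : V, ((576:ℝ) + if a = b then 5040 else 0)) = 1152 * h + 5040 := by
        intro a
        rw [Finset.sum_add_distrib, Finset.sum_const, Finset.card_univ, hV, nsmul_eq_mul,
          Finset.sum_ite_eq, if_pos (Finset.mem_univ a)]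
        push_cast; ring
      rw [Finset.sum_congr rfl fun a _ => h6 a, Finset.sum_const, Finset.card_univ, hV, nsmul_eq_mul]
      push_cast; ring
    rw [h2]
    have h3 : 2000 * (1 / (h:ℝ)) * (8 * (h : ℝ) ^ 3 * dbl (h + k)) ≤
        2000 * (1 / (h:ℝ)) * dbl (h + k + 3) := mul_le_mul_of_nonneg_left D3 (by positivity)
    have h4 : 2000 * (1 / (h:ℝ)) * (8 * (h : ℝ) ^ 3 * dbl (h + k)) = 16000 * h ^ 2 * dbl (h + k) := by
      field_simp; ring
    rw [h4] at h3
    have h5 : (2304 * (h:ℝ) ^ 2 + 10080 * h) ≤ 16000 * h ^ 2 := by nlinarith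
    exact (mul_le_mul_of_nonneg_right h5 d0.le).trans h3

theorem momS {V : Type} [Fintype V] (π : Equiv.Perm V) (h k : ℕ) (hh : 1 ≤ h)
    (hV : Fintype.card V = 2 * h) (hk : (lg π).card = 2 * k) :
    (Integrable (fun x : V → ℝ => WW π x * (∑ v ∈ lg π, x v ^ 2))
      (Measure.pi fun _ : V => lav) ∧
    ∫ x, WW π x * (∑ v ∈ lg π, x v ^ 2) ∂(Measure.pi fun _ : V => lav) ≤
      10 * (k / h) / dbl (h + k)) ∧
    (Integrable (fun x : V → ℝ => WW π x * (∑ v ∈ lg π, x v ^ 2) ^ 2)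
      (Measure.pi fun _ : V => lav) ∧
    ∫ x, WW π x * (∑ v ∈ lg π, x v ^ 2) ^ 2 ∂(Measure.pi fun _ : V => lav) ≤
      200 * (k / h) ^ 2 / dbl (h + k)) := by
  obtain ⟨D1, D2, D3⟩ := x975_D h k hh
  have hh' : (1:ℝ) ≤ h := by exact_mod_cast hh
  have hh0 : (0:ℝ) < h := by linarith
  have hk0 : (0:ℝ) ≤ k := Nat.cast_nonneg k
  have d0 := dbl_pos (h + k)
  constructor
  · have h1 := x975_sing π h k hh hV hk (lg π) 2 1 rfl
    refine ⟨h1.1, ?_⟩
    rw [h1.2, div_le_div_iff₀ (dbl_pos _) d0]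
    have h2 : (∑ v ∈ lg π, ((((if v ∈ lg π then 1 else 0) + 2 : ℕ)).factorial : ℝ)) = 12 * k := by
      calc (∑ v ∈ lg π, ((((if v ∈ lg π then 1 else 0) + 2 : ℕ)).factorial : ℝ)) =
            ∑ v ∈ lg π, (6:ℝ) := by
            refine Finset.sum_congr rfl fun v hv => ?_
            rw [if_pos hv]; norm_num [Nat.factorial]
        _ = 12 * k := by
            rw [Finset.sum_const, hk, nsmul_eq_mul]; push_cast; ring
    rw [h2]
    have h3 : 10 * ((k:ℝ) / (h:ℝ)) * (2 * (h : ℝ) * dbl (h + k)) ≤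
        10 * ((k:ℝ) / (h:ℝ)) * dbl (h + k + 1) := mul_le_mul_of_nonneg_left D1 (by positivity)
    have h4 : 10 * ((k:ℝ) / (h:ℝ)) * (2 * (h : ℝ) * dbl (h + k)) = 20 * k * dbl (h + k) := by
      field_simp; ring
    rw [h4] at h3
    refine le_trans ?_ h3
    exact mul_le_mul_of_nonneg_right (by linarith) d0.le
  · have h1 := x975_pair π h k hh hV hk (lg π) 2 2 rfl (fun a b => 120) (by
        intro a ha b hb
        rw [if_pos ha, if_pos hb]
        split_ifs <;> norm_num [Nat.factorial])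
    refine ⟨h1.1, h1.2.trans ?_⟩
    rw [div_le_div_iff₀ (dbl_pos _) d0]
    have h2 : (∑ a ∈ lg π, ∑ b ∈ lg π, (120:ℝ)) = 480 * (k:ℝ) ^ 2 := by
      rw [Finset.sum_const, Finset.sum_const, hk, nsmul_eq_mul, nsmul_eq_mul]
      push_cast; ring
    rw [h2]
    have h3 : 200 * ((k:ℝ) / (h:ℝ)) ^ 2 * (4 * (h : ℝ) ^ 2 * dbl (h + k)) ≤
        200 * ((k:ℝ) / (h:ℝ)) ^ 2 * dbl (h + k + 2) := mul_le_mul_of_nonneg_left D2 (by positivity)
    have h4 : 200 * ((k:ℝ) / (h:ℝ)) ^ 2 * (4 * (h : ℝ) ^ 2 * dbl (h + k)) =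
        800 * k ^ 2 * dbl (h + k) := by
      field_simp; ring
    rw [h4] at h3
    refine le_trans ?_ h3
    exact mul_le_mul_of_nonneg_right (by nlinarith) d0.le

end Pool.Agent.Helper651.SR
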