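import Pool.Agent.Helper651.SRF.Defs
import Pool.Agent.Helper651.SRF.Moml

set_option autoImplicit false
open MeasureTheory Set Filter Topology Classical
open scoped ENNReal Nat

namespace Pool.Agent.Helper651.SR

theorem momM_A {V : Type} [Fintype V] (π : Equiv.Perm V) (v : V) :
    v ∉ lg π ↔ π (π v) = v := by
  simp [lg]

theorem momM_4 {V : Type} [Fintype V] (π : Equiv.Perm V) (hf : ∀ v, π v ≠ v) (h k : ℕ)
    (hh : 1 ≤ h) (hV : Fintype.card V = 2 * h) (hk : (lg π).card = 2 * k) (v w : V)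
    (hv : π (π v) = v) (hw : π (π w) = w) :
    Integrable (fun x : V → ℝ => WW π x * (x v * x (π v) * (x w * x (π w))))
      (Measure.pi fun _ : V => lav) ∧
    ∫ x, WW π x * (x v * x (π v) * (x w * x (π w))) ∂(Measure.pi fun _ : V => lav) =
      (1 + (if w = v then 3 else 0) + (if w = π v then 3 else 0)) / dbl (h + k + 2) := by
  have hvl : v ∉ lg π := (momM_A π v).2 hv
  have hwl : w ∉ lg π := (momM_A π w).2 hw
  have hπvl : π v ∉ lg π := (momM_A π (π v)).2 (by rw [hv])
  have hπwl : π w ∉ lg π := (momM_A π (π w)).2 (by rw [hw])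
  by_cases hc : w = v ∨ w = π v
  · have h2 := mom2 π h k 2 2 2 hh hV hk rfl v (π v)
    rw [if_neg (hf v).symm, if_neg hvl, if_neg hπvl] at h2
    have e : (fun x : V → ℝ => WW π x * (x v * x (π v) * (x w * x (π w)))) =
        fun x => WW π x * (x v ^ 2 * x (π v) ^ 2) := by
      funext x
      rcases hc with rfl | rfl
      · ring
      · rw [hv]; ring
    have e1 : (1 + (if w = v then (3 : ℝ) else 0) + (if w = π v then (3 : ℝ) else 0)) = 4 := by
      rcases hc with rfl | rfl
      · rw [if_pos rfl, if_neg (hf w).symm]; norm_num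
      · rw [if_neg (hf v), if_pos rfl]; norm_num
    rw [e1]
    constructor
    · rw [e]; exact h2.1
    · rw [e, h2.2]
      norm_num [Nat.factorial]
  · rw [not_or] at hc
    obtain ⟨hc1, hc2⟩ := hc
    have hc3 : π w ≠ v := fun h => hc2 (by rw [← h, hw])
    have hc4 : π w ≠ π v := fun h => hc1 (π.injective h)
    have hd : ∑ u : V, ((if u = v then 1 else 0) + (if u = π v then 1 else 0) +
        ((if u = w then 1 else 0) + (if u = π w then 1 else 0))) = 2 * 2 := by
      simp [Finset.sum_add_distrib]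
    have h4 := momL π h k 2 hh hV hk (fun u => (if u = v then 1 else 0) +
      (if u = π v then 1 else 0) + ((if u = w then 1 else 0) + (if u = π w then 1 else 0))) hd
    have e : (fun x : V → ℝ => WW π x * ∏ u, x u ^ ((if u = v then 1 else 0) +
        (if u = π v then 1 else 0) + ((if u = w then 1 else 0) + (if u = π w then 1 else 0)))) =
        fun x : V → ℝ => WW π x * (x v * x (π v) * (x w * x (π w))) := by
      funext x
      simp only [pow_add, Finset.prod_mul_distrib, pow_ite, pow_one, pow_zero,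
        Finset.prod_ite_eq', Finset.mem_univ, if_true]
    have e2 : (∏ u : V, (((if u ∈ lg π then 1 else 0) + ((if u = v then 1 else 0) +
        (if u = π v then 1 else 0) + ((if u = w then 1 else 0) +
        (if u = π w then 1 else 0)))).factorial : ℝ)) = 1 := by
      apply Finset.prod_eq_one
      intro u _
      by_cases u1 : u = v
      · subst u1
        rw [if_neg hvl, if_pos rfl, if_neg (hf u).symm, if_neg (Ne.symm hc1), if_neg (Ne.symm hc3)]
        norm_num
      · by_cases u2 : u = π v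
        · subst u2
          rw [if_neg hπvl, if_neg u1, if_pos rfl, if_neg (Ne.symm hc2), if_neg (Ne.symm hc4)]
          norm_num
        · by_cases u3 : u = w
          · subst u3
            rw [if_neg hwl, if_neg u1, if_neg u2, if_pos rfl, if_neg (hf u).symm]
            norm_num
          · by_cases u4 : u = π w
            · subst u4
              rw [if_neg hπwl, if_neg u1, if_neg u2, if_neg u3, if_pos rfl]
              norm_num
            · rw [if_neg u1, if_neg u2, if_neg u3, if_neg u4]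
              split_ifs <;> norm_num
    rw [e, e2] at h4
    rw [if_neg hc1, if_neg hc2, add_zero, add_zero]
    exact h4

theorem momM_2 {V : Type} [Fintype V] (π : Equiv.Perm V) (hf : ∀ v, π v ≠ v) (h k : ℕ)
    (hh : 1 ≤ h) (hV : Fintype.card V = 2 * h) (hk : (lg π).card = 2 * k) (v : V)
    (hv : π (π v) = v) :
    Integrable (fun x : V → ℝ => WW π x * (x v * x (π v)))
      (Measure.pi fun _ : V => lav) ∧
    ∫ x, WW π x * (x v * x (π v)) ∂(Measure.pi fun _ : V => lav) =
      1 / dbl (h + k + 1) := by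
  have hvl : v ∉ lg π := (momM_A π v).2 hv
  have hπvl : π v ∉ lg π := (momM_A π (π v)).2 (by rw [hv])
  have h2 := mom2 π h k 1 1 1 hh hV hk rfl v (π v)
  rw [if_neg (hf v).symm, if_neg hvl, if_neg hπvl] at h2
  simp only [pow_one] at h2
  constructor
  · exact h2.1
  · rw [h2.2]
    norm_num

theorem momM_0 {V : Type} [Fintype V] (π : Equiv.Perm V) (h k : ℕ)
    (hh : 1 ≤ h) (hV : Fintype.card V = 2 * h) (hk : (lg π).card = 2 * k) :
    Integrable (fun x : V → ℝ => WW π x) (Measure.pi fun _ : V => lav) ∧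
    ∫ x, WW π x ∂(Measure.pi fun _ : V => lav) = 1 / dbl (h + k) := by
  have h2 := momL π h k 0 hh hV hk (fun _ => 0) (by simp)
  simp only [pow_zero, Finset.prod_const_one, mul_one, add_zero] at h2
  refine ⟨h2.1, ?_⟩
  rw [h2.2]
  congr 1
  apply Finset.prod_eq_one
  intro u _
  split_ifs <;> norm_num

theorem momM {V : Type} [Fintype V] (π : Equiv.Perm V) (hf : ∀ v, π v ≠ v) (h k : ℕ)
    (hh : 1 ≤ h) (hV : Fintype.card V = 2 * h) (hk : (lg π).card = 2 * k) :
    Integrable (fun x : V → ℝ => WW π x * (MM π x - 1 / 2) ^ 2)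
      (Measure.pi fun _ : V => lav) ∧
    ∫ x, WW π x * (MM π x - 1 / 2) ^ 2 ∂(Measure.pi fun _ : V => lav) ≤
      100 * ((k + 1) / h) / dbl (h + k) := by
  set A : Finset V := Finset.univ.filter (fun v => π (π v) = v) with hA
  have hAm : ∀ v ∈ A, π (π v) = v := fun v hv => (Finset.mem_filter.1 hv).2
  have hAcard : (A.card : ℝ) = 2 * h - 2 * k := by
    have h1 : (lg π).card + A.card = Fintype.card V := by
      have e : A = Finset.univ.filter (fun v => ¬ (π (π v) ≠ v)) := by
        rw [hA]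
        apply Finset.filter_congr
        intro v _
        rw [not_not]
      rw [e]
      exact Finset.card_filter_add_card_filter_not _
    have h2 : ((lg π).card : ℝ) + A.card = Fintype.card V := by exact_mod_cast h1
    rw [hk, hV] at h2
    push_cast at h2
    linarith
  have hkh : (k : ℝ) ≤ h := by
    have h1 : (lg π).card ≤ Fintype.card V := Finset.card_le_univ _
    rw [hk, hV] at h1
    have h2 : k ≤ h := by omega
    exact_mod_cast h2
  obtain ⟨i0, v0⟩ := momM_0 π h k hh hV hk
  have hexp : (fun x : V → ℝ => WW π x * (MM π x - 1 / 2) ^ 2) = fun x =>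
      (1 / 4) * (∑ v ∈ A, ∑ w ∈ A, WW π x * (x v * x (π v) * (x w * x (π w)))) -
      (1 / 2) * (∑ v ∈ A, WW π x * (x v * x (π v))) + (1 / 4) * WW π x := by
    funext x
    have e1 : ∑ v ∈ A, ∑ w ∈ A, WW π x * (x v * x (π v) * (x w * x (π w))) =
        WW π x * ((∑ v ∈ A, x v * x (π v)) * ∑ w ∈ A, x w * x (π w)) := by
      rw [Finset.sum_mul_sum, Finset.mul_sum]
      exact Finset.sum_congr rfl fun v _ => by rw [Finset.mul_sum]
    have e2 : ∑ v ∈ A, WW π x * (x v * x (π v)) = WW π x * ∑ v ∈ A, x v * x (π v) := by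
      rw [Finset.mul_sum]
    have e3 : MM π x = (∑ v ∈ A, x v * x (π v)) / 2 := rfl
    rw [e1, e2, e3]
    ring
  have i4 : Integrable (fun x : V → ℝ => ∑ v ∈ A, ∑ w ∈ A,
      WW π x * (x v * x (π v) * (x w * x (π w)))) (Measure.pi fun _ : V => lav) :=
    integrable_finsetSum _ fun v hv => integrable_finsetSum _ fun w hw =>
      (momM_4 π hf h k hh hV hk v w (hAm v hv) (hAm w hw)).1
  have i2 : Integrable (fun x : V → ℝ => ∑ v ∈ A, WW π x * (x v * x (π v)))
      (Measure.pi fun _ : V => lav) :=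
    integrable_finsetSum _ fun v hv => (momM_2 π hf h k hh hV hk v (hAm v hv)).1
  have v4 : ∫ x, (∑ v ∈ A, ∑ w ∈ A, WW π x * (x v * x (π v) * (x w * x (π w))))
      ∂(Measure.pi fun _ : V => lav) = A.card * (A.card + 6) / dbl (h + k + 2) := by
    rw [integral_finsetSum _ fun v hv => integrable_finsetSum _ fun w hw =>
      (momM_4 π hf h k hh hV hk v w (hAm v hv) (hAm w hw)).1]
    have e1 : ∀ v ∈ A, ∫ x, ∑ w ∈ A, WW π x * (x v * x (π v) * (x w * x (π w)))
        ∂(Measure.pi fun _ : V => lav) = (A.card + 6) / dbl (h + k + 2) := by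
      intro v hv
      rw [integral_finsetSum _ fun w hw =>
        (momM_4 π hf h k hh hV hk v w (hAm v hv) (hAm w hw)).1]
      rw [Finset.sum_congr rfl fun w hw =>
        (momM_4 π hf h k hh hV hk v w (hAm v hv) (hAm w hw)).2]
      rw [← Finset.sum_div]
      congr 1
      have hπv : π v ∈ A := by
        rw [hA, Finset.mem_filter]
        exact ⟨Finset.mem_univ _, by rw [hAm v hv]⟩
      rw [Finset.sum_add_distrib, Finset.sum_add_distrib, Finset.sum_ite_eq' A v,
        Finset.sum_ite_eq' A (π v), if_pos hv, if_pos hπv, Finset.sum_const, nsmul_eq_mul]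
      ring
    rw [Finset.sum_congr rfl e1, Finset.sum_const, nsmul_eq_mul]
    ring
  have v2 : ∫ x, (∑ v ∈ A, WW π x * (x v * x (π v)))
      ∂(Measure.pi fun _ : V => lav) = A.card / dbl (h + k + 1) := by
    rw [integral_finsetSum _ fun v hv => (momM_2 π hf h k hh hV hk v (hAm v hv)).1]
    rw [Finset.sum_congr rfl fun v hv => (momM_2 π hf h k hh hV hk v (hAm v hv)).2]
    rw [Finset.sum_const, nsmul_eq_mul]
    ring
  rw [hexp]
  have j4 := i4.const_mul (1 / 4)
  have j2 := i2.const_mul (1 / 2)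
  have j0 := i0.const_mul (1 / 4)
  refine ⟨(j4.sub j2).add j0, ?_⟩
  have hval : ∫ x, ((1 / 4) * (∑ v ∈ A, ∑ w ∈ A, WW π x * (x v * x (π v) * (x w * x (π w)))) -
      (1 / 2) * (∑ v ∈ A, WW π x * (x v * x (π v))) + (1 / 4) * WW π x)
      ∂(Measure.pi fun _ : V => lav) =
      (1 / 4) * (A.card * (A.card + 6) / dbl (h + k + 2)) - (1 / 2) * (A.card / dbl (h + k + 1)) +
      (1 / 4) * (1 / dbl (h + k)) := by
    have j42 : Integrable (fun x : V → ℝ =>
        (1 / 4) * (∑ v ∈ A, ∑ w ∈ A, WW π x * (x v * x (π v) * (x w * x (π w)))) -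
        (1 / 2) * (∑ v ∈ A, WW π x * (x v * x (π v)))) (Measure.pi fun _ : V => lav) := j4.sub j2
    rw [integral_add j42 j0, integral_sub j4 j2, integral_const_mul, integral_const_mul,
      integral_const_mul, v4, v2, v0]
  rw [hval, hAcard]
  have d1 : dbl (h + k + 1) = (2 * (h + k) + 1) * dbl (h + k) := by
    rw [dbl_succ]; push_cast; ring
  have d2 : dbl (h + k + 2) = (2 * (h + k) + 3) * ((2 * (h + k) + 1) * dbl (h + k)) := by
    rw [show h + k + 2 = (h + k + 1) + 1 by ring, dbl_succ, d1]; push_cast; ring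
  have hd := dbl_pos (h + k)
  rw [d1, d2]
  set Dd := dbl (h + k) with hDd
  have hh' : (1 : ℝ) ≤ h := by exact_mod_cast hh
  have hk0 : (0 : ℝ) ≤ k := by positivity
  have e1 : (1 / 4 : ℝ) * ((2 * h - 2 * k) * (2 * h - 2 * k + 6) /
      ((2 * (h + k) + 3) * ((2 * (h + k) + 1) * Dd))) -
      (1 / 2) * ((2 * h - 2 * k) / ((2 * (h + k) + 1) * Dd)) + (1 / 4) * (1 / Dd) =
      ((4 * k ^ 2 + 2 * h + 2 * k + 3 / 4) / ((2 * (h + k) + 3) * (2 * (h + k) + 1))) / Dd := by
    have p1 : (2 * ((h : ℝ) + k) + 3) ≠ 0 := by positivity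
    have p2 : (2 * ((h : ℝ) + k) + 1) ≠ 0 := by positivity
    field_simp
    ring
  rw [e1]
  apply div_le_div_of_nonneg_right _ hd.le
  rw [div_le_iff₀ (by positivity)]
  have e2 : (100 : ℝ) * ((k + 1) / h) * ((2 * (h + k) + 3) * (2 * (h + k) + 1)) =
      (100 * (k + 1) * ((2 * (h + k) + 3) * (2 * (h + k) + 1))) / h := by
    field_simp
  rw [e2, le_div_iff₀ (by linarith)]
  have q1 : (k : ℝ) ^ 2 ≤ k * h := by nlinarith
  have q2 : (4 * (k : ℝ) ^ 2 + 2 * h + 2 * k + 3 / 4) * h ≤ (4 * (k * h) + 5 * h) * h := by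
    apply mul_le_mul_of_nonneg_right _ (by linarith)
    nlinarith
  have q3 : 4 * (h : ℝ) ^ 2 ≤ (2 * (h + k) + 3) * (2 * (h + k) + 1) := by nlinarith
  have q4 : (4 * ((k : ℝ) * h) + 5 * h) * h ≤ 100 * (k + 1) * (4 * (h : ℝ) ^ 2) := by
    have : 0 ≤ (k : ℝ) * (h : ℝ) ^ 2 := by positivity
    nlinarith [sq_nonneg (h : ℝ)]
  have q5 : 100 * ((k : ℝ) + 1) * (4 * (h : ℝ) ^ 2) ≤
      100 * (k + 1) * ((2 * (h + k) + 3) * (2 * (h + k) + 1)) :=
    mul_le_mul_of_nonneg_left q3 (by positivity)
  linarith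

end Pool.Agent.Helper651.SR
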