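import Pool.Agent.Helper651.SRF.Defs
import Pool.Agent.Helper651.SRF.Moml

set_option autoImplicit false
open MeasureTheory Set Filter Topology Classical
open scoped ENNReal Nat

namespace Pool.Agent.Helper651.SR

theorem momQ {V : Type} [Fintype V] (π : Equiv.Perm V) (h k : ℕ) (hh : 1 ≤ h)
    (hV : Fintype.card V = 2 * h) (hk : (lg π).card = 2 * k) :
    Integrable (fun x : V → ℝ => WW π x * (∑ v, x v ^ 2 - 2) ^ 2)
      (Measure.pi fun _ : V => lav) ∧
    ∫ x, WW π x * (∑ v, x v ^ 2 - 2) ^ 2 ∂(Measure.pi fun _ : V => lav) ≤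
      100 * ((k + 1) / h) / dbl (h + k) := by
  have hn : (Finset.univ : Finset V).card = 2 * h := by
    rw [Finset.card_univ]
    exact hV
  have hne : Nonempty V := Fintype.card_pos_iff.1 (by omega)
  obtain ⟨v0⟩ := hne
  have hkh : k ≤ h := by
    have h1 : (lg π).card ≤ (Finset.univ : Finset V).card := Finset.card_le_univ _
    omega
  obtain ⟨D, hD⟩ : ∃ D, D = dbl (h + k) := ⟨_, rfl⟩
  have hDpos : 0 < D := by
    rw [hD]
    exact dbl_pos _
  obtain ⟨M, hM⟩ : ∃ M : ℝ, M = 2 * h + 2 * k := ⟨_, rfl⟩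
  have hD1 : dbl (h + k + 1) = (M + 1) * D := by
    rw [dbl_succ, hD, hM]
    push_cast
    ring
  have hD2 : dbl (h + k + 2) = (M + 3) * ((M + 1) * D) := by
    have h1 := dbl_succ (h + k + 1)
    have h2 : h + k + 1 + 1 = h + k + 2 := by ring
    rw [h2] at h1
    rw [h1, hD1, hM]
    push_cast
    ring
  have hD0 : dbl (h + k + 0) = D := by
    rw [add_zero, hD]
  obtain ⟨δ, hδ⟩ : ∃ δ : V → ℕ, ∀ v, δ v = if v ∈ lg π then 1 else 0 := ⟨_, fun _ => rfl⟩
  have hδ01 : ∀ v, δ v = 0 ∨ δ v = 1 := by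
    intro v
    rw [hδ v]
    split_ifs
    · exact Or.inr rfl
    · exact Or.inl rfl
  obtain ⟨a, ha⟩ : ∃ a : V → ℝ, ∀ v, a v = 2 + 4 * (δ v : ℝ) := ⟨_, fun _ => rfl⟩
  have ha2 : ∀ v, ((δ v + 2).factorial : ℝ) = a v := by
    intro v
    rw [ha v]
    rcases hδ01 v with h1 | h1 <;> rw [h1] <;> norm_num [Nat.factorial]
  have ha4 : ∀ v, ((δ v + 2 + 2).factorial : ℝ) ≤ a v * a v + 120 := by
    intro v
    rw [ha v]
    rcases hδ01 v with h1 | h1 <;> rw [h1] <;> norm_num [Nat.factorial]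
  have ha0 : ∀ v, ((δ v + 0 + 0).factorial : ℝ) = 1 := by
    intro v
    rcases hδ01 v with h1 | h1 <;> rw [h1] <;> norm_num [Nat.factorial]
  have hA := fun v w => mom2 π h k 2 2 2 hh hV hk rfl v w
  have hB := fun v => mom2 π h k 2 0 1 hh hV hk rfl v v
  have hC := mom2 π h k 0 0 0 hh hV hk rfl v0 v0
  simp only [← hδ] at hA hB hC
  rw [if_pos trivial, ha0, hD0] at hC
  have hB2 : ∀ v, ∫ x, WW π x * (x v ^ 2 * x v ^ 0) ∂(Measure.pi fun _ : V => lav) =
      a v / ((M + 1) * D) := by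
    intro v
    rw [(hB v).2, if_pos trivial, hD1, add_zero, ha2]
  have hMpos : 0 < M + 1 := by
    rw [hM]
    positivity
  have hMpos3 : 0 < M + 3 := by linarith
  have hA2 : ∀ v w, ∫ x, WW π x * (x v ^ 2 * x w ^ 2) ∂(Measure.pi fun _ : V => lav) ≤
      (a v * a w + (if v = w then 120 else 0)) / ((M + 3) * ((M + 1) * D)) := by
    intro v w
    rw [(hA v w).2, hD2]
    refine div_le_div_of_nonneg_right ?_ (by positivity)
    by_cases hvw : v = w
    · subst hvw
      rw [if_pos rfl, if_pos rfl]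
      exact ha4 v
    · rw [if_neg hvw, if_neg hvw, ha2, ha2, add_zero]
  have hb : ∑ v, a v = 4 * h + 8 * k := by
    have h1 : ∑ v, (δ v : ℝ) = 2 * k := by
      have h2 : ∑ v, δ v = 2 * k := by
        simp only [hδ]
        rw [← hk, Finset.sum_boole, Finset.filter_mem_eq_inter, Finset.univ_inter]
        rfl
      have h3 : ((∑ v, δ v : ℕ) : ℝ) = ((2 * k : ℕ) : ℝ) := by rw [h2]
      push_cast at h3
      exact h3
    simp only [ha]
    rw [Finset.sum_add_distrib, ← Finset.mul_sum, h1, Finset.sum_const, hn, nsmul_eq_mul]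
    push_cast
    ring
  have hF : (fun x : V → ℝ => WW π x * (∑ v, x v ^ 2 - 2) ^ 2) =
      fun x => ((∑ v, ∑ w, WW π x * (x v ^ 2 * x w ^ 2)) -
        4 * (∑ v, WW π x * (x v ^ 2 * x v ^ 0))) + 4 * (WW π x * (x v0 ^ 0 * x v0 ^ 0)) := by
    funext x
    have h1 : ∑ v, ∑ w, WW π x * (x v ^ 2 * x w ^ 2) =
        WW π x * ((∑ v, x v ^ 2) * (∑ w, x w ^ 2)) := by
      rw [Finset.sum_mul_sum, Finset.mul_sum]
      refine Finset.sum_congr rfl fun v _ => ?_
      rw [Finset.mul_sum]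
    have h2 : ∑ v, WW π x * (x v ^ 2 * x v ^ 0) = WW π x * ∑ v, x v ^ 2 := by
      rw [Finset.mul_sum]
      refine Finset.sum_congr rfl fun v _ => ?_
      rw [pow_zero, mul_one]
    rw [h1, h2]
    simp only [pow_zero, mul_one]
    ring
  have iA : Integrable (fun x : V → ℝ => ∑ v, ∑ w, WW π x * (x v ^ 2 * x w ^ 2))
      (Measure.pi fun _ : V => lav) :=
    integrable_finsetSum _ fun v _ => integrable_finsetSum _ fun w _ => (hA v w).1
  have iB : Integrable (fun x : V → ℝ => 4 * ∑ v, WW π x * (x v ^ 2 * x v ^ 0))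
      (Measure.pi fun _ : V => lav) :=
    (integrable_finsetSum _ fun v _ => (hB v).1).const_mul 4
  have iC : Integrable (fun x : V → ℝ => 4 * (WW π x * (x v0 ^ 0 * x v0 ^ 0)))
      (Measure.pi fun _ : V => lav) := hC.1.const_mul 4
  have iAB : Integrable (fun x : V → ℝ => (∑ v, ∑ w, WW π x * (x v ^ 2 * x w ^ 2)) -
      4 * ∑ v, WW π x * (x v ^ 2 * x v ^ 0)) (Measure.pi fun _ : V => lav) := iA.sub iB
  rw [hF]
  refine ⟨iAB.add iC, ?_⟩
  rw [integral_add iAB iC, integral_sub iA iB, integral_const_mul, integral_const_mul, hC.2,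
    integral_finsetSum _ (fun v _ => integrable_finsetSum _ fun w _ => (hA v w).1),
    integral_finsetSum _ (fun v _ => (hB v).1)]
  have e1 : ∑ v, ∫ x, ∑ w, WW π x * (x v ^ 2 * x w ^ 2) ∂(Measure.pi fun _ : V => lav) ≤
      ((4 * h + 8 * k) ^ 2 + 240 * h) / ((M + 3) * ((M + 1) * D)) := by
    calc ∑ v, ∫ x, ∑ w, WW π x * (x v ^ 2 * x w ^ 2) ∂(Measure.pi fun _ : V => lav)
        = ∑ v, ∑ w, ∫ x, WW π x * (x v ^ 2 * x w ^ 2) ∂(Measure.pi fun _ : V => lav) :=
          Finset.sum_congr rfl fun v _ => integral_finsetSum _ fun w _ => (hA v w).1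
      _ ≤ ∑ v, ∑ w, (a v * a w + (if v = w then 120 else 0)) / ((M + 3) * ((M + 1) * D)) :=
          Finset.sum_le_sum fun v _ => Finset.sum_le_sum fun w _ => hA2 v w
      _ = ((4 * h + 8 * k) ^ 2 + 240 * h) / ((M + 3) * ((M + 1) * D)) := by
          simp only [← Finset.sum_div]
          congr 1
          simp only [Finset.sum_add_distrib, ← Finset.mul_sum, ← Finset.sum_mul,
            Finset.sum_ite_eq, Finset.mem_univ, if_true, hb, Finset.sum_const, hn,
            nsmul_eq_mul]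
          push_cast
          ring
  have e2 : ∑ v, ∫ x, WW π x * (x v ^ 2 * x v ^ 0) ∂(Measure.pi fun _ : V => lav) =
      (4 * h + 8 * k) / ((M + 1) * D) := by
    rw [Finset.sum_congr rfl fun v _ => hB2 v, ← Finset.sum_div, hb]
  rw [e2, ← hD]
  have hh0 : (1 : ℝ) ≤ h := by exact_mod_cast hh
  have hk0 : (0 : ℝ) ≤ k := by positivity
  have hkh' : (k : ℝ) ≤ h := by exact_mod_cast hkh
  have e3 : ((4 * (h : ℝ) + 8 * k) ^ 2 + 240 * h) / ((M + 3) * ((M + 1) * D)) -
      4 * ((4 * h + 8 * k) / ((M + 1) * D)) + 4 * (1 / D) =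
      ((4 * k - 6) ^ 2 - 8 * (M + 3) + 240 * h) / ((M + 3) * ((M + 1) * D)) := by
    rw [hM] at *
    field_simp
    ring
  have e4 : ((4 * (k : ℝ) - 6) ^ 2 - 8 * (M + 3) + 240 * h) / ((M + 3) * ((M + 1) * D)) ≤
      100 * ((k + 1) / h) / D := by
    rw [div_le_div_iff₀ (by positivity) hDpos]
    have e5 : 100 * (((k : ℝ) + 1) / h) * ((M + 3) * ((M + 1) * D)) =
        (100 * (k + 1) * ((M + 3) * (M + 1)) / h) * D := by
      field_simp
    rw [e5]
    refine mul_le_mul_of_nonneg_right ?_ hDpos.le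
    rw [le_div_iff₀ (by linarith)]
    have e6 : (4 * (k : ℝ) - 6) ^ 2 - 8 * (M + 3) + 240 * h ≤ 400 * (k + 1) * h := by
      rw [hM]
      nlinarith
    have e7 : 4 * (h : ℝ) ^ 2 ≤ (M + 3) * (M + 1) := by
      rw [hM]
      nlinarith
    calc ((4 * (k : ℝ) - 6) ^ 2 - 8 * (M + 3) + 240 * h) * h ≤
        (400 * (k + 1) * h) * h := mul_le_mul_of_nonneg_right e6 (by linarith)
      _ = 100 * (k + 1) * (4 * h ^ 2) := by ring
      _ ≤ 100 * (k + 1) * ((M + 3) * (M + 1)) :=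
        mul_le_mul_of_nonneg_left e7 (by positivity)
  linarith

end Pool.Agent.Helper651.SR
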