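import Pool.Agent.Helper651.SRF.Defs

set_option autoImplicit false
open MeasureTheory Set Filter Topology Classical
open scoped ENNReal Nat

namespace Pool.Agent.Helper651.SR

theorem meas_SP {V : Type} [Fintype V] (π : Equiv.Perm V) :
    MeasurableSet {U : V × V → ℝ | SP U π} := by
  have h : {U : V × V → ℝ | SP U π} =
      {U : V × V → ℝ | ∀ v, π v ≠ v} ∩ ((⋂ v : V, {U : V × V → ℝ | U (v, π v) ≤ U (v, π⁻¹ v)}) ∩
        ⋂ u : V, ⋂ w : V, ({U : V × V → ℝ | u ≠ w}ᶜ ∪
          ({U : V × V → ℝ | U (u, w) < U (u, π⁻¹ u)} ∩ {U : V × V → ℝ | U (w, u) < U (w, π⁻¹ w)})ᶜ)) := by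
    ext U
    simp only [Set.mem_setOf_eq, Set.mem_inter_iff, Set.mem_iInter, Set.mem_union,
      Set.mem_compl_iff]
    constructor
    · intro hU
      refine ⟨hU.nofix, hU.le, fun u w => ?_⟩
      by_cases huw : u ≠ w
      · exact Or.inr (hU.nb u w huw)
      · exact Or.inl huw
    · rintro ⟨h1, h2, h3⟩
      refine ⟨h1, h2, fun u w huw => ?_⟩
      rcases h3 u w with h | h
      · exact absurd huw h
      · exact h
  rw [h]
  have hm : ∀ p : V × V, Measurable (fun U : V × V → ℝ => U p) := fun p => measurable_pi_apply p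
  apply MeasurableSet.inter (MeasurableSet.const _)
  apply MeasurableSet.inter
  · exact MeasurableSet.iInter fun v =>
      measurableSet_le (hm (v, π v)) (hm (v, π⁻¹ v))
  · refine MeasurableSet.iInter fun u => MeasurableSet.iInter fun w => ?_
    apply MeasurableSet.union (MeasurableSet.const _).compl
    exact ((measurableSet_lt (hm (u, w)) (hm (u, π⁻¹ u))).inter
      (measurableSet_lt (hm (w, u)) (hm (w, π⁻¹ w)))).compl

end Pool.Agent.Helper651.SR
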