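import Pool.Agent.Helper651.SRF.Defs
import Pool.Agent.Helper651.SR.G1
import Pool.Agent.Helper651.SRF.MeasSp

set_option autoImplicit false
open MeasureTheory Set Filter Topology Classical
open scoped ENNReal Nat

namespace Pool.Agent.Helper651.SR

/-- invariance under the change of the coordinates in `C` -/
def PAInv {ι : Type} {β : Type} (C : Set ι) (f : (ι → ℝ) → β) : Prop :=
  ∀ (U U' : ι → ℝ), (∀ q, q ∉ C → U' q = U q) → f U' = f U

theorem pA_ind {ι κ : Type} [Fintype ι] (Q : Set (ι → ℝ)) (nb e : κ → (ι → ℝ) → ℝ≥0∞)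
    (C : κ → Set ι) (hnb : ∀ p, Measurable (nb p)) (he : ∀ p, Measurable (e p)) (T : Finset κ)
    (h1 : ∀ p ∈ T, ∀ q ∈ T, PAInv (C q) (e p))
    (h2 : ∀ p ∈ T, ∀ q ∈ T, q ≠ p → PAInv (C q) (nb p))
    (h3 : ∀ p ∈ T, ∀ ψ : (ι → ℝ) → ℝ≥0∞, Measurable ψ → PAInv (C p) ψ →
      (∀ U, U ∉ Q → ψ U = 0) →
      ∫⁻ U, ψ U * nb p U ∂(Measure.pi fun _ : ι => lam) =
        ∫⁻ U, ψ U * e p U ∂(Measure.pi fun _ : ι => lam))
    (R : (ι → ℝ) → ℝ≥0∞) (hR : Measurable R) (hRi : ∀ q ∈ T, PAInv (C q) R)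
    (hRQ : ∀ U, U ∉ Q → R U = 0) :
    ∫⁻ U, R U * ∏ p ∈ T, nb p U ∂(Measure.pi fun _ : ι => lam) =
      ∫⁻ U, R U * ∏ p ∈ T, e p U ∂(Measure.pi fun _ : ι => lam) := by
  induction T using Finset.induction_on generalizing R with
  | empty => simp
  | insert p T hp ih =>
    have hstep := h3 p (Finset.mem_insert_self _ _) (fun U => R U * ∏ q ∈ T, nb q U)
      (hR.mul (Finset.measurable_prod _ (fun q _ => hnb q)))
      (by
        intro U U' hi
        show R U' * ∏ q ∈ T, nb q U' = R U * ∏ q ∈ T, nb q U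
        rw [hRi p (Finset.mem_insert_self _ _) U U' hi]
        congr 1
        refine Finset.prod_congr rfl (fun q hq => ?_)
        exact h2 q (Finset.mem_insert_of_mem hq) p (Finset.mem_insert_self _ _)
          (fun h => hp (h ▸ hq)) U U' hi)
      (by
        intro U hU
        show R U * ∏ q ∈ T, nb q U = 0
        rw [hRQ U hU, zero_mul])
    have hih := ih (fun a ha b hb => h1 a (Finset.mem_insert_of_mem ha) b
        (Finset.mem_insert_of_mem hb))
      (fun a ha b hb => h2 a (Finset.mem_insert_of_mem ha) b (Finset.mem_insert_of_mem hb))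
      (fun a ha => h3 a (Finset.mem_insert_of_mem ha))
      (fun U => R U * e p U) (hR.mul (he p))
      (by
        intro q hq U U' hi
        show R U' * e p U' = R U * e p U
        rw [hRi q (Finset.mem_insert_of_mem hq) U U' hi,
          h1 p (Finset.mem_insert_self _ _) q (Finset.mem_insert_of_mem hq) U U' hi])
      (by
        intro U hU
        show R U * e p U = 0
        rw [hRQ U hU, zero_mul])
    calc ∫⁻ U, R U * ∏ q ∈ insert p T, nb q U ∂(Measure.pi fun _ : ι => lam)
        = ∫⁻ U, (R U * ∏ q ∈ T, nb q U) * nb p U ∂(Measure.pi fun _ : ι => lam) := by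
          refine lintegral_congr (fun U => ?_)
          rw [Finset.prod_insert hp]; ring
      _ = ∫⁻ U, (R U * ∏ q ∈ T, nb q U) * e p U ∂(Measure.pi fun _ : ι => lam) := hstep
      _ = ∫⁻ U, (R U * e p U) * ∏ q ∈ T, nb q U ∂(Measure.pi fun _ : ι => lam) := by
          refine lintegral_congr (fun U => ?_)
          ring
      _ = ∫⁻ U, (R U * e p U) * ∏ q ∈ T, e q U ∂(Measure.pi fun _ : ι => lam) := hih
      _ = ∫⁻ U, R U * ∏ q ∈ insert p T, e q U ∂(Measure.pi fun _ : ι => lam) := by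
          refine lintegral_congr (fun U => ?_)
          rw [Finset.prod_insert hp]; ring

theorem pA_lam {a : ℝ} (ha : a ∈ Icc (0:ℝ) 1) : lam (Iio a) = ENNReal.ofReal a := by
  have h1 : Iio a ∩ Icc (0:ℝ) 1 = Ico 0 a := by
    ext t
    simp only [mem_inter_iff, mem_Iio, mem_Icc, mem_Ico]
    constructor
    · rintro ⟨h, h2, h3⟩; exact ⟨h2, h⟩
    · rintro ⟨h, h2⟩; exact ⟨h2, h, h2.le.trans ha.2⟩
  rw [lam, Measure.restrict_apply measurableSet_Iio, h1, Real.volume_Ico, sub_zero]

theorem pA_lam' {a : ℝ} (ha : a ∈ Icc (0:ℝ) 1) : lam (Iic a) = ENNReal.ofReal a := by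
  have h1 : Iic a ∩ Icc (0:ℝ) 1 = Icc 0 a := by
    ext t
    simp only [mem_inter_iff, mem_Iic, mem_Icc]
    constructor
    · rintro ⟨h, h2, h3⟩; exact ⟨h2, h⟩
    · rintro ⟨h, h2⟩; exact ⟨h2, h, h2.trans ha.2⟩
  rw [lam, Measure.restrict_apply measurableSet_Iic, h1, Real.volume_Icc, sub_zero]

theorem pA_int {a b : ℝ} (ha : a ∈ Icc (0:ℝ) 1) (hb : b ∈ Icc (0:ℝ) 1) :
    ∫⁻ s, ∫⁻ t, (if s < a ∧ t < b then (0:ℝ≥0∞) else 1) ∂lam ∂lam =
      ENNReal.ofReal (1 - a * b) := by
  have hms : MeasurableSet ((Iio a ×ˢ Iio b) : Set (ℝ × ℝ)) :=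
    measurableSet_Iio.prod measurableSet_Iio
  have h1 : ∫⁻ s, ∫⁻ t, (if s < a ∧ t < b then (0:ℝ≥0∞) else 1) ∂lam ∂lam =
      ∫⁻ z, ((Iio a ×ˢ Iio b)ᶜ : Set (ℝ × ℝ)).indicator 1 z ∂(lam.prod lam) := by
    rw [lintegral_prod]
    · refine lintegral_congr (fun s => lintegral_congr (fun t => ?_))
      by_cases h : s < a ∧ t < b
      · rw [if_pos h, indicator_of_notMem]
        simp [h.1, h.2]
      · rw [if_neg h, indicator_of_mem]
        · rfl
        · simp only [mem_compl_iff, mem_prod, mem_Iio]; exact h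
    · exact (measurable_one.indicator hms.compl).aemeasurable
  rw [h1, lintegral_indicator_one hms.compl, prob_compl_eq_one_sub hms, Measure.prod_prod,
    pA_lam ha, pA_lam hb, ← ENNReal.ofReal_mul ha.1]
  rw [show (1:ℝ≥0∞) = ENNReal.ofReal 1 by simp, ← ENNReal.ofReal_sub _ (mul_nonneg ha.1 hb.1)]

theorem pA_out2 {ι : Type} [Fintype ι] (Q : Set (ι → ℝ)) (i j : ι) (hij : i ≠ j)
    (a b : (ι → ℝ) → ℝ) (ha : Measurable a) (hb : Measurable b) (C : Set ι) (hiC : i ∈ C)
    (hjC : j ∈ C) (hai : PAInv C a) (hbi : PAInv C b)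
    (haQ : ∀ U ∈ Q, a U ∈ Icc (0:ℝ) 1) (hbQ : ∀ U ∈ Q, b U ∈ Icc (0:ℝ) 1)
    (ψ : (ι → ℝ) → ℝ≥0∞) (hψ : Measurable ψ) (hψi : PAInv C ψ)
    (hψQ : ∀ U, U ∉ Q → ψ U = 0) :
    ∫⁻ U, ψ U * (if U i < a U ∧ U j < b U then 0 else 1) ∂(Measure.pi fun _ : ι => lam) =
      ∫⁻ U, ψ U * ENNReal.ofReal (1 - a U * b U) ∂(Measure.pi fun _ : ι => lam) := by
  have hF : Measurable (fun U : ι → ℝ => ψ U *
      (if U i < a U ∧ U j < b U then (0:ℝ≥0∞) else 1)) := by
    refine hψ.mul (Measurable.ite ?_ measurable_const measurable_const)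
    exact (measurableSet_lt (measurable_pi_apply i) ha).inter
      (measurableSet_lt (measurable_pi_apply j) hb)
  have hG : Measurable (fun U : ι → ℝ => ψ U * ENNReal.ofReal (1 - a U * b U)) :=
    hψ.mul (ENNReal.measurable_ofReal.comp (measurable_const.sub (ha.mul hb)))
  have key : ∀ U : ι → ℝ,
      ∫⁻ s, ∫⁻ t, (fun U : ι → ℝ => ψ U * (if U i < a U ∧ U j < b U then (0:ℝ≥0∞) else 1))
        (Function.update (Function.update U i s) j t) ∂lam ∂lam =
      ∫⁻ s, ∫⁻ t, (fun U : ι → ℝ => ψ U * ENNReal.ofReal (1 - a U * b U))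
        (Function.update (Function.update U i s) j t) ∂lam ∂lam := by
    intro U
    have e0 : ∀ s t, ∀ q, q ∉ C → Function.update (Function.update U i s) j t q = U q := by
      intro s t q hq
      have n1 : q ≠ j := fun h => hq (by rw [h]; exact hjC)
      have n2 : q ≠ i := fun h => hq (by rw [h]; exact hiC)
      rw [Function.update_of_ne n1, Function.update_of_ne n2]
    have eψ : ∀ s t, ψ (Function.update (Function.update U i s) j t) = ψ U :=
      fun s t => hψi _ _ (e0 s t)
    have ea : ∀ s t, a (Function.update (Function.update U i s) j t) = a U :=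
      fun s t => hai _ _ (e0 s t)
    have eb : ∀ s t, b (Function.update (Function.update U i s) j t) = b U :=
      fun s t => hbi _ _ (e0 s t)
    have ei : ∀ s t, Function.update (Function.update U i s) j t i = s := by
      intro s t
      rw [Function.update_of_ne hij, Function.update_self]
    have ej : ∀ s t, Function.update (Function.update U i s) j t j = t := by
      intro s t
      rw [Function.update_self]
    simp only [eψ, ea, eb, ei, ej]
    simp only [lintegral_const, measure_univ, mul_one]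
    by_cases hU : U ∈ Q
    · have hmm : ∀ s : ℝ, Measurable (fun t : ℝ =>
          if s < a U ∧ t < b U then (0:ℝ≥0∞) else 1) := by
        intro s
        refine Measurable.ite ?_ measurable_const measurable_const
        by_cases hs : s < a U
        · simp only [hs, true_and]; exact measurableSet_Iio
        · simp only [hs, false_and]; exact MeasurableSet.empty
      have hmm2 : Measurable (fun s : ℝ => ∫⁻ t,
          (if s < a U ∧ t < b U then (0:ℝ≥0∞) else 1) ∂lam) := by
        have h0 : Measurable (Function.uncurry fun s t : ℝ =>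
          (if s < a U ∧ t < b U then (0:ℝ≥0∞) else 1)) := by
          refine Measurable.ite ?_ measurable_const measurable_const
          exact (measurableSet_lt measurable_fst measurable_const).inter
            (measurableSet_lt measurable_snd measurable_const)
        exact Measurable.lintegral_prod_right h0
      have h1 : ∀ s : ℝ, ∫⁻ t, ψ U * (if s < a U ∧ t < b U then (0:ℝ≥0∞) else 1) ∂lam =
          ψ U * ∫⁻ t, (if s < a U ∧ t < b U then (0:ℝ≥0∞) else 1) ∂lam := by
        intro s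
        exact lintegral_const_mul _ (hmm s)
      simp only [h1]
      rw [lintegral_const_mul _ hmm2, pA_int (haQ U hU) (hbQ U hU)]
    · simp [hψQ U hU]
  refine le_antisymm ?_ ?_
  · exact G2 i j hij _ _ hF hG (fun U => (key U).le)
  · exact G2 i j hij _ _ hG hF (fun U => (key U).ge)

theorem pA_out1 {ι : Type} [Fintype ι] (Q : Set (ι → ℝ)) (i : ι)
    (a : (ι → ℝ) → ℝ) (ha : Measurable a) (C : Set ι) (hiC : i ∈ C)
    (hai : PAInv C a) (haQ : ∀ U ∈ Q, a U ∈ Icc (0:ℝ) 1)
    (ψ : (ι → ℝ) → ℝ≥0∞) (hψ : Measurable ψ) (hψi : PAInv C ψ)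
    (hψQ : ∀ U, U ∉ Q → ψ U = 0) :
    ∫⁻ U, ψ U * (if U i ≤ a U then 1 else 0) ∂(Measure.pi fun _ : ι => lam) =
      ∫⁻ U, ψ U * ENNReal.ofReal (a U) ∂(Measure.pi fun _ : ι => lam) := by
  have hF : Measurable (fun U : ι → ℝ => ψ U * (if U i ≤ a U then (1:ℝ≥0∞) else 0)) := by
    refine hψ.mul (Measurable.ite ?_ measurable_const measurable_const)
    exact measurableSet_le (measurable_pi_apply i) ha
  have hG : Measurable (fun U : ι → ℝ => ψ U * ENNReal.ofReal (a U)) :=
    hψ.mul (ENNReal.measurable_ofReal.comp ha)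
  have key : ∀ U : ι → ℝ,
      ∫⁻ s, (fun U : ι → ℝ => ψ U * (if U i ≤ a U then (1:ℝ≥0∞) else 0))
        (Function.update U i s) ∂lam =
      ∫⁻ s, (fun U : ι → ℝ => ψ U * ENNReal.ofReal (a U)) (Function.update U i s) ∂lam := by
    intro U
    have e0 : ∀ s, ∀ q, q ∉ C → Function.update U i s q = U q := by
      intro s q hq
      have n2 : q ≠ i := fun h => hq (by rw [h]; exact hiC)
      rw [Function.update_of_ne n2]
    have eψ : ∀ s, ψ (Function.update U i s) = ψ U := fun s => hψi _ _ (e0 s)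
    have ea : ∀ s, a (Function.update U i s) = a U := fun s => hai _ _ (e0 s)
    simp only [eψ, ea, Function.update_self]
    simp only [lintegral_const, measure_univ, mul_one]
    by_cases hU : U ∈ Q
    · have hmm : Measurable (fun t : ℝ => if t ≤ a U then (1:ℝ≥0∞) else 0) :=
        Measurable.ite measurableSet_Iic measurable_const measurable_const
      rw [lintegral_const_mul _ hmm]
      congr 1
      have h1 : (fun t : ℝ => if t ≤ a U then (1:ℝ≥0∞) else 0) = (Iic (a U)).indicator 1 := by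
        funext t
        by_cases h : t ≤ a U
        · rw [if_pos h, indicator_of_mem (show t ∈ Iic (a U) from h)]; rfl
        · rw [if_neg h, indicator_of_notMem (show t ∉ Iic (a U) from h)]
      rw [h1, lintegral_indicator_one measurableSet_Iic, pA_lam' (haQ U hU)]
    · simp [hψQ U hU]
  refine le_antisymm ?_ ?_
  · exact G1 i _ _ hF hG (fun U => (key U).le)
  · exact G1 i _ _ hG hF (fun U => (key U).ge)

theorem pA_map {V : Type} [Fintype V] (m : V → V) :
    (mu V).map (fun U : V × V → ℝ => fun v => U (v, m v)) = Measure.pi fun _ : V => lam := by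
  symm
  apply Measure.pi_eq
  intro s hs
  have hmeas : Measurable (fun U : V × V → ℝ => fun v => U (v, m v)) :=
    measurable_pi_lambda _ (fun v => measurable_pi_apply _)
  rw [Measure.map_apply hmeas (MeasurableSet.univ_pi hs)]
  have h1 : (fun U : V × V → ℝ => fun v => U (v, m v)) ⁻¹' (univ.pi s) =
      univ.pi (fun p : V × V => if p.2 = m p.1 then s p.1 else univ) := by
    ext U
    simp only [mem_preimage, Set.mem_pi, mem_univ, forall_const]
    constructor
    · intro h p
      by_cases hp : p.2 = m p.1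
      · rw [if_pos hp]
        have := h p.1
        rw [← hp] at this
        exact this
      · rw [if_neg hp]; exact mem_univ _
    · intro h v
      have := h (v, m v)
      simpa using this
  rw [h1, mu, Measure.pi_pi, Fintype.prod_prod_type]
  refine Finset.prod_congr rfl (fun a _ => ?_)
  rw [Finset.prod_eq_single (m a)]
  · simp
  · intro b _ hb
    have : ¬ (b = m a) := hb
    simp [this]
  · intro h; exact absurd (Finset.mem_univ _) h

theorem pA_NN {V : Type} [Fintype V] (π : Equiv.Perm V) (rk : V → ℕ)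
    (hrk : Function.Injective rk) (x : V → ℝ) (hx : ∀ v, x v ∈ Icc (0:ℝ) 1) :
    NN π x = ∏ p ∈ (nonadj π).filter (fun p => rk p.1 < rk p.2), (1 - x p.1 * x p.2) := by
  have hnn : 0 ≤ ∏ p ∈ (nonadj π).filter (fun p => rk p.1 < rk p.2), (1 - x p.1 * x p.2) := by
    refine Finset.prod_nonneg (fun p _ => ?_)
    nlinarith [(hx p.1).1, (hx p.1).2, (hx p.2).1, (hx p.2).2]
  have hsw : ∏ p ∈ (nonadj π).filter (fun p => ¬ rk p.1 < rk p.2), (1 - x p.1 * x p.2) =
      ∏ p ∈ (nonadj π).filter (fun p => rk p.1 < rk p.2), (1 - x p.1 * x p.2) := by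
    refine Finset.prod_nbij' (fun p => (p.2, p.1)) (fun p => (p.2, p.1)) ?_ ?_ ?_ ?_ ?_
    · intro p hp
      simp only [nonadj, Finset.mem_filter, Finset.mem_univ, true_and] at hp ⊢
      obtain ⟨⟨h1, h2, h3⟩, h4⟩ := hp
      refine ⟨⟨fun h => h1 h.symm, h3, h2⟩, ?_⟩
      rcases lt_trichotomy (rk p.2) (rk p.1) with h | h | h
      · exact h
      · exact absurd (hrk h).symm h1
      · exact absurd h h4
    · intro p hp
      simp only [nonadj, Finset.mem_filter, Finset.mem_univ, true_and] at hp ⊢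
      obtain ⟨⟨h1, h2, h3⟩, h4⟩ := hp
      exact ⟨⟨fun h => h1 h.symm, h3, h2⟩, not_lt.2 h4.le⟩
    · intro p _; rfl
    · intro p _; rfl
    · intro p _
      show 1 - x p.1 * x p.2 = 1 - x p.2 * x p.1
      ring
  unfold NN
  rw [← Finset.prod_filter_mul_prod_filter_not (nonadj π) (fun p => rk p.1 < rk p.2), hsw,
    Real.sqrt_mul_self hnn]

theorem pA_SP {V : Type} [Fintype V] (π : Equiv.Perm V) (hf : ∀ v, π v ≠ v) (rk : V → ℕ)
    (hrk : Function.Injective rk) (U : V × V → ℝ) :
    SP U π ↔ (∀ v ∈ lg π, U (v, π v) ≤ U (v, π⁻¹ v)) ∧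
      (∀ p ∈ (nonadj π).filter (fun p => rk p.1 < rk p.2),
        ¬ (U (p.1, p.2) < U (p.1, π⁻¹ p.1) ∧ U (p.2, p.1) < U (p.2, π⁻¹ p.2))) := by
  constructor
  · intro h
    refine ⟨fun v _ => h.le v, fun p hp => ?_⟩
    simp only [nonadj, Finset.mem_filter, Finset.mem_univ, true_and] at hp
    exact h.nb p.1 p.2 hp.1.1
  · rintro ⟨h1, h2⟩
    refine ⟨hf, ?_, ?_⟩
    · intro v
      by_cases hv : v ∈ lg π
      · exact h1 v hv
      · simp only [lg, Finset.mem_filter, Finset.mem_univ, true_and, not_not] at hv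
        have : π v = π⁻¹ v := by
          rw [Equiv.Perm.eq_inv_iff_eq]; exact hv
        rw [this]
    · intro u w huw
      by_cases hA : w = π u
      · have : π⁻¹ w = u := by rw [hA]; simp
        rw [this]
        exact fun h => lt_irrefl _ h.2
      · by_cases hB : u = π w
        · have : π⁻¹ u = w := by rw [hB]; simp
          rw [this]
          exact fun h => lt_irrefl _ h.1
        · rcases lt_trichotomy (rk u) (rk w) with h | h | h
          · refine h2 (u, w) ?_
            simp only [nonadj, Finset.mem_filter, Finset.mem_univ, true_and]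
            exact ⟨⟨huw, hA, hB⟩, h⟩
          · exact absurd (hrk h) huw
          · have := h2 (w, u) (by
              simp only [nonadj, Finset.mem_filter, Finset.mem_univ, true_and]
              exact ⟨⟨fun hh => huw hh.symm, hB, hA⟩, h⟩)
            exact fun hh => this ⟨hh.2, hh.1⟩

theorem probA {V : Type} [Fintype V] (π : Equiv.Perm V) (hf : ∀ v, π v ≠ v) :
    mu V {U | SP U π} =
      ∫⁻ x, ENNReal.ofReal ((∏ v ∈ lg π, x v) * NN π x) ∂(Measure.pi fun _ : V => lam) := by
  obtain ⟨rk, hrk⟩ : ∃ rk : V → ℕ, Function.Injective rk :=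
    ⟨fun v => (Fintype.equivFin V v : ℕ), fun a b h =>
      (Fintype.equivFin V).injective (Fin.ext h)⟩
  set S : Finset (V × V) := (nonadj π).filter (fun p => rk p.1 < rk p.2) with hS
  have hSm : ∀ p ∈ S, (p.1 ≠ p.2 ∧ p.2 ≠ π p.1 ∧ p.1 ≠ π p.2) ∧ rk p.1 < rk p.2 := by
    intro p hp
    simpa [hS, nonadj] using hp
  set Q : Set (V → ℝ) := {x | ∀ v, x v ∈ Icc (0:ℝ) 1} with hQ
  have hQm : MeasurableSet Q := by
    have : Q = univ.pi (fun _ : V => Icc (0:ℝ) 1) := by
      ext x
      constructor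
      · intro h v _; exact h v
      · intro h v; exact h v (mem_univ v)
    rw [this]
    exact MeasurableSet.univ_pi (fun _ => measurableSet_Icc)
  set X : (V × V → ℝ) → (V → ℝ) := fun U v => U (v, π⁻¹ v) with hX
  have hXm : Measurable X := measurable_pi_lambda _ (fun v => measurable_pi_apply _)
  set K : (V → ℝ) → ℝ≥0∞ := Q.indicator 1 with hK
  have hKm : Measurable K := measurable_one.indicator hQm
  have hK0 : ∀ x, x ∉ Q → K x = 0 := fun x hx => indicator_of_notMem hx _
  have hK1 : ∀ x, x ∈ Q → K x = 1 := fun x hx => by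
    rw [hK, indicator_of_mem hx]; rfl
  have haeQ : ∀ᵐ x ∂(Measure.pi fun _ : V => lam), x ∈ Q := by
    have h2 : ∀ v : V, ∀ᵐ x ∂(Measure.pi fun _ : V => lam), x v ∈ Icc (0:ℝ) 1 := by
      intro v
      have h3 : ∀ᵐ t ∂lam, t ∈ Icc (0:ℝ) 1 := ae_restrict_mem measurableSet_Icc
      have h4 := (measurePreserving_eval (fun _ : V => lam) v).quasiMeasurePreserving.ae h3
      exact h4
    exact ae_all_iff.2 h2
  have hae : ∀ᵐ U ∂(mu V), X U ∈ Q := by
    have h1 : ∀ᵐ x ∂((mu V).map (fun U : V × V → ℝ => fun v => U (v, π⁻¹ v))), x ∈ Q := by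
      rw [pA_map (fun v => π⁻¹ v)]
      exact haeQ
    exact ae_of_ae_map hXm.aemeasurable h1
  -- the factors
  set le1 : V → (V × V → ℝ) → ℝ≥0∞ := fun v U => if U (v, π v) ≤ X U v then 1 else 0 with hle1
  set e1 : V → (V × V → ℝ) → ℝ≥0∞ := fun v U => ENNReal.ofReal (X U v) with he1
  set nb2 : V × V → (V × V → ℝ) → ℝ≥0∞ := fun p U =>
    if U (p.1, p.2) < X U p.1 ∧ U (p.2, p.1) < X U p.2 then 0 else 1 with hnb2
  set e2 : V × V → (V × V → ℝ) → ℝ≥0∞ := fun p U =>
    ENNReal.ofReal (1 - X U p.1 * X U p.2) with he2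
  have hXv : ∀ v, Measurable (fun U => X U v) := fun v => (measurable_pi_apply v).comp hXm
  have mle1 : ∀ v, Measurable (le1 v) := fun v =>
    Measurable.ite (measurableSet_le (measurable_pi_apply _) (hXv v)) measurable_const
      measurable_const
  have me1 : ∀ v, Measurable (e1 v) := fun v => ENNReal.measurable_ofReal.comp (hXv v)
  have mnb2 : ∀ p, Measurable (nb2 p) := fun p =>
    Measurable.ite ((measurableSet_lt (measurable_pi_apply _) (hXv p.1)).inter
      (measurableSet_lt (measurable_pi_apply _) (hXv p.2))) measurable_const measurable_const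
  have me2 : ∀ p, Measurable (e2 p) := fun p =>
    ENNReal.measurable_ofReal.comp (measurable_const.sub ((hXv p.1).mul (hXv p.2)))
  -- coordinates
  let C1 : V → Set (V × V) := fun v => {(v, π v)}
  let C2 : V × V → Set (V × V) := fun p => {(p.1, p.2), (p.2, p.1)}
  have invX2 : ∀ p ∈ S, ∀ v, PAInv (C2 p) (fun U => X U v) := by
    intro p hp v U U' hi
    obtain ⟨⟨h1, h2, h3⟩, h4⟩ := hSm p hp
    show U' (v, π⁻¹ v) = U (v, π⁻¹ v)
    refine hi _ ?_
    intro hi
    rcases hi with hi | hi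
    · have e1 : v = p.1 := congrArg Prod.fst hi
      have e2 : π⁻¹ v = p.2 := congrArg Prod.snd hi
      apply h3
      rw [← e1, ← e2]; simp
    · have e1 : v = p.2 := congrArg Prod.fst hi
      have e2 : π⁻¹ v = p.1 := congrArg Prod.snd hi
      apply h2
      rw [← e1, ← e2]; simp
  have invX1 : ∀ w ∈ lg π, ∀ v, PAInv (C1 w) (fun U => X U v) := by
    intro w hw v U U' hi
    have hw' : π (π w) ≠ w := by simpa [lg] using hw
    show U' (v, π⁻¹ v) = U (v, π⁻¹ v)
    refine hi _ ?_
    intro hi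
    have e1 : v = w := congrArg Prod.fst hi
    have e2 : π⁻¹ v = π w := congrArg Prod.snd hi
    apply hw'
    rw [← e2, ← e1]; simp
  have invE2 : ∀ (C : Set (V × V)), (∀ v, PAInv C (fun U => X U v)) →
      ∀ p, PAInv C (e2 p) := by
    intro C hC p U U' hi
    have a1 : X U' p.1 = X U p.1 := hC p.1 U U' hi
    have a2 : X U' p.2 = X U p.2 := hC p.2 U U' hi
    show ENNReal.ofReal _ = ENNReal.ofReal _
    rw [a1, a2]
  have invE1 : ∀ (C : Set (V × V)), (∀ v, PAInv C (fun U => X U v)) →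
      ∀ p, PAInv C (e1 p) := by
    intro C hC p U U' hi
    have a1 : X U' p = X U p := hC p U U' hi
    show ENNReal.ofReal _ = ENNReal.ofReal _
    rw [a1]
  have invK : ∀ (C : Set (V × V)), (∀ v, PAInv C (fun U => X U v)) →
      PAInv C (fun U => K (X U)) := by
    intro C hC U U' hi
    show K (X U') = K (X U)
    congr 1
    funext v
    exact hC v U U' hi
  -- step A : rewrite the probability
  have hA : mu V {U | SP U π} =
      ∫⁻ U, (K (X U) * ∏ v ∈ lg π, le1 v U) * ∏ p ∈ S, nb2 p U ∂(mu V) := by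
    rw [← lintegral_indicator_one (meas_SP π)]
    refine lintegral_congr_ae ?_
    filter_upwards [hae] with U hU
    rw [hK1 _ hU, one_mul]
    by_cases hSP : SP U π
    · rw [indicator_of_mem (show U ∈ {U | SP U π} from hSP)]
      obtain ⟨s1, s2⟩ := (pA_SP π hf rk hrk U).1 hSP
      have p1 : ∏ v ∈ lg π, le1 v U = 1 := by
        refine Finset.prod_eq_one (fun v hv => ?_)
        exact if_pos (s1 v hv)
      have p2 : ∏ p ∈ S, nb2 p U = 1 := by
        refine Finset.prod_eq_one (fun p hp => ?_)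
        exact if_neg (s2 p hp)
      rw [p1, p2, one_mul]; rfl
    · rw [indicator_of_notMem (show U ∉ {U | SP U π} from hSP)]
      by_cases s1 : ∀ v ∈ lg π, U (v, π v) ≤ U (v, π⁻¹ v)
      · have s2 : ¬ ∀ p ∈ S,
            ¬ (U (p.1, p.2) < U (p.1, π⁻¹ p.1) ∧ U (p.2, p.1) < U (p.2, π⁻¹ p.2)) := fun s2 =>
          hSP ((pA_SP π hf rk hrk U).2 ⟨s1, s2⟩)
        push Not at s2
        obtain ⟨p, hp, hp2⟩ := s2
        have : ∏ p ∈ S, nb2 p U = 0 := Finset.prod_eq_zero hp (if_pos hp2)
        rw [this, mul_zero]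
      · push Not at s1
        obtain ⟨v, hv, hv2⟩ := s1
        have : ∏ v ∈ lg π, le1 v U = 0 := Finset.prod_eq_zero hv (if_neg (not_le.2 hv2))
        rw [this, zero_mul]
  -- step B : integrate out the pairs
  have hB : ∫⁻ U, (K (X U) * ∏ v ∈ lg π, le1 v U) * ∏ p ∈ S, nb2 p U ∂(mu V) =
      ∫⁻ U, (K (X U) * ∏ v ∈ lg π, le1 v U) * ∏ p ∈ S, e2 p U ∂(mu V) := by
    refine pA_ind (X ⁻¹' Q) nb2 e2 C2 mnb2 me2 S ?_ ?_ ?_
      (fun U => K (X U) * ∏ v ∈ lg π, le1 v U)
      ((hKm.comp hXm).mul (Finset.measurable_prod _ (fun v _ => mle1 v))) ?_ ?_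
    · intro p hp q hq
      exact invE2 _ (invX2 q hq) p
    · intro p hp q hq hqp U U' hi
      obtain ⟨⟨h1, h2, h3⟩, h4⟩ := hSm p hp
      obtain ⟨⟨h1', h2', h3'⟩, h4'⟩ := hSm q hq
      have a1 : X U' p.1 = X U p.1 := invX2 q hq p.1 U U' hi
      have a2 : X U' p.2 = X U p.2 := invX2 q hq p.2 U U' hi
      have a3 : U' (p.1, p.2) = U (p.1, p.2) := by
        refine hi _ ?_
        intro hi
        rcases hi with hi | hi
        · exact hqp (Prod.ext (congrArg Prod.fst hi).symm (congrArg Prod.snd hi).symm)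
        · have e1 : p.1 = q.2 := congrArg Prod.fst hi
          have e2 : p.2 = q.1 := congrArg Prod.snd hi
          rw [e1, e2] at h4
          omega
      have a4 : U' (p.2, p.1) = U (p.2, p.1) := by
        refine hi _ ?_
        intro hi
        rcases hi with hi | hi
        · have e1 : p.2 = q.1 := congrArg Prod.fst hi
          have e2 : p.1 = q.2 := congrArg Prod.snd hi
          rw [e1, e2] at h4
          omega
        · have e1 : p.2 = q.2 := congrArg Prod.fst hi
          have e2 : p.1 = q.1 := congrArg Prod.snd hi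
          exact hqp (Prod.ext e2.symm e1.symm)
      show (if _ ∧ _ then (0:ℝ≥0∞) else 1) = if _ ∧ _ then (0:ℝ≥0∞) else 1
      rw [a1, a2, a3, a4]
    · intro p hp ψ hψ hψi hψQ
      obtain ⟨⟨h1, h2, h3⟩, h4⟩ := hSm p hp
      refine pA_out2 (X ⁻¹' Q) (p.1, p.2) (p.2, p.1) ?_ (fun U => X U p.1) (fun U => X U p.2)
        (hXv p.1) (hXv p.2) (C2 p) (Or.inl rfl) (Or.inr rfl) (invX2 p hp p.1) (invX2 p hp p.2)
        (fun U hU => hU p.1) (fun U hU => hU p.2) ψ hψ hψi hψQ
      intro h
      exact h1 (congrArg Prod.fst h)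
    · intro q hq U U' hi
      obtain ⟨⟨h1, h2, h3⟩, h4⟩ := hSm q hq
      have b1 : K (X U') = K (X U) := invK _ (invX2 q hq) U U' hi
      have b2 : ∏ v ∈ lg π, le1 v U' = ∏ v ∈ lg π, le1 v U := by
        refine Finset.prod_congr rfl (fun v hv => ?_)
        have a1 : X U' v = X U v := invX2 q hq v U U' hi
        have a3 : U' (v, π v) = U (v, π v) := by
          refine hi _ ?_
          intro hi
          rcases hi with hi | hi
          · have e1 : v = q.1 := congrArg Prod.fst hi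
            have e2 : π v = q.2 := congrArg Prod.snd hi
            apply h2
            rw [← e1, ← e2]
          · have e1 : v = q.2 := congrArg Prod.fst hi
            have e2 : π v = q.1 := congrArg Prod.snd hi
            apply h3
            rw [← e1, ← e2]
        show (if _ ≤ _ then (1:ℝ≥0∞) else 0) = if _ ≤ _ then (1:ℝ≥0∞) else 0
        rw [a1, a3]
      show K (X U') * ∏ v ∈ lg π, le1 v U' = K (X U) * ∏ v ∈ lg π, le1 v U
      rw [b1, b2]
    · intro U hU
      show K (X U) * ∏ v ∈ lg π, le1 v U = 0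
      rw [hK0 _ hU, zero_mul]
  -- step C : integrate out the coordinates (v, π v)
  have hC : ∫⁻ U, (K (X U) * ∏ p ∈ S, e2 p U) * ∏ v ∈ lg π, le1 v U ∂(mu V) =
      ∫⁻ U, (K (X U) * ∏ p ∈ S, e2 p U) * ∏ v ∈ lg π, e1 v U ∂(mu V) := by
    refine pA_ind (X ⁻¹' Q) le1 e1 C1 mle1 me1 (lg π) ?_ ?_ ?_
      (fun U => K (X U) * ∏ p ∈ S, e2 p U)
      ((hKm.comp hXm).mul (Finset.measurable_prod _ (fun v _ => me2 v))) ?_ ?_
    · intro p hp q hq
      exact invE1 _ (invX1 q hq) p
    · intro p hp q hq hqp U U' hi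
      have a1 : X U' p = X U p := invX1 q hq p U U' hi
      have a3 : U' (p, π p) = U (p, π p) := by
        refine hi _ ?_
        intro hi
        exact hqp (congrArg Prod.fst hi).symm
      show (if _ ≤ _ then (1:ℝ≥0∞) else 0) = if _ ≤ _ then (1:ℝ≥0∞) else 0
      rw [a1, a3]
    · intro p hp ψ hψ hψi hψQ
      exact pA_out1 (X ⁻¹' Q) (p, π p) (fun U => X U p) (hXv p) (C1 p) rfl (invX1 p hp p)
        (fun U hU => hU p) ψ hψ hψi hψQ
    · intro q hq U U' hi
      have b1 : K (X U') = K (X U) := invK _ (invX1 q hq) U U' hi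
      have b2 : ∏ p ∈ S, e2 p U' = ∏ p ∈ S, e2 p U :=
        Finset.prod_congr rfl (fun p _ => invE2 _ (invX1 q hq) p U U' hi)
      show K (X U') * ∏ p ∈ S, e2 p U' = K (X U) * ∏ p ∈ S, e2 p U
      rw [b1, b2]
    · intro U hU
      show K (X U) * ∏ p ∈ S, e2 p U = 0
      rw [hK0 _ hU, zero_mul]
  have hBC : ∫⁻ U, (K (X U) * ∏ v ∈ lg π, le1 v U) * ∏ p ∈ S, e2 p U ∂(mu V) =
      ∫⁻ U, (K (X U) * ∏ p ∈ S, e2 p U) * ∏ v ∈ lg π, le1 v U ∂(mu V) := by
    refine lintegral_congr (fun U => ?_)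
    ring
  rw [hA, hB, hBC, hC]
  -- push forward
  have hmm : Measurable (fun x : V → ℝ => (K x * ∏ p ∈ S, ENNReal.ofReal (1 - x p.1 * x p.2)) *
      ∏ v ∈ lg π, ENNReal.ofReal (x v)) := by
    refine (hKm.mul (Finset.measurable_prod _ (fun p _ => ?_))).mul
      (Finset.measurable_prod _ (fun v _ => ?_))
    · exact ENNReal.measurable_ofReal.comp (measurable_const.sub
        ((measurable_pi_apply p.1).mul (measurable_pi_apply p.2)))
    · exact ENNReal.measurable_ofReal.comp (measurable_pi_apply v)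
  have hfin : ∫⁻ U, (K (X U) * ∏ p ∈ S, e2 p U) * ∏ v ∈ lg π, e1 v U ∂(mu V) =
      ∫⁻ x, (K x * ∏ p ∈ S, ENNReal.ofReal (1 - x p.1 * x p.2)) *
        ∏ v ∈ lg π, ENNReal.ofReal (x v) ∂(Measure.pi fun _ : V => lam) := by
    rw [← pA_map (fun v => π⁻¹ v), lintegral_map hmm hXm]
  rw [hfin]
  refine lintegral_congr_ae ?_
  filter_upwards [haeQ] with x hx
  rw [hK1 x hx, one_mul, pA_NN π rk hrk x hx,
    ENNReal.ofReal_mul (Finset.prod_nonneg (fun v _ => (hx v).1)),
    ENNReal.ofReal_prod_of_nonneg (fun v _ => (hx v).1),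
    ENNReal.ofReal_prod_of_nonneg (fun p _ => by
      nlinarith [(hx p.1).1, (hx p.1).2, (hx p.2).1, (hx p.2).2]), mul_comm]

end Pool.Agent.Helper651.SR
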