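import Pool.Agent.Helper651.SRF.Defs
import Pool.Agent.Helper651.SRF.Proba

set_option autoImplicit false
open MeasureTheory Set Filter Topology Classical
open scoped ENNReal Nat

namespace Pool.Agent.Helper651.SR

theorem probB_ae (V : Type) [Fintype V] :
    ∀ᵐ x ∂(Measure.pi fun _ : V => lam), ∀ v, 0 ≤ x v ∧ x v ≤ 1 := by
  rw [ae_all_iff]
  intro v
  have h1 : ∀ᵐ t ∂lam, 0 ≤ t ∧ t ≤ 1 := by
    unfold lam
    exact (ae_restrict_iff' measurableSet_Icc).mpr (Eventually.of_forall fun t ht => ht)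
  exact (Measure.tendsto_eval_ae_ae (μ := fun _ : V => lam) (i := v)).eventually h1

theorem probB_cN {V : Type} [Fintype V] (π : Equiv.Perm V) :
    Continuous (fun x : V → ℝ => (∏ v ∈ lg π, x v) * NN π x) := by
  unfold NN
  fun_prop

theorem probB_cD {V : Type} [Fintype V] (π : Equiv.Perm V) :
    Continuous (fun x : V → ℝ => (∏ v ∈ lg π, x v) * DD π x) := by
  unfold DD
  fun_prop

theorem probB_cDs {V : Type} [Fintype V] (π : Equiv.Perm V) :
    Continuous (fun x : V → ℝ => (∏ v ∈ lg π, x v) * DD π x * ss π x) := by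
  unfold DD ss
  fun_prop

theorem probB_one {V : Type} [Fintype V] (s : Finset (V × V)) (x : V → ℝ)
    (hx : ∀ v, 0 ≤ x v ∧ x v ≤ 1) : √(∏ p ∈ s, (1 - x p.1 * x p.2)) ≤ 1 := by
  rw [Real.sqrt_le_one]
  apply Finset.prod_le_one
  · intro p _
    have h1 := hx p.1
    have h2 := hx p.2
    nlinarith [mul_le_mul h1.2 h2.2 h2.1 zero_le_one]
  · intro p _
    have h1 := hx p.1
    have h2 := hx p.2
    nlinarith [mul_nonneg h1.1 h2.1]

theorem probB_prod {V : Type} [Fintype V] (π : Equiv.Perm V) (x : V → ℝ)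
    (hx : ∀ v, 0 ≤ x v ∧ x v ≤ 1) : 0 ≤ ∏ v ∈ lg π, x v ∧ ∏ v ∈ lg π, x v ≤ 1 :=
  ⟨Finset.prod_nonneg fun v _ => (hx v).1,
    Finset.prod_le_one (fun v _ => (hx v).1) (fun v _ => (hx v).2)⟩

theorem probB {V : Type} [Fintype V] (π : Equiv.Perm V) (hf : ∀ v, π v ≠ v) :
    (mu V {U | SP U π}).toReal = JJ π := by
  rw [probA π hf]
  unfold JJ
  rw [integral_eq_lintegral_of_nonneg_ae _ (probB_cN π).aestronglyMeasurable]
  filter_upwards [probB_ae V] with x hx
  exact mul_nonneg (probB_prod π x hx).1 (Real.sqrt_nonneg _)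

theorem int_NN {V : Type} [Fintype V] (π : Equiv.Perm V) :
    Integrable (fun x => (∏ v ∈ lg π, x v) * NN π x) (Measure.pi fun _ : V => lam) := by
  refine Integrable.of_bound (probB_cN π).aestronglyMeasurable 1 ?_
  filter_upwards [probB_ae V] with x hx
  have h1 := probB_prod π x hx
  have h2 : NN π x ≤ 1 := probB_one _ x hx
  have h3 : 0 ≤ NN π x := Real.sqrt_nonneg _
  rw [Real.norm_of_nonneg (mul_nonneg h1.1 h3)]
  exact mul_le_one₀ h1.2 h3 h2

theorem int_DD {V : Type} [Fintype V] (π : Equiv.Perm V) :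
    Integrable (fun x => (∏ v ∈ lg π, x v) * DD π x) (Measure.pi fun _ : V => lam) := by
  refine Integrable.of_bound (probB_cD π).aestronglyMeasurable 1 ?_
  filter_upwards [probB_ae V] with x hx
  have h1 := probB_prod π x hx
  have h2 : DD π x ≤ 1 := probB_one _ x hx
  have h3 : 0 ≤ DD π x := Real.sqrt_nonneg _
  rw [Real.norm_of_nonneg (mul_nonneg h1.1 h3)]
  exact mul_le_one₀ h1.2 h3 h2

theorem int_DDs {V : Type} [Fintype V] (π : Equiv.Perm V) :
    Integrable (fun x => (∏ v ∈ lg π, x v) * DD π x * ss π x)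
      (Measure.pi fun _ : V => lam) := by
  refine Integrable.of_bound (probB_cDs π).aestronglyMeasurable ((lg π).card : ℝ) ?_
  filter_upwards [probB_ae V] with x hx
  have h1 := probB_prod π x hx
  have h2 : DD π x ≤ 1 := probB_one _ x hx
  have h3 : 0 ≤ DD π x := Real.sqrt_nonneg _
  have h4 : 0 ≤ ss π x := Finset.sum_nonneg fun v _ => mul_nonneg (hx v).1 (hx (π v)).1
  have h5 : ss π x ≤ (lg π).card := by
    have h6 : ss π x ≤ ∑ _v ∈ lg π, (1 : ℝ) := Finset.sum_le_sum fun v _ =>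
      mul_le_one₀ (hx v).2 (hx (π v)).1 (hx (π v)).2
    simpa using h6
  have h7 : 0 ≤ (∏ v ∈ lg π, x v) * DD π x := mul_nonneg h1.1 h3
  have h8 : (∏ v ∈ lg π, x v) * DD π x ≤ 1 := mul_le_one₀ h1.2 h3 h2
  rw [Real.norm_of_nonneg (mul_nonneg h7 h4)]
  calc (∏ v ∈ lg π, x v) * DD π x * ss π x ≤ 1 * ((lg π).card : ℝ) :=
        mul_le_mul h8 h5 h4 zero_le_one
    _ = _ := one_mul _

end Pool.Agent.Helper651.SR
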