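import Pool.Agent.Helper651.SRF.Defs
import Pool.Agent.Helper651.SRF.DLe

set_option autoImplicit false
open MeasureTheory Set Filter Topology Classical
open scoped ENNReal Nat

namespace Pool.Agent.Helper651.SR

theorem ptw_exp : Real.exp (9 / 4) ≤ 10 := by
  have h1 : Real.exp (9 / 4) ^ 4 ≤ 10 ^ 4 := by
    rw [← Real.exp_nat_mul]
    have h2 : ((4 : ℕ) : ℝ) * (9 / 4) = ((9 : ℕ) : ℝ) * 1 := by norm_num
    rw [h2, Real.exp_nat_mul]
    have h3 := Real.exp_one_lt_d9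
    have h4 : Real.exp 1 ^ 9 ≤ (2.7182818286 : ℝ) ^ 9 :=
      pow_le_pow_left₀ (Real.exp_pos 1).le h3.le 9
    refine h4.trans ?_
    norm_num
  exact (pow_le_pow_iff_left₀ (Real.exp_pos _).le (by norm_num) (by norm_num)).mp h1

theorem ptw_expdiff (a b : ℝ) (ha : Real.exp a ≤ 10) (hb : Real.exp b ≤ 10) :
    |Real.exp a - Real.exp b| ≤ 10 * |a - b| := by
  have key : ∀ a b : ℝ, b ≤ a → Real.exp a ≤ 10 → Real.exp a - Real.exp b ≤ 10 * (a - b) := by
    intro a b hab ha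
    have h1 := Real.add_one_le_exp (b - a)
    have h2 : Real.exp b = Real.exp a * Real.exp (b - a) := by
      rw [← Real.exp_add]; congr 1; ring
    rw [h2]
    have h3 := mul_le_mul_of_nonneg_left h1 (Real.exp_pos a).le
    have h4 : Real.exp a * (a - b) ≤ 10 * (a - b) :=
      mul_le_mul_of_nonneg_right ha (by linarith)
    linarith
  rcases le_total b a with h | h
  · rw [abs_of_nonneg (sub_nonneg.mpr (Real.exp_le_exp.mpr h)), abs_of_nonneg (by linarith)]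
    exact key a b h ha
  · rw [abs_of_nonpos (sub_nonpos.mpr (Real.exp_le_exp.mpr h)), abs_of_nonpos (by linarith)]
    have := key b a h hb
    linarith

theorem ptw_sum {V : Type} [Fintype V] (π : Equiv.Perm V) (hf : ∀ v, π v ≠ v)
    (g : V → V → ℝ) :
    ∑ p ∈ npair π, g p.1 p.2 = (∑ a, ∑ b, g a b) - ∑ v, g v v -
      ∑ v ∈ Finset.univ.filter (fun v => π (π v) = v), g v (π v) := by
  unfold npair
  rw [Finset.sum_filter, Fintype.sum_prod_type, Finset.sum_filter, ← Finset.sum_sub_distrib,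
    ← Finset.sum_sub_distrib]
  refine Finset.sum_congr rfl fun a _ => ?_
  have key : ∀ b, (if (a ≠ b ∧ ¬(π a = b ∧ π b = a)) then g a b else 0) =
      g a b - (if b = a then g a b else 0) -
        (if b = π a then (if π (π a) = a then g a b else 0) else 0) := by
    intro b
    by_cases h1 : b = a
    · subst h1
      have h2 : ¬ (b = π b) := fun h => hf b h.symm
      simp [h2]
    · by_cases h2 : b = π a
      · subst h2
        have h3 : a ≠ π a := fun h => hf a h.symm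
        by_cases h4 : π (π a) = a
        · simp [h4, h3, h1]
        · simp [h4, h3, h1]
      · have h3 : a ≠ b := fun h => h1 h.symm
        have h4 : ¬ (π a = b) := fun h => h2 h.symm
        simp [h1, h2, h3, h4]
  rw [Finset.sum_congr rfl fun b _ => key b, Finset.sum_sub_distrib, Finset.sum_sub_distrib]
  simp

theorem ptw_log (y : ℝ) (h0 : 0 ≤ y) (h1 : y ≤ 1 / 4) :
    |Real.log (1 - y) + y + y ^ 2 / 2| ≤ 4 / 3 * y ^ 3 := by
  have h := Real.abs_log_sub_add_sum_range_le (x := y) (by rw [abs_of_nonneg h0]; linarith) 2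
  rw [abs_of_nonneg h0] at h
  have e : (∑ i ∈ Finset.range 2, y ^ (i + 1) / ((i : ℝ) + 1)) + Real.log (1 - y)
      = Real.log (1 - y) + y + y ^ 2 / 2 := by
    rw [Finset.sum_range_succ, Finset.sum_range_succ, Finset.sum_range_zero]
    norm_num
    ring
  rw [e] at h
  refine h.trans ?_
  rw [div_le_iff₀ (by linarith)]
  have h3 : 0 ≤ y ^ 3 := by positivity
  norm_num
  nlinarith

theorem ptw_A {V : Type} [Fintype V] (π : Equiv.Perm V) (hf : ∀ v, π v ≠ v) (x : V → ℝ)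
    (h0 : ∀ v, 0 ≤ x v) (h1 : ∀ v, x v ≤ 1 / 2) :
    |((∑ p ∈ npair π, Real.log (1 - x p.1 * x p.2)) + (∑ v, x v) ^ 2) / 2 - 1 / 2| ≤
      |∑ v, x v ^ 2 - 2| + (∑ v, x v ^ 2 - 2) ^ 2 + |MM π x - 1 / 2| + ∑ v, x v ^ 4 +
      (∑ v, x v ^ 3) ^ 2 := by
  have hy0 : ∀ a b, 0 ≤ x a * x b := fun a b => mul_nonneg (h0 a) (h0 b)
  have hy1 : ∀ a b, x a * x b ≤ 1 / 4 := by
    intro a b
    have := mul_le_mul (h1 a) (h1 b) (h0 b) (by norm_num)
    linarith
  have s1 := ptw_sum π hf (fun a b => x a * x b)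
  have s2 := ptw_sum π hf (fun a b => (x a * x b) ^ 2)
  have d1 : ∑ a, ∑ b, x a * x b = (∑ v, x v) ^ 2 := by
    rw [sq, Finset.sum_mul_sum]
  have d2 : ∑ a, ∑ b, (x a * x b) ^ 2 = (∑ v, x v ^ 2) ^ 2 := by
    rw [sq (∑ v, x v ^ 2), Finset.sum_mul_sum]
    exact Finset.sum_congr rfl fun a _ => Finset.sum_congr rfl fun b _ => by ring
  have e1 : ∑ v, x v * x v = ∑ v, x v ^ 2 := Finset.sum_congr rfl fun v _ => by ring
  have e2 : ∑ v, (x v * x v) ^ 2 = ∑ v, x v ^ 4 := Finset.sum_congr rfl fun v _ => by ring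
  have m1 : ∑ v ∈ Finset.univ.filter (fun v => π (π v) = v), x v * x (π v) = 2 * MM π x := by
    unfold MM
    ring
  set M2 := ∑ v ∈ Finset.univ.filter (fun v => π (π v) = v), (x v * x (π v)) ^ 2 with hM2
  have hM20 : 0 ≤ M2 := Finset.sum_nonneg fun v _ => sq_nonneg _
  have hM21 : M2 ≤ ∑ v, x v ^ 4 := by
    calc M2 ≤ ∑ v, (x v * x (π v)) ^ 2 :=
          Finset.sum_le_sum_of_subset_of_nonneg (Finset.filter_subset _ _)
            (fun v _ _ => sq_nonneg _)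
      _ ≤ ∑ v, (x v ^ 4 + x (π v) ^ 4) / 2 := Finset.sum_le_sum fun v _ => by
          nlinarith [sq_nonneg (x v ^ 2 - x (π v) ^ 2)]
      _ = (∑ v, x v ^ 4 + ∑ v, x (π v) ^ 4) / 2 := by
          rw [← Finset.sum_add_distrib, Finset.sum_div]
      _ = ∑ v, x v ^ 4 := by
          rw [Equiv.sum_comp π (fun v => x v ^ 4)]
          ring
  rw [d1, e1, m1] at s1
  rw [d2, e2] at s2
  set R := ∑ p ∈ npair π, (Real.log (1 - x p.1 * x p.2) + x p.1 * x p.2 +
    (x p.1 * x p.2) ^ 2 / 2) with hR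
  have hR1 : |R| ≤ 4 / 3 * (∑ v, x v ^ 3) ^ 2 := by
    have h3 : (∑ v, x v ^ 3) ^ 2 = ∑ p : V × V, (x p.1 * x p.2) ^ 3 := by
      rw [sq, Finset.sum_mul_sum, Fintype.sum_prod_type]
      exact Finset.sum_congr rfl fun a _ => Finset.sum_congr rfl fun b _ => by ring
    rw [h3, Finset.mul_sum]
    calc |R| ≤ ∑ p ∈ npair π, |Real.log (1 - x p.1 * x p.2) + x p.1 * x p.2 +
          (x p.1 * x p.2) ^ 2 / 2| := Finset.abs_sum_le_sum_abs _ _
      _ ≤ ∑ p ∈ npair π, 4 / 3 * (x p.1 * x p.2) ^ 3 :=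
          Finset.sum_le_sum fun p _ => ptw_log _ (hy0 _ _) (hy1 _ _)
      _ ≤ ∑ p : V × V, 4 / 3 * (x p.1 * x p.2) ^ 3 :=
          Finset.sum_le_sum_of_subset_of_nonneg (Finset.subset_univ _) (fun p _ _ => by
            have := hy0 p.1 p.2
            positivity)
  have hRe : R = (∑ p ∈ npair π, Real.log (1 - x p.1 * x p.2)) +
      (∑ p ∈ npair π, x p.1 * x p.2) + (∑ p ∈ npair π, (x p.1 * x p.2) ^ 2) / 2 := by
    rw [hR, Finset.sum_add_distrib, Finset.sum_add_distrib, Finset.sum_div]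
  rw [s1, s2] at hRe
  set Q := ∑ v, x v ^ 2 with hQ
  set Q4 := ∑ v, x v ^ 4 with hQ4
  set Q3 := ∑ v, x v ^ 3 with hQ3
  set S := ∑ v, x v with hS
  set Ls := ∑ p ∈ npair π, Real.log (1 - x p.1 * x p.2) with hLs
  have hQ40 : 0 ≤ Q4 := Finset.sum_nonneg fun v _ => by positivity
  have hA : (Ls + S ^ 2) / 2 - 1 / 2 =
      -(Q - 2) / 2 - (Q - 2) ^ 2 / 4 + (MM π x - 1 / 2) + (Q4 + M2) / 4 + R / 2 := by
    rw [hRe]
    ring
  rw [hA]
  have a1 := le_abs_self (Q - 2)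
  have a2 := neg_abs_le (Q - 2)
  have a3 := le_abs_self (MM π x - 1 / 2)
  have a4 := neg_abs_le (MM π x - 1 / 2)
  have a5 := (abs_le.mp hR1).1
  have a6 := (abs_le.mp hR1).2
  have a7 : 0 ≤ (Q - 2) ^ 2 := sq_nonneg _
  have a8 : 0 ≤ Q3 ^ 2 := sq_nonneg _
  have a9 := abs_nonneg (Q - 2)
  have a10 := abs_nonneg (MM π x - 1 / 2)
  rw [abs_le]
  constructor
  · linarith
  · linarith

theorem ptw_DD {V : Type} [Fintype V] (π : Equiv.Perm V) (x : V → ℝ)
    (h0 : ∀ v, 0 ≤ x v) (h1 : ∀ v, x v ≤ 1 / 2) :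
    DD π x * Real.exp ((∑ v, x v) ^ 2 / 2) =
      Real.exp (((∑ p ∈ npair π, Real.log (1 - x p.1 * x p.2)) + (∑ v, x v) ^ 2) / 2) := by
  have hpos : ∀ a b, 0 < 1 - x a * x b := by
    intro a b
    have := mul_le_mul (h1 a) (h1 b) (h0 b) (by norm_num)
    linarith
  have e : ∏ p ∈ npair π, (1 - x p.1 * x p.2) =
      Real.exp (∑ p ∈ npair π, Real.log (1 - x p.1 * x p.2)) := by
    rw [Real.exp_sum]
    exact Finset.prod_congr rfl fun p _ => (Real.exp_log (hpos _ _)).symm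
  unfold DD
  rw [e, ← Real.exp_half, ← Real.exp_add]
  congr 1
  ring

theorem ptw {V : Type} [Fintype V] (π : Equiv.Perm V) (hf : ∀ v, π v ≠ v) (x : V → ℝ)
    (h0 : ∀ v, 0 ≤ x v) :
    |(if ∀ v, x v ≤ 1 then DD π x else 0) * Real.exp ((∑ v, x v) ^ 2 / 2) -
      Real.exp (1 / 2)| ≤
    200 * (|∑ v, x v ^ 2 - 2| + (∑ v, x v ^ 2 - 2) ^ 2 + |MM π x - 1 / 2| + ∑ v, x v ^ 4 +
      (∑ v, x v ^ 3) ^ 2) := by
  have hQ40 : 0 ≤ ∑ v, x v ^ 4 := Finset.sum_nonneg fun v _ => by positivity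
  have a7 : 0 ≤ (∑ v, x v ^ 2 - 2) ^ 2 := sq_nonneg _
  have a8 : 0 ≤ (∑ v, x v ^ 3) ^ 2 := sq_nonneg _
  have a9 := abs_nonneg (∑ v, x v ^ 2 - 2)
  have a10 := abs_nonneg (MM π x - 1 / 2)
  have hT0 : 0 ≤ (if ∀ v, x v ≤ 1 then DD π x else 0) * Real.exp ((∑ v, x v) ^ 2 / 2) := by
    apply mul_nonneg _ (Real.exp_pos _).le
    split_ifs
    · exact Real.sqrt_nonneg _
    · exact le_rfl
  have hT1 : (if ∀ v, x v ≤ 1 then DD π x else 0) * Real.exp ((∑ v, x v) ^ 2 / 2) ≤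
      Real.exp (9 / 4) := by
    split_ifs with h1
    · have h2 := mul_le_mul_of_nonneg_right (D_le π hf x h0 h1)
        (Real.exp_pos ((∑ v, x v) ^ 2 / 2)).le
      refine h2.trans (le_of_eq ?_)
      rw [← Real.exp_add]
      congr 1
      ring
    · rw [zero_mul]
      exact (Real.exp_pos _).le
  have hexp := ptw_exp
  have hhalf : Real.exp (1 / 2) ≤ Real.exp (9 / 4) := Real.exp_le_exp.mpr (by norm_num)
  by_cases hall : ∀ v, x v ≤ 1 / 2
  · have h1 : ∀ v, x v ≤ 1 := fun v => (hall v).trans (by norm_num)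
    have e := ptw_DD π x h0 hall
    rw [if_pos h1] at hT1 ⊢
    rw [e] at hT1 ⊢
    have hA := ptw_A π hf x h0 hall
    have hd := ptw_expdiff _ (1 / 2) (hT1.trans hexp) (hhalf.trans hexp)
    linarith
  · push Not at hall
    obtain ⟨v, hv⟩ := hall
    have hQ : (1 / 16 : ℝ) ≤ ∑ v, x v ^ 4 := by
      have h2 : x v ^ 4 ≤ ∑ v, x v ^ 4 :=
        Finset.single_le_sum (f := fun v => x v ^ 4) (fun w _ => by positivity)
          (Finset.mem_univ v)
      have h3 : (1 / 2 : ℝ) ^ 4 ≤ x v ^ 4 := pow_le_pow_left₀ (by norm_num) hv.le 4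
      norm_num at h3
      linarith
    have h4 : |(if ∀ v, x v ≤ 1 then DD π x else 0) * Real.exp ((∑ v, x v) ^ 2 / 2) -
        Real.exp (1 / 2)| ≤ Real.exp (9 / 4) := by
      have := Real.exp_pos (1 / 2)
      rw [abs_le]
      constructor <;> linarith
    linarith

end Pool.Agent.Helper651.SR
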