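import Pool.Agent.Helper651.SRF.Defs
import Pool.Agent.Helper651.SRF.Lamlav
import Pool.Agent.Helper651.SRF.Moml
import Pool.Agent.Helper651.SRF.Momq
import Pool.Agent.Helper651.SRF.Momm
import Pool.Agent.Helper651.SRF.Mom4
import Pool.Agent.Helper651.SRF.Ptw
import Pool.Agent.Helper651.SRF.Probb

set_option autoImplicit false
open MeasureTheory Set Filter Topology Classical
open scoped ENNReal Nat

namespace Pool.Agent.Helper651.SR

theorem aux24400_bound {W Q M Q4 Q3 e : ℝ} (he : 0 < e) (hW : 0 ≤ W) :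
    W * (200 * (|Q - 2| + (Q - 2) ^ 2 + |M - 1 / 2| + Q4 + Q3 ^ 2)) ≤
      200 * (2 * e * W + (1 / e + 1) * (W * (Q - 2) ^ 2) + (1 / e) * (W * (M - 1 / 2) ^ 2)
        + W * Q4 + W * Q3 ^ 2) := by
  have key : ∀ t : ℝ, |t| ≤ e + 1 / e * t ^ 2 := by
    intro t
    have h1 : 0 ≤ (|t| - e) ^ 2 := sq_nonneg _
    have h2 : |t| ^ 2 = t ^ 2 := sq_abs t
    have h3 : |t| * e ≤ (e + 1 / e * t ^ 2) * e := by
      have : (e + 1 / e * t ^ 2) * e = e ^ 2 + t ^ 2 := by
        field_simp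
      rw [this]
      have h4 : 0 ≤ |t| := abs_nonneg t
      nlinarith
    exact le_of_mul_le_mul_right h3 he
  have k1 := mul_le_mul_of_nonneg_left (key (Q - 2)) hW
  have k2 := mul_le_mul_of_nonneg_left (key (M - 1 / 2)) hW
  nlinarith

theorem J0_est {V : Type} [Fintype V] (π : Equiv.Perm V) (hf : ∀ v, π v ≠ v) (h k : ℕ)
    (hh : 1 ≤ h) (hV : Fintype.card V = 2 * h) (hk : (lg π).card = 2 * k) :
    |dbl (h + k) * J0 π - Real.exp (1 / 2)| ≤ 10 ^ 7 * √((k + 1) / h) := by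
  have hdp : 0 < dbl (h + k) := dbl_pos _
  have hh' : (1 : ℝ) ≤ h := by exact_mod_cast hh
  have hhp : (0 : ℝ) < h := by linarith
  have hkh : k ≤ h := by
    have h1 : (lg π).card ≤ Fintype.card V := Finset.card_le_univ _
    omega
  have hkh' : (k : ℝ) ≤ h := by exact_mod_cast hkh
  have hk0 : (0 : ℝ) ≤ k := Nat.cast_nonneg _
  have hx0 : 0 < ((k : ℝ) + 1) / h := by positivity
  set e : ℝ := √(((k : ℝ) + 1) / h) with he
  have hep : 0 < e := Real.sqrt_pos.2 hx0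
  have he2 : e ^ 2 = ((k : ℝ) + 1) / h := Real.sq_sqrt hx0.le
  have he22 : e ^ 2 ≤ 2 := by
    rw [he2, div_le_iff₀ hhp]; linarith
  have he_le : e ≤ 2 := by nlinarith
  have he3 : e ^ 2 ≤ 2 * e := by nlinarith
  have h1h : 1 / (h : ℝ) ≤ e ^ 2 := by
    rw [he2]
    exact div_le_div_of_nonneg_right (by linarith) hhp.le
  -- the total mass
  obtain ⟨iW, vW⟩ := momL π h k 0 hh hV hk (fun _ => 0) (by simp)
  have eW : (fun x : V → ℝ => WW π x * ∏ v : V, x v ^ ((fun _ => 0 : V → ℕ) v)) =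
      fun x => WW π x := by
    funext x; simp
  have iW' : Integrable (fun x : V → ℝ => WW π x) (Measure.pi fun _ : V => lav) := by
    rw [← eW]; exact iW
  have vW' : ∫ x, WW π x ∂(Measure.pi fun _ : V => lav) = 1 / dbl (h + k) := by
    have h1 : ∫ x, WW π x ∂(Measure.pi fun _ : V => lav) =
      ∫ x, WW π x * ∏ v : V, x v ^ ((fun _ => 0 : V → ℕ) v) ∂(Measure.pi fun _ : V => lav) := by
      congr 1; exact eW.symm
    rw [h1, vW]
    congr 1
    apply Finset.prod_eq_one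
    intro v _
    by_cases hv : v ∈ lg π <;> simp [hv]
  obtain ⟨iQ, vQ⟩ := momQ π h k hh hV hk
  obtain ⟨iM, vM⟩ := momM π hf h k hh hV hk
  obtain ⟨⟨i4, v4⟩, ⟨i3, v3⟩⟩ := mom4 π h k hh hV hk
  -- the set
  have hA : MeasurableSet {x : V → ℝ | ∀ v, x v ≤ 1} := by
    have : {x : V → ℝ | ∀ v, x v ≤ 1} = ⋂ v, {x : V → ℝ | x v ≤ 1} := by
      ext x; simp
    rw [this]
    exact MeasurableSet.iInter fun v => measurableSet_le (measurable_pi_apply v) measurable_const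
  have iF := int_DD π
  rw [lamlav V] at iF
  have iG : Integrable ({x : V → ℝ | ∀ v, x v ≤ 1}.indicator
      (fun x => (∏ v ∈ lg π, x v) * DD π x)) (Measure.pi fun _ : V => lav) :=
    (integrable_indicator_iff hA).2 iF
  have hJ : J0 π = ∫ x, ({x : V → ℝ | ∀ v, x v ≤ 1}.indicator
      (fun x => (∏ v ∈ lg π, x v) * DD π x)) x ∂(Measure.pi fun _ : V => lav) := by
    unfold J0
    rw [lamlav V, integral_indicator hA]
  have hdiff : J0 π - Real.exp (1 / 2) / dbl (h + k) =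
      ∫ x, (({x : V → ℝ | ∀ v, x v ≤ 1}.indicator
      (fun x => (∏ v ∈ lg π, x v) * DD π x)) x - WW π x * Real.exp (1 / 2))
        ∂(Measure.pi fun _ : V => lav) := by
    rw [integral_sub iG (iW'.mul_const _), ← hJ, integral_mul_const, vW']
    ring
  have hbnd : ‖∫ x, (({x : V → ℝ | ∀ v, x v ≤ 1}.indicator
      (fun x => (∏ v ∈ lg π, x v) * DD π x)) x - WW π x * Real.exp (1 / 2))
        ∂(Measure.pi fun _ : V => lav)‖ ≤
      ∫ x, 200 * (2 * e * WW π x + (1 / e + 1) * (WW π x * (∑ v, x v ^ 2 - 2) ^ 2) +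
        (1 / e) * (WW π x * (MM π x - 1 / 2) ^ 2)
        + WW π x * (∑ v, x v ^ 4) + WW π x * (∑ v, x v ^ 3) ^ 2)
        ∂(Measure.pi fun _ : V => lav) := by
    apply norm_integral_le_of_norm_le
    · apply Integrable.const_mul
      exact ((((iW'.const_mul _).add (iQ.const_mul _)).add (iM.const_mul _)).add i4).add i3
    · filter_upwards [lav_pos V] with x hx
      have hWn : 0 ≤ WW π x := by
        unfold WW
        exact mul_nonneg (Finset.prod_nonneg fun v _ => (hx v).le) (Real.exp_pos _).le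
      have hp := ptw π hf x (fun v => (hx v).le)
      have hval : ({x : V → ℝ | ∀ v, x v ≤ 1}.indicator
          (fun x => (∏ v ∈ lg π, x v) * DD π x)) x - WW π x * Real.exp (1 / 2) =
          WW π x * ((if ∀ v, x v ≤ 1 then DD π x else 0) * Real.exp ((∑ v, x v) ^ 2 / 2) -
            Real.exp (1 / 2)) := by
        have hprod : WW π x * Real.exp ((∑ v, x v) ^ 2 / 2) = ∏ v ∈ lg π, x v := by
          unfold WW
          rw [mul_assoc, ← Real.exp_add]
          have : -(∑ v, x v) ^ 2 / 2 + (∑ v, x v) ^ 2 / 2 = 0 := by ring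
          rw [this, Real.exp_zero, mul_one]
        by_cases hc : ∀ v, x v ≤ 1
        · rw [Set.indicator_of_mem (show x ∈ {x : V → ℝ | ∀ v, x v ≤ 1} from hc), if_pos hc,
            ← hprod]
          ring
        · rw [Set.indicator_of_notMem (show x ∉ {x : V → ℝ | ∀ v, x v ≤ 1} from hc), if_neg hc]
          ring
      rw [hval, Real.norm_eq_abs, abs_mul, abs_of_nonneg hWn]
      exact (mul_le_mul_of_nonneg_left hp hWn).trans (aux24400_bound hep hWn)
  have hint : ∫ x, 200 * (2 * e * WW π x + (1 / e + 1) * (WW π x * (∑ v, x v ^ 2 - 2) ^ 2) +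
        (1 / e) * (WW π x * (MM π x - 1 / 2) ^ 2)
        + WW π x * (∑ v, x v ^ 4) + WW π x * (∑ v, x v ^ 3) ^ 2)
        ∂(Measure.pi fun _ : V => lav) =
      200 * (2 * e * (1 / dbl (h + k)) +
        (1 / e + 1) * (∫ x, WW π x * (∑ v, x v ^ 2 - 2) ^ 2 ∂(Measure.pi fun _ : V => lav)) +
        (1 / e) * (∫ x, WW π x * (MM π x - 1 / 2) ^ 2 ∂(Measure.pi fun _ : V => lav))
        + (∫ x, WW π x * (∑ v, x v ^ 4) ∂(Measure.pi fun _ : V => lav)) +
        ∫ x, WW π x * (∑ v, x v ^ 3) ^ 2 ∂(Measure.pi fun _ : V => lav)) := by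
    rw [integral_const_mul]
    congr 1
    have j1 := iW'.const_mul (2 * e)
    have j2 := iQ.const_mul (1 / e + 1)
    have j3 := iM.const_mul (1 / e)
    have e1 : ∫ x, (2 * e * WW π x + (1 / e + 1) * (WW π x * (∑ v, x v ^ 2 - 2) ^ 2) +
        (1 / e) * (WW π x * (MM π x - 1 / 2) ^ 2)
        + WW π x * (∑ v, x v ^ 4) + WW π x * (∑ v, x v ^ 3) ^ 2)
        ∂(Measure.pi fun _ : V => lav) =
        ∫ x, (2 * e * WW π x + (1 / e + 1) * (WW π x * (∑ v, x v ^ 2 - 2) ^ 2) +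
        (1 / e) * (WW π x * (MM π x - 1 / 2) ^ 2)
        + WW π x * (∑ v, x v ^ 4)) ∂(Measure.pi fun _ : V => lav) +
        ∫ x, WW π x * (∑ v, x v ^ 3) ^ 2 ∂(Measure.pi fun _ : V => lav) :=
      integral_add (((j1.add j2).add j3).add i4) i3
    have e2 : ∫ x, (2 * e * WW π x + (1 / e + 1) * (WW π x * (∑ v, x v ^ 2 - 2) ^ 2) +
        (1 / e) * (WW π x * (MM π x - 1 / 2) ^ 2)
        + WW π x * (∑ v, x v ^ 4)) ∂(Measure.pi fun _ : V => lav) =
        ∫ x, (2 * e * WW π x + (1 / e + 1) * (WW π x * (∑ v, x v ^ 2 - 2) ^ 2) +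
        (1 / e) * (WW π x * (MM π x - 1 / 2) ^ 2)) ∂(Measure.pi fun _ : V => lav) +
        ∫ x, WW π x * (∑ v, x v ^ 4) ∂(Measure.pi fun _ : V => lav) :=
      integral_add ((j1.add j2).add j3) i4
    have e3 : ∫ x, (2 * e * WW π x + (1 / e + 1) * (WW π x * (∑ v, x v ^ 2 - 2) ^ 2) +
        (1 / e) * (WW π x * (MM π x - 1 / 2) ^ 2)) ∂(Measure.pi fun _ : V => lav) =
        ∫ x, (2 * e * WW π x + (1 / e + 1) * (WW π x * (∑ v, x v ^ 2 - 2) ^ 2))
          ∂(Measure.pi fun _ : V => lav) +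
        ∫ x, (1 / e) * (WW π x * (MM π x - 1 / 2) ^ 2) ∂(Measure.pi fun _ : V => lav) :=
      integral_add (j1.add j2) j3
    have e4 : ∫ x, (2 * e * WW π x + (1 / e + 1) * (WW π x * (∑ v, x v ^ 2 - 2) ^ 2))
          ∂(Measure.pi fun _ : V => lav) =
        ∫ x, 2 * e * WW π x ∂(Measure.pi fun _ : V => lav) +
        ∫ x, (1 / e + 1) * (WW π x * (∑ v, x v ^ 2 - 2) ^ 2) ∂(Measure.pi fun _ : V => lav) :=
      integral_add j1 j2
    rw [e1, e2, e3, e4, integral_const_mul, integral_const_mul, integral_const_mul, vW']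
  rw [← hdiff, hint, Real.norm_eq_abs] at hbnd
  rw [← he2] at vQ vM
  have h4' : ∫ x, WW π x * (∑ v, x v ^ 4) ∂(Measure.pi fun _ : V => lav) ≤
      100 * e ^ 2 / dbl (h + k) :=
    v4.trans (div_le_div_of_nonneg_right (by linarith) hdp.le)
  have h3' : ∫ x, WW π x * (∑ v, x v ^ 3) ^ 2 ∂(Measure.pi fun _ : V => lav) ≤
      2000 * e ^ 2 / dbl (h + k) :=
    v3.trans (div_le_div_of_nonneg_right (by linarith) hdp.le)
  have hQ' : (1 / e + 1) * (∫ x, WW π x * (∑ v, x v ^ 2 - 2) ^ 2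
      ∂(Measure.pi fun _ : V => lav)) ≤ (1 / e + 1) * (100 * e ^ 2 / dbl (h + k)) :=
    mul_le_mul_of_nonneg_left vQ (by positivity)
  have hM' : (1 / e) * (∫ x, WW π x * (MM π x - 1 / 2) ^ 2 ∂(Measure.pi fun _ : V => lav)) ≤
      (1 / e) * (100 * e ^ 2 / dbl (h + k)) :=
    mul_le_mul_of_nonneg_left vM (by positivity)
  have hfin : |J0 π - Real.exp (1 / 2) / dbl (h + k)| ≤
      200 * (2 * e * (1 / dbl (h + k)) + (1 / e + 1) * (100 * e ^ 2 / dbl (h + k)) +
        (1 / e) * (100 * e ^ 2 / dbl (h + k)) + 100 * e ^ 2 / dbl (h + k) +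
        2000 * e ^ 2 / dbl (h + k)) := by
    linarith
  have heq : 200 * (2 * e * (1 / dbl (h + k)) + (1 / e + 1) * (100 * e ^ 2 / dbl (h + k)) +
        (1 / e) * (100 * e ^ 2 / dbl (h + k)) + 100 * e ^ 2 / dbl (h + k) +
        2000 * e ^ 2 / dbl (h + k)) = 200 * (202 * e + 2200 * e ^ 2) / dbl (h + k) := by
    field_simp
    ring
  rw [heq] at hfin
  have habs : |dbl (h + k) * J0 π - Real.exp (1 / 2)| =
      |J0 π - Real.exp (1 / 2) / dbl (h + k)| * dbl (h + k) := by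
    rw [← abs_of_pos hdp, ← abs_mul, abs_of_pos hdp]
    congr 1
    field_simp
  rw [habs]
  have hlast := mul_le_mul_of_nonneg_right hfin hdp.le
  rw [div_mul_cancel₀ _ hdp.ne'] at hlast
  refine hlast.trans ?_
  nlinarith

end Pool.Agent.Helper651.SR
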