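import Pool.Agent.Helper651.SRF.Defs
import Pool.Agent.Helper651.SRF.Dq

set_option autoImplicit false
open MeasureTheory Set Filter Topology Classical
open scoped ENNReal Nat

namespace Pool.Agent.Helper651.SR

theorem nds_aux {V : Type} (S : Finset V) (a : V → ℝ) (h0 : ∀ v, 0 ≤ a v) (h1 : ∀ v, a v ≤ 1) :
    0 ≤ ∏ v ∈ S, (1 - a v) ∧ ∏ v ∈ S, (1 - a v) ≤ 1 ∧ 0 ≤ ∑ v ∈ S, a v ∧
      (∏ v ∈ S, (1 - a v)) * (1 + ∑ v ∈ S, a v) ≤ 1 ∧
      1 - ∑ v ∈ S, a v ≤ ∏ v ∈ S, (1 - a v) := by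
  induction S using Finset.induction_on with
  | empty => simp
  | insert b S hb ih =>
    obtain ⟨i1, i2, i3, i4, i5⟩ := ih
    rw [Finset.prod_insert hb, Finset.sum_insert hb]
    obtain ⟨Q, hQ⟩ : ∃ Q, Q = ∏ v ∈ S, (1 - a v) := ⟨_, rfl⟩
    obtain ⟨s, hs⟩ : ∃ s, s = ∑ v ∈ S, a v := ⟨_, rfl⟩
    simp only [← hQ, ← hs] at i1 i2 i3 i4 i5 ⊢
    have hb0 := h0 b
    have hb1 := h1 b
    have hb1' : 0 ≤ 1 - a b := by linarith
    refine ⟨mul_nonneg hb1' i1, ?_, by linarith, ?_, ?_⟩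
    · calc (1 - a b) * Q ≤ 1 * 1 := mul_le_mul (by linarith) i2 i1 (by norm_num)
        _ = 1 := one_mul 1
    · have e1 : (1 - a b) * Q * (1 + (a b + s)) =
          (1 - a b) * (Q * (1 + s)) + (1 - a b) * a b * Q := by ring
      rw [e1]
      have e2 : (1 - a b) * (Q * (1 + s)) ≤ (1 - a b) * 1 := mul_le_mul_of_nonneg_left i4 hb1'
      have e3 : (1 - a b) * a b * Q ≤ (1 - a b) * a b * 1 :=
        mul_le_mul_of_nonneg_left i2 (mul_nonneg hb1' hb0)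
      nlinarith
    · have e1 : a b * Q ≤ a b * 1 := mul_le_mul_of_nonneg_left i2 hb0
      linarith

theorem nds {V : Type} [Fintype V] (π : Equiv.Perm V) (hf : ∀ v, π v ≠ v) (x : V → ℝ)
    (h0 : ∀ v, 0 ≤ x v) (h1 : ∀ v, x v ≤ 1) :
    0 ≤ NN π x - DD π x - DD π x * ss π x ∧
      NN π x - DD π x - DD π x * ss π x ≤ NN π x * (ss π x) ^ 2 := by
  rw [dq π hf x h0 h1]
  have hN : 0 ≤ NN π x := Real.sqrt_nonneg _
  obtain ⟨i1, i2, i3, i4, i5⟩ := nds_aux (lg π) (fun v => x v * x (π v))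
    (fun v => mul_nonneg (h0 _) (h0 _)) (fun v => mul_le_one₀ (h1 _) (h0 _) (h1 _))
  have hss : ss π x = ∑ v ∈ lg π, x v * x (π v) := rfl
  rw [hss]
  obtain ⟨Q, hQ⟩ : ∃ Q, Q = ∏ v ∈ lg π, (1 - x v * x (π v)) := ⟨_, rfl⟩
  obtain ⟨s, hs⟩ : ∃ s, s = ∑ v ∈ lg π, x v * x (π v) := ⟨_, rfl⟩
  simp only [← hQ, ← hs] at i1 i2 i3 i4 i5 ⊢
  have e1 : NN π x - NN π x * Q - NN π x * Q * s = NN π x * (1 - Q * (1 + s)) := by ring
  rw [e1]
  constructor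
  · exact mul_nonneg hN (by linarith)
  · apply mul_le_mul_of_nonneg_left _ hN
    have e2 : (1 - s) * (1 + s) ≤ Q * (1 + s) := mul_le_mul_of_nonneg_right i5 (by linarith)
    nlinarith

end Pool.Agent.Helper651.SR
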