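import Pool.Agent.Helper651.SRF.Defs
import Pool.Agent.Helper651.SRF.Lamlav
import Pool.Agent.Helper651.SRF.Moml
import Pool.Agent.Helper651.SRF.Mom4
import Pool.Agent.Helper651.SRF.Nds
import Pool.Agent.Helper651.SRF.DLe
import Pool.Agent.Helper651.SRF.Probb

set_option autoImplicit false
open MeasureTheory Set Filter Topology Classical
open scoped ENNReal Nat

namespace Pool.Agent.Helper651.SR

theorem jest_ss {V : Type} [Fintype V] (π : Equiv.Perm V) (x : V → ℝ) (h0 : ∀ v, 0 ≤ x v) :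
    0 ≤ ss π x ∧ ss π x ≤ ∑ v ∈ lg π, x v ^ 2 := by
  refine ⟨Finset.sum_nonneg fun v _ => mul_nonneg (h0 _) (h0 _), ?_⟩
  have h1 : ∑ v ∈ lg π, x (π v) ^ 2 = ∑ v ∈ lg π, x v ^ 2 := by
    refine Finset.sum_equiv π (fun v => ?_) (fun v _ => rfl)
    simp only [lg, Finset.mem_filter, Finset.mem_univ, true_and, ne_eq]
    exact not_congr π.injective.eq_iff.symm
  have h2 : ss π x ≤ ∑ v ∈ lg π, (x v ^ 2 + x (π v) ^ 2) / 2 := by
    unfold ss
    refine Finset.sum_le_sum fun v _ => ?_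
    nlinarith [sq_nonneg (x v - x (π v))]
  refine h2.trans (le_of_eq ?_)
  rw [← Finset.sum_div, Finset.sum_add_distrib, h1]
  ring

theorem jest_exp94 : Real.exp (9 / 4) ≤ 10 := by
  have h1 : Real.exp (9 / 4) ^ 4 = Real.exp 1 ^ 9 := by
    rw [← Real.exp_nat_mul, ← Real.exp_nat_mul]
    congr 1
    norm_num
  have h2 : Real.exp 1 ^ 9 ≤ (2.7182818286 : ℝ) ^ 9 :=
    pow_le_pow_left₀ (Real.exp_pos 1).le Real.exp_one_lt_d9.le 9
  have h3 : (2.7182818286 : ℝ) ^ 9 ≤ 10 ^ 4 := by norm_num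
  by_contra hcon
  push Not at hcon
  have h4 : (10 : ℝ) ^ 4 < Real.exp (9 / 4) ^ 4 :=
    pow_lt_pow_left₀ hcon (by norm_num) (by norm_num)
  linarith

theorem jest_exp6 : Real.exp 6 ≤ 404 := by
  have h1 : Real.exp 6 = Real.exp 1 ^ 6 := by
    rw [← Real.exp_nat_mul]
    congr 1
    norm_num
  have h2 : Real.exp 1 ^ 6 ≤ (2.7182818286 : ℝ) ^ 6 :=
    pow_le_pow_left₀ (Real.exp_pos 1).le Real.exp_one_lt_d9.le 6
  have h3 : (2.7182818286 : ℝ) ^ 6 ≤ 404 := by norm_num
  linarith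

theorem jest_comp (V : Type) [Fintype V] (F : (V → ℝ) → ℝ)
    (hF : Integrable F (Measure.pi fun _ : V => lav))
    (hF0 : 0 ≤ᵐ[Measure.pi fun _ : V => lav] F) :
    Integrable F (Measure.pi fun _ : V => lam) ∧
    ∫ x, F x ∂(Measure.pi fun _ : V => lam) ≤ ∫ x, F x ∂(Measure.pi fun _ : V => lav) := by
  rw [lamlav V]
  exact ⟨hF.restrict, setIntegral_le_integral hF hF0⟩

theorem jest_WW {V : Type} [Fintype V] (π : Equiv.Perm V) (c : ℝ) (x : V → ℝ) :
    (∏ v ∈ lg π, x v) * Real.exp (c - (∑ v, x v) ^ 2 / 2) = Real.exp c * WW π x := by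
  unfold WW
  have h1 : c - (∑ v, x v) ^ 2 / 2 = c + (-(∑ v, x v) ^ 2 / 2) := by ring
  rw [h1, Real.exp_add]
  ring

theorem jest_WWnn {V : Type} [Fintype V] (π : Equiv.Perm V) (x : V → ℝ) (h0 : ∀ v, 0 ≤ x v) :
    0 ≤ WW π x := mul_nonneg (Finset.prod_nonneg fun v _ => h0 v) (Real.exp_pos _).le

theorem J1_est {V : Type} [Fintype V] (π : Equiv.Perm V) (hf : ∀ v, π v ≠ v) (h k : ℕ)
    (hh : 1 ≤ h) (hV : Fintype.card V = 2 * h) (hk : (lg π).card = 2 * k) :
    0 ≤ J1 π ∧ dbl (h + k) * J1 π ≤ 1000 * (k / h) := by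
  have hdb := dbl_pos (h + k)
  have hkh : (0 : ℝ) ≤ (k : ℝ) / h := by positivity
  constructor
  · unfold J1
    refine integral_nonneg_of_ae ?_
    filter_upwards [lam_mem V] with x hx
    exact mul_nonneg (mul_nonneg (Finset.prod_nonneg fun v _ => (hx v).1) (Real.sqrt_nonneg _))
      (jest_ss π x fun v => (hx v).1).1
  · obtain ⟨⟨hI, hle⟩, -⟩ := momS π h k hh hV hk
    obtain ⟨hI2, hle2⟩ := jest_comp V (fun x => Real.exp (9 / 4) *
      (WW π x * (∑ v ∈ lg π, x v ^ 2))) (hI.const_mul _) (by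
        filter_upwards [lav_pos V] with x hx
        exact mul_nonneg (Real.exp_pos _).le (mul_nonneg (jest_WWnn π x fun v => (hx v).le)
          (Finset.sum_nonneg fun v _ => sq_nonneg _)))
    have h1 : J1 π ≤ ∫ x, Real.exp (9 / 4) * (WW π x * (∑ v ∈ lg π, x v ^ 2))
        ∂(Measure.pi fun _ : V => lam) := by
      unfold J1
      refine integral_mono_ae (int_DDs π) hI2 ?_
      filter_upwards [lam_mem V] with x hx
      have hx0 : ∀ v, 0 ≤ x v := fun v => (hx v).1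
      have hx1 : ∀ v, x v ≤ 1 := fun v => (hx v).2
      have hP : 0 ≤ ∏ v ∈ lg π, x v := Finset.prod_nonneg fun v _ => hx0 v
      have hD := D_le π hf x hx0 hx1
      obtain ⟨hs0, hs1⟩ := jest_ss π x hx0
      have e1 : (∏ v ∈ lg π, x v) * DD π x ≤ Real.exp (9 / 4) * WW π x := by
        rw [← jest_WW]
        exact mul_le_mul_of_nonneg_left hD hP
      calc (∏ v ∈ lg π, x v) * DD π x * ss π x
          ≤ (Real.exp (9 / 4) * WW π x) * (∑ v ∈ lg π, x v ^ 2) :=
            mul_le_mul e1 hs1 hs0 (mul_nonneg (Real.exp_pos _).le (jest_WWnn π x hx0))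
        _ = _ := by ring
    have h2 : J1 π ≤ Real.exp (9 / 4) * (10 * (k / h) / dbl (h + k)) := by
      refine (h1.trans hle2).trans ?_
      rw [integral_const_mul]
      exact mul_le_mul_of_nonneg_left hle (Real.exp_pos _).le
    have h3 : J1 π ≤ 10 * (10 * (k / h) / dbl (h + k)) :=
      h2.trans (mul_le_mul_of_nonneg_right jest_exp94 (by positivity))
    calc dbl (h + k) * J1 π ≤ dbl (h + k) * (10 * (10 * (k / h) / dbl (h + k))) :=
          mul_le_mul_of_nonneg_left h3 hdb.le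
      _ = 100 * (k / h) := by
        have := hdb.ne'
        generalize (k : ℝ) / h = q
        field_simp
        ring
      _ ≤ 1000 * (k / h) := by linarith

theorem J2_est {V : Type} [Fintype V] (π : Equiv.Perm V) (hf : ∀ v, π v ≠ v) (h k : ℕ)
    (hh : 1 ≤ h) (hV : Fintype.card V = 2 * h) (hk : (lg π).card = 2 * k) :
    0 ≤ JJ π - J0 π - J1 π ∧ dbl (h + k) * (JJ π - J0 π - J1 π) ≤ 10 ^ 6 * (k / h) ^ 2 := by
  have hdb := dbl_pos (h + k)
  have hkh : (0 : ℝ) ≤ ((k : ℝ) / h) ^ 2 := by positivity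
  have hint : Integrable (fun x => (∏ v ∈ lg π, x v) * NN π x - (∏ v ∈ lg π, x v) * DD π x -
      (∏ v ∈ lg π, x v) * DD π x * ss π x) (Measure.pi fun _ : V => lam) :=
    ((int_NN π).sub (int_DD π)).sub (int_DDs π)
  have heq : JJ π - J0 π - J1 π = ∫ x, ((∏ v ∈ lg π, x v) * NN π x -
      (∏ v ∈ lg π, x v) * DD π x - (∏ v ∈ lg π, x v) * DD π x * ss π x)
        ∂(Measure.pi fun _ : V => lam) := by
    unfold JJ J0 J1
    have hsub : Integrable (fun x => (∏ v ∈ lg π, x v) * NN π x -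
        (∏ v ∈ lg π, x v) * DD π x) (Measure.pi fun _ : V => lam) :=
      (int_NN π).sub (int_DD π)
    have e2 := integral_sub hsub (int_DDs π)
    have e1 := integral_sub (int_NN π) (int_DD π)
    rw [e2, e1]
  constructor
  · rw [heq]
    refine integral_nonneg_of_ae ?_
    filter_upwards [lam_mem V] with x hx
    have hP : 0 ≤ ∏ v ∈ lg π, x v := Finset.prod_nonneg fun v _ => (hx v).1
    have hn := (nds π hf x (fun v => (hx v).1) (fun v => (hx v).2)).1
    have : (∏ v ∈ lg π, x v) * NN π x - (∏ v ∈ lg π, x v) * DD π x -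
        (∏ v ∈ lg π, x v) * DD π x * ss π x =
        (∏ v ∈ lg π, x v) * (NN π x - DD π x - DD π x * ss π x) := by ring
    show 0 ≤ (∏ v ∈ lg π, x v) * NN π x - (∏ v ∈ lg π, x v) * DD π x -
        (∏ v ∈ lg π, x v) * DD π x * ss π x
    rw [this]
    exact mul_nonneg hP hn
  · obtain ⟨-, hI, hle⟩ := momS π h k hh hV hk
    obtain ⟨hI2, hle2⟩ := jest_comp V (fun x => Real.exp 6 *
      (WW π x * (∑ v ∈ lg π, x v ^ 2) ^ 2)) (hI.const_mul _) (by
        filter_upwards [lav_pos V] with x hx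
        exact mul_nonneg (Real.exp_pos _).le (mul_nonneg (jest_WWnn π x fun v => (hx v).le)
          (sq_nonneg _)))
    have h1 : JJ π - J0 π - J1 π ≤ ∫ x, Real.exp 6 * (WW π x * (∑ v ∈ lg π, x v ^ 2) ^ 2)
        ∂(Measure.pi fun _ : V => lam) := by
      rw [heq]
      refine integral_mono_ae hint hI2 ?_
      filter_upwards [lam_mem V] with x hx
      have hx0 : ∀ v, 0 ≤ x v := fun v => (hx v).1
      have hx1 : ∀ v, x v ≤ 1 := fun v => (hx v).2
      have hP : 0 ≤ ∏ v ∈ lg π, x v := Finset.prod_nonneg fun v _ => hx0 v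
      have hN := N_le π hf x hx0 hx1
      have hn := (nds π hf x hx0 hx1).2
      obtain ⟨hs0, hs1⟩ := jest_ss π x hx0
      have e1 : (∏ v ∈ lg π, x v) * NN π x ≤ Real.exp 6 * WW π x := by
        rw [← jest_WW]
        exact mul_le_mul_of_nonneg_left hN hP
      calc (∏ v ∈ lg π, x v) * NN π x - (∏ v ∈ lg π, x v) * DD π x -
            (∏ v ∈ lg π, x v) * DD π x * ss π x
          = (∏ v ∈ lg π, x v) * (NN π x - DD π x - DD π x * ss π x) := by ring
        _ ≤ (∏ v ∈ lg π, x v) * (NN π x * (ss π x) ^ 2) := mul_le_mul_of_nonneg_left hn hP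
        _ = ((∏ v ∈ lg π, x v) * NN π x) * (ss π x) ^ 2 := by ring
        _ ≤ (Real.exp 6 * WW π x) * (∑ v ∈ lg π, x v ^ 2) ^ 2 :=
            mul_le_mul e1 (pow_le_pow_left₀ hs0 hs1 2) (sq_nonneg _)
              (mul_nonneg (Real.exp_pos _).le (jest_WWnn π x hx0))
        _ = _ := by ring
    have h2 : JJ π - J0 π - J1 π ≤ Real.exp 6 * (200 * (k / h) ^ 2 / dbl (h + k)) := by
      refine (h1.trans hle2).trans ?_
      rw [integral_const_mul]
      exact mul_le_mul_of_nonneg_left hle (Real.exp_pos _).le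
    have h3 : JJ π - J0 π - J1 π ≤ 404 * (200 * (k / h) ^ 2 / dbl (h + k)) :=
      h2.trans (mul_le_mul_of_nonneg_right jest_exp6 (by positivity))
    calc dbl (h + k) * (JJ π - J0 π - J1 π)
        ≤ dbl (h + k) * (404 * (200 * (k / h) ^ 2 / dbl (h + k))) :=
          mul_le_mul_of_nonneg_left h3 hdb.le
      _ = 80800 * (k / h) ^ 2 := by
        have := hdb.ne'
        generalize (k : ℝ) / h = q
        field_simp
        ring
      _ ≤ 10 ^ 6 * (k / h) ^ 2 := by
        have : (80800 : ℝ) ≤ 10 ^ 6 := by norm_num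
        exact mul_le_mul_of_nonneg_right this hkh

end Pool.Agent.Helper651.SR
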