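import Pool.Agent.Helper651.SRF.Defs

set_option autoImplicit false
open MeasureTheory Set Filter Topology Classical
open scoped ENNReal Nat

namespace Pool.Agent.Helper651.SR

theorem h651_ctrep {V : Type} [Fintype V] (τ : Equiv.Perm V) (h2 : τ ^ 2 = 1) :
    τ.cycleType = Multiset.replicate (τ.support.card / 2) 2 := by
  have h : ∀ n ∈ τ.cycleType, n = 2 := by
    intro n hn
    have h1 : n ∣ orderOf τ := Equiv.Perm.dvd_of_mem_cycleType hn
    have h3 : orderOf τ ∣ 2 := orderOf_dvd_of_pow_eq_one h2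
    have h4 : n ∣ 2 := h1.trans h3
    have h5 := Equiv.Perm.two_le_of_mem_cycleType hn
    have h6 := Nat.le_of_dvd (by norm_num) h4
    omega
  have h7 := Multiset.eq_replicate_of_mem h
  have h8 : τ.cycleType.sum = τ.support.card := Equiv.Perm.sum_cycleType τ
  have h9 : τ.cycleType.sum = Multiset.card τ.cycleType * 2 := by
    conv_lhs => rw [h7]
    simp
  have h10 : Multiset.card τ.cycleType = τ.support.card / 2 := by omega
  rw [← h10]
  exact h7

/-- restriction of `π` to the points on cycles of length two -/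
theorem h651_tau {V : Type} [Fintype V] (π : Equiv.Perm V) (hf : ∀ v, π v ≠ v) :
    ∃ τ : Equiv.Perm V, (∀ v, v ∉ lg π → τ v = π v) ∧ (∀ v, v ∈ lg π → τ v = v) ∧
      τ ^ 2 = 1 ∧ τ.support.card = Fintype.card V - (lg π).card := by
  have hl : ∀ v, v ∉ lg π ↔ π (π v) = v := by
    intro v; simp [lg]
  have hinv : Function.Involutive (fun v => if v ∈ lg π then v else π v) := by
    intro v
    by_cases hv : v ∈ lg π
    · simp [hv]
    · have h1 := (hl v).1 hv
      have h2 : π v ∉ lg π := by rw [hl, h1]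
      simp [hv, h2, h1]
  refine ⟨hinv.toPerm, ?_, ?_, ?_, ?_⟩
  · intro v hv
    show (if v ∈ lg π then v else π v) = π v
    rw [if_neg hv]
  · intro v hv
    show (if v ∈ lg π then v else π v) = v
    rw [if_pos hv]
  · ext v
    exact hinv v
  · have h1 : hinv.toPerm.support = Finset.univ \ lg π := by
      ext v
      rw [Equiv.Perm.mem_support, Finset.mem_sdiff]
      show (if v ∈ lg π then v else π v) ≠ v ↔ _
      by_cases hv : v ∈ lg π
      · simp [hv]
      · simp [hv, hf v]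
    rw [h1, Finset.card_sdiff_of_subset (Finset.subset_univ _), Finset.card_univ]

theorem relab {V : Type} [Fintype V] (π π' : Equiv.Perm V) (hf : ∀ v, π v ≠ v)
    (hf' : ∀ v, π' v ≠ v) (hc : (lg π).card = (lg π').card) :
    (∃ ρ : Equiv.Perm V, (∀ v, ρ v ∈ lg π' ↔ v ∈ lg π) ∧
      (∀ v, v ∉ lg π → π' (ρ v) = ρ (π v))) ∧
    (∀ a b a' b', a ∈ lg π → b ∈ lg π → a ≠ b → a' ∈ lg π' → b' ∈ lg π' → a' ≠ b' →
      ∃ ρ : Equiv.Perm V, (∀ v, ρ v ∈ lg π' ↔ v ∈ lg π) ∧
        (∀ v, v ∉ lg π → π' (ρ v) = ρ (π v)) ∧ ρ a = a' ∧ ρ b = b') := by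
  have part1 : ∃ ρ : Equiv.Perm V, (∀ v, ρ v ∈ lg π' ↔ v ∈ lg π) ∧
      (∀ v, v ∉ lg π → π' (ρ v) = ρ (π v)) := by
    obtain ⟨τ, a1, a2, a3, a4⟩ := h651_tau π hf
    obtain ⟨τ', b1, b2, b3, b4⟩ := h651_tau π' hf'
    have hconj : IsConj τ τ' := by
      rw [Equiv.Perm.isConj_iff_cycleType_eq, h651_ctrep τ a3, h651_ctrep τ' b3, a4, b4, hc]
    obtain ⟨ρ, hρ⟩ := isConj_iff.1 hconj
    have hcm : ∀ v, τ' (ρ v) = ρ (τ v) := by
      intro v
      rw [← hρ]
      simp
    have hmem : ∀ v, ρ v ∈ lg π' ↔ v ∈ lg π := by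
      intro v
      have e1 : v ∈ lg π ↔ τ v = v := by
        constructor
        · exact a2 v
        · intro h
          by_contra h'
          rw [a1 v h'] at h
          exact hf v h
      have e2 : ρ v ∈ lg π' ↔ τ' (ρ v) = ρ v := by
        constructor
        · exact b2 _
        · intro h
          by_contra h'
          rw [b1 _ h'] at h
          exact hf' _ h
      rw [e1, e2, hcm]
      exact ρ.injective.eq_iff
    refine ⟨ρ, hmem, ?_⟩
    intro v hv
    have h1 : ρ v ∉ lg π' := fun h => hv ((hmem v).1 h)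
    rw [← b1 _ h1, hcm, a1 v hv]
  refine ⟨part1, ?_⟩
  intro a b a' b' ha hb hab ha' hb' hab'
  obtain ⟨ρ, h1, h2⟩ := part1
  have key : ∀ (ρ : Equiv.Perm V) (p q : V), (∀ v, ρ v ∈ lg π' ↔ v ∈ lg π) →
      (∀ v, v ∉ lg π → π' (ρ v) = ρ (π v)) → p ∈ lg π' → q ∈ lg π' →
      (∀ v, (Equiv.swap p q * ρ) v ∈ lg π' ↔ v ∈ lg π) ∧
      (∀ v, v ∉ lg π → π' ((Equiv.swap p q * ρ) v) = (Equiv.swap p q * ρ) (π v)) := by
    intro ρ p q g1 g2 hp hq
    have hsw : ∀ w, Equiv.swap p q w ∈ lg π' ↔ w ∈ lg π' := by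
      intro w
      by_cases hw : w = p
      · rw [hw, Equiv.swap_apply_left]; simp [hp, hq]
      · by_cases hw2 : w = q
        · rw [hw2, Equiv.swap_apply_right]; simp [hp, hq]
        · rw [Equiv.swap_apply_of_ne_of_ne hw hw2]
    have hfix : ∀ w, w ∉ lg π' → Equiv.swap p q w = w := by
      intro w hw
      apply Equiv.swap_apply_of_ne_of_ne
      · rintro rfl; exact hw hp
      · rintro rfl; exact hw hq
    refine ⟨fun v => ?_, fun v hv => ?_⟩
    · rw [Equiv.Perm.mul_apply, hsw, g1]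
    · have k1 : ρ v ∉ lg π' := fun h => hv ((g1 v).1 h)
      have k2 : π v ∉ lg π := by
        have : π (π v) = v := by simpa [lg] using hv
        simp [lg, this]
      have k3 : ρ (π v) ∉ lg π' := fun h => k2 ((g1 _).1 h)
      rw [Equiv.Perm.mul_apply, Equiv.Perm.mul_apply, hfix _ k1, hfix _ k3, g2 v hv]
  have hra : ρ a ∈ lg π' := (h1 a).2 ha
  obtain ⟨c1, c2⟩ := key ρ (ρ a) a' h1 h2 hra ha'
  set ρ1 := Equiv.swap (ρ a) a' * ρ with hρ1
  have hρ1a : ρ1 a = a' := by rw [hρ1, Equiv.Perm.mul_apply, Equiv.swap_apply_left]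
  have hrb : ρ1 b ∈ lg π' := (c1 b).2 hb
  obtain ⟨d1, d2⟩ := key ρ1 (ρ1 b) b' c1 c2 hrb hb'
  refine ⟨Equiv.swap (ρ1 b) b' * ρ1, d1, d2, ?_, ?_⟩
  · rw [Equiv.Perm.mul_apply, hρ1a]
    apply Equiv.swap_apply_of_ne_of_ne
    · intro h
      apply hab
      apply ρ1.injective
      rw [hρ1a, h]
    · exact hab'
  · rw [Equiv.Perm.mul_apply, Equiv.swap_apply_left]

end Pool.Agent.Helper651.SR
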