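import Pool.Agent.Helper651.SRF.Defs
import Pool.Agent.Helper651.SRF.Relab
import Pool.Agent.Helper651.SRF.Probb

set_option autoImplicit false
open MeasureTheory Set Filter Topology Classical
open scoped ENNReal Nat

namespace Pool.Agent.Helper651.SR

theorem Jeq_mem {V : Type} [Fintype V] (π : Equiv.Perm V) (v : V) : v ∈ lg π ↔ π (π v) ≠ v := by
  unfold lg
  rw [Finset.mem_filter]
  exact ⟨fun h => h.2, fun h => ⟨Finset.mem_univ _, h⟩⟩

theorem Jeq_DD {V : Type} [Fintype V] (π π' : Equiv.Perm V) (ρ : Equiv.Perm V)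
    (h1 : ∀ v, ρ v ∈ lg π' ↔ v ∈ lg π) (h2 : ∀ v, v ∉ lg π → π' (ρ v) = ρ (π v)) (x : V → ℝ) :
    DD π (x ∘ ρ) = DD π' x := by
  unfold DD
  congr 1
  refine Finset.prod_equiv (ρ.prodCongr ρ) ?_ ?_
  · rintro ⟨u, w⟩
    unfold npair
    rw [Finset.mem_filter, Finset.mem_filter]
    have key : (π u = w ∧ π w = u) ↔ (π' (ρ u) = ρ w ∧ π' (ρ w) = ρ u) := by
      constructor
      · rintro ⟨a, b⟩
        have hu : u ∉ lg π := by rw [Jeq_mem, a, b]; simp
        have hw : w ∉ lg π := by rw [Jeq_mem, b, a]; simp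
        exact ⟨by rw [h2 u hu, a], by rw [h2 w hw, b]⟩
      · rintro ⟨a, b⟩
        have hu : u ∉ lg π := by rw [← h1, Jeq_mem, a, b]; simp
        have hw : w ∉ lg π := by rw [← h1, Jeq_mem, b, a]; simp
        rw [h2 u hu] at a
        rw [h2 w hw] at b
        exact ⟨ρ.injective a, ρ.injective b⟩
    constructor
    · rintro ⟨-, a, b⟩
      exact ⟨Finset.mem_univ _, fun h => a (ρ.injective h), fun h => b (key.2 h)⟩
    · rintro ⟨-, a, b⟩
      exact ⟨Finset.mem_univ _, fun h => a (congrArg ρ h), fun h => b (key.1 h)⟩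
  · rintro ⟨u, w⟩ _
    rfl

theorem Jeq_P {V : Type} [Fintype V] (π π' : Equiv.Perm V) (ρ : Equiv.Perm V)
    (h1 : ∀ v, ρ v ∈ lg π' ↔ v ∈ lg π) (x : V → ℝ) :
    ∏ v ∈ lg π, (x ∘ ρ) v = ∏ v ∈ lg π', x v :=
  Finset.prod_equiv ρ (fun v => (h1 v).symm) (fun v _ => rfl)

theorem Jeq_int {V : Type} [Fintype V] (ρ : Equiv.Perm V) (F : (V → ℝ) → ℝ) :
    ∫ x, F (x ∘ ρ) ∂(Measure.pi fun _ : V => lam) = ∫ x, F x ∂(Measure.pi fun _ : V => lam) := by
  have h := measurePreserving_piCongrLeft (fun _ : V => lam) ρ.symm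
  have h2 := h.integral_comp' F
  rw [← h2]
  refine integral_congr_ae (Eventually.of_forall fun x => ?_)
  show F (x ∘ ρ) = F (MeasurableEquiv.piCongrLeft (fun _ => ℝ) ρ.symm x)
  congr 1
  funext v
  have h3 := Equiv.piCongrLeft_apply_apply (P := fun _ : V => ℝ) (e := ρ.symm) x (ρ v)
  rw [Equiv.symm_apply_apply] at h3
  exact h3.symm

/-- the summands of `J1` -/
noncomputable def JeqK {V : Type} [Fintype V] (π : Equiv.Perm V) (a b : V) : ℝ :=
  ∫ x, (∏ v ∈ lg π, x v) * DD π x * (x a * x b) ∂(Measure.pi fun _ : V => lam)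

theorem Jeq_intK {V : Type} [Fintype V] (π : Equiv.Perm V) (a b : V) :
    Integrable (fun x => (∏ v ∈ lg π, x v) * DD π x * (x a * x b))
      (Measure.pi fun _ : V => lam) := by
  have hae : ∀ v : V, ∀ᵐ x ∂(Measure.pi fun _ : V => lam), x v ∈ Icc (0 : ℝ) 1 := by
    intro v
    have h1 : ∀ᵐ t ∂lam, t ∈ Icc (0 : ℝ) 1 := ae_restrict_mem measurableSet_Icc
    exact (Measure.tendsto_eval_ae_ae (μ := fun _ : V => lam) (i := v)).eventually h1
  refine (int_DD π).mul_bdd (c := 1) ?_ ?_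
  · exact ((measurable_pi_apply a).mul (measurable_pi_apply b)).aestronglyMeasurable
  · filter_upwards [hae a, hae b] with x ha hb
    rw [norm_mul, Real.norm_of_nonneg ha.1, Real.norm_of_nonneg hb.1]
    exact mul_le_one₀ ha.2 hb.1 hb.2

theorem Jeq_J1 {V : Type} [Fintype V] (π : Equiv.Perm V) :
    J1 π = ∑ v ∈ lg π, JeqK π v (π v) := by
  unfold J1 ss JeqK
  rw [← integral_finsetSum _ (fun v _ => Jeq_intK π v (π v))]
  refine integral_congr_ae (Eventually.of_forall fun x => ?_)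
  show (∏ v ∈ lg π, x v) * DD π x * (∑ v ∈ lg π, x v * x (π v)) = _
  rw [Finset.mul_sum]

theorem Jeq_K {V : Type} [Fintype V] (π π' : Equiv.Perm V) (hf : ∀ v, π v ≠ v)
    (hf' : ∀ v, π' v ≠ v) (hc : (lg π).card = (lg π').card) (v v' : V) (hv : v ∈ lg π)
    (hv' : v' ∈ lg π') : JeqK π v (π v) = JeqK π' v' (π' v') := by
  have hm : ∀ (σ : Equiv.Perm V) (u : V), u ∈ lg σ → σ u ∈ lg σ := by
    intro σ u hu
    rw [Jeq_mem] at hu ⊢
    exact fun h => hu (σ.injective h)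
  obtain ⟨ρ, h1, h2, h3, h4⟩ := (relab π π' hf hf' hc).2 v (π v) v' (π' v') hv (hm π v hv)
    (hf v).symm hv' (hm π' v' hv') (hf' v').symm
  unfold JeqK
  rw [← Jeq_int ρ (fun x => (∏ v ∈ lg π, x v) * DD π x * (x v * x (π v)))]
  refine integral_congr_ae (Eventually.of_forall fun x => ?_)
  show (∏ v ∈ lg π, (x ∘ ρ) v) * DD π (x ∘ ρ) * (x (ρ v) * x (ρ (π v))) = _
  rw [Jeq_P π π' ρ h1, Jeq_DD π π' ρ h1 h2, h3, h4]

theorem J_eq {V : Type} [Fintype V] (π π' : Equiv.Perm V) (hf : ∀ v, π v ≠ v)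
    (hf' : ∀ v, π' v ≠ v) (hc : (lg π).card = (lg π').card) :
    J0 π = J0 π' ∧ J1 π = J1 π' := by
  constructor
  · obtain ⟨ρ, h1, h2⟩ := (relab π π' hf hf' hc).1
    unfold J0
    rw [← Jeq_int ρ (fun x => (∏ v ∈ lg π, x v) * DD π x)]
    refine integral_congr_ae (Eventually.of_forall fun x => ?_)
    show (∏ v ∈ lg π, (x ∘ ρ) v) * DD π (x ∘ ρ) = _
    rw [Jeq_P π π' ρ h1, Jeq_DD π π' ρ h1 h2]
  · rw [Jeq_J1, Jeq_J1]
    rcases (lg π').eq_empty_or_nonempty with he | ⟨v0, hv0⟩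
    · have he2 : lg π = ∅ := by
        rw [← Finset.card_eq_zero, hc, he, Finset.card_empty]
      rw [he, he2, Finset.sum_empty, Finset.sum_empty]
    · rw [Finset.sum_congr rfl (fun v hv => Jeq_K π π' hf hf' hc v v0 hv hv0),
        Finset.sum_congr rfl (fun v hv => Jeq_K π' π' hf' hf' rfl v v0 hv hv0),
        Finset.sum_const, Finset.sum_const, hc]

end Pool.Agent.Helper651.SR
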