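import Pool.Agent.Helper651.SRF.Defs
import Pool.Agent.Helper651.SR.AeGood
import Pool.Agent.Helper651.SRF.Euler
import Pool.Agent.Helper651.SRF.Probb
import Pool.Agent.Helper651.SRF.MeasSp

set_option autoImplicit false
open MeasureTheory Set Filter Topology Classical
open scoped ENNReal Nat

namespace Pool.Agent.Helper651.SR

theorem s_meas {V : Type} [Fintype V] :
    MeasurableSet {U : V × V → ℝ | ∃ m : V → V, IsM m ∧ Stab U m} := by
  have e : {U : V × V → ℝ | ∃ m : V → V, IsM m ∧ Stab U m} =
      ⋃ m : V → V, {U | IsM m ∧ Stab U m} := by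
    ext U
    simp
  rw [e]
  apply MeasurableSet.iUnion
  intro m
  by_cases hm : IsM m
  · have e2 : {U : V × V → ℝ | IsM m ∧ Stab U m} =
        ⋂ u : V, ⋂ w : V, {U | u ≠ w → ¬ (U (u, w) < U (u, m u) ∧ U (w, u) < U (w, m w))} := by
      ext U
      simp [hm, Stab]
    rw [e2]
    apply MeasurableSet.iInter
    intro u
    apply MeasurableSet.iInter
    intro w
    by_cases huw : u = w
    · have : {U : V × V → ℝ | u ≠ w → ¬ (U (u, w) < U (u, m u) ∧ U (w, u) < U (w, m w))} =
          Set.univ := by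
        ext U
        simp [huw]
      rw [this]
      exact MeasurableSet.univ
    · have : {U : V × V → ℝ | u ≠ w → ¬ (U (u, w) < U (u, m u) ∧ U (w, u) < U (w, m w))} =
          ({U : V × V → ℝ | U (u, w) < U (u, m u)} ∩ {U : V × V → ℝ | U (w, u) < U (w, m w)})ᶜ := by
        ext U
        simp [huw]
      rw [this]
      have hmeas : ∀ q : V × V, Measurable (fun U : V × V → ℝ => U q) := fun q =>
        measurable_pi_apply q
      exact ((measurableSet_lt (hmeas (u, w)) (hmeas (u, m u))).inter
        (measurableSet_lt (hmeas (w, u)) (hmeas (w, m w)))).compl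
  · have : {U : V × V → ℝ | IsM m ∧ Stab U m} = ∅ := by
      ext U
      simp [hm]
    rw [this]
    exact MeasurableSet.empty


theorem prob_sum (V : Type) [Fintype V] :
    (mu V {U | ∃ m : V → V, IsM m ∧ Stab U m}).toReal =
      ∑ π ∈ Finset.univ.filter (fun π : Equiv.Perm V => (∀ v, π v ≠ v) ∧ AE π),
        (wt π : ℝ) * JJ π := by
  have hP : IsProbabilityMeasure (mu V) := by unfold mu; infer_instance
  have h1 : (mu V {U | ∃ m : V → V, IsM m ∧ Stab U m}).toReal =
      ∫ U, ({U : V × V → ℝ | ∃ m : V → V, IsM m ∧ Stab U m}.indicator (1 : (V × V → ℝ) → ℝ) U)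
        ∂(mu V) := (integral_indicator_one s_meas).symm
  have h2 : ∀ᵐ U ∂(mu V),
      ({U : V × V → ℝ | ∃ m : V → V, IsM m ∧ Stab U m}.indicator (1 : (V × V → ℝ) → ℝ) U) =
      ∑ π ∈ Finset.univ.filter (fun π : Equiv.Perm V => (∀ v, π v ≠ v) ∧ AE π),
        (wt π : ℝ) * ({U : V × V → ℝ | SP U π}.indicator (1 : (V × V → ℝ) → ℝ) U) := by
    filter_upwards [ae_good V] with U hU
    have he := euler hU.2
    have he' := congrArg (fun z : ℤ => (z : ℝ)) he
    beta_reduce at he'
    rw [Int.cast_sum] at he'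
    rw [Finset.sum_filter] at he' ⊢
    have e1 : ({U : V × V → ℝ | ∃ m : V → V, IsM m ∧ Stab U m}.indicator
        (1 : (V × V → ℝ) → ℝ) U) =
        (((if (∃ m : V → V, IsM m ∧ Stab U m) then (1 : ℤ) else 0) : ℤ) : ℝ) := by
      by_cases h : ∃ m : V → V, IsM m ∧ Stab U m
      · rw [if_pos h, indicator_of_mem (show U ∈ {U : V × V → ℝ | ∃ m : V → V, IsM m ∧ Stab U m}
          from h)]
        simp
      · rw [if_neg h, indicator_of_notMem
          (show U ∉ {U : V × V → ℝ | ∃ m : V → V, IsM m ∧ Stab U m} from h)]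
        simp
    rw [e1, ← he']
    apply Finset.sum_congr rfl
    intro π _
    by_cases hsp : SP U π
    · rw [indicator_of_mem (show U ∈ {U : V × V → ℝ | SP U π} from hsp)]
      by_cases ha : AE π
      · rw [if_pos ⟨hsp, ha⟩, if_pos ⟨hsp.nofix, ha⟩]
        simp
      · rw [if_neg (fun h => ha h.2), if_neg (fun h => ha h.2)]
    · rw [indicator_of_notMem (show U ∉ {U : V × V → ℝ | SP U π} from hsp),
        if_neg (fun h => hsp h.1)]
      split_ifs <;> simp
  rw [h1, integral_congr_ae h2, integral_finsetSum]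
  · apply Finset.sum_congr rfl
    intro π hπ
    rw [Finset.mem_filter] at hπ
    rw [integral_const_mul, integral_indicator_one (meas_SP π), ← probB π hπ.2.1]
    rfl
  · intro π _
    apply Integrable.const_mul
    exact (integrable_indicator_iff (meas_SP π)).mpr (integrableOn_const (by simp))

end Pool.Agent.Helper651.SR
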