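import Pool.Agent.Helper651.SRF.Defs

set_option autoImplicit false
open MeasureTheory Set Filter Topology Classical
open scoped ENNReal Nat

namespace Pool.Agent.Helper651.SR

theorem wt_lc_mp {V : Type} [Fintype V] (π : Equiv.Perm V) (v : V) (hv : π v ≠ v) :
    Function.minimalPeriod π v = (π.cycleOf v).support.card := by
  have hc := Equiv.Perm.isCycle_cycleOf π hv
  rw [← hc.orderOf]
  have hcv : (π.cycleOf v) v ≠ v := by
    rw [Equiv.Perm.cycleOf_apply_self]
    exact hv
  have key : ∀ n, Function.minimalPeriod π v ∣ n ↔ orderOf (π.cycleOf v) ∣ n := by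
    intro n
    rw [← Function.isPeriodicPt_iff_minimalPeriod_dvd, orderOf_dvd_iff_pow_eq_one,
      hc.pow_eq_one_iff' hcv, Equiv.Perm.cycleOf_pow_apply_self, Function.IsPeriodicPt,
      Function.IsFixedPt, Equiv.Perm.iterate_eq_pow]
  exact Nat.dvd_antisymm ((key _).2 dvd_rfl) ((key _).1 dvd_rfl)

theorem wt_lc_eq {V : Type} [Fintype V] (π : Equiv.Perm V) (c : Equiv.Perm V)
    (hc : c ∈ π.cycleFactorsFinset) (v : V) (hv : v ∈ c.support) :
    π v ≠ v ∧ π.cycleOf v = c ∧ Function.minimalPeriod π v = c.support.card := by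
  have h1 := Equiv.Perm.cycle_is_cycleOf hv hc
  have h2 : π v ≠ v := by
    have h3 := (Equiv.Perm.mem_cycleFactorsFinset_iff.1 hc).2 v hv
    rw [← h3]
    exact Equiv.Perm.mem_support.1 hv
  refine ⟨h2, h1.symm, ?_⟩
  rw [wt_lc_mp π v h2, ← h1]

theorem wt_lc_even {V : Type} [Fintype V] (π : Equiv.Perm V) (he : AE π) :
    ∀ k ∈ π.cycleType, Even k := by
  intro k hk
  rw [Equiv.Perm.cycleType_def, Multiset.mem_map] at hk
  obtain ⟨c, hc, rfl⟩ := hk
  have hc' : c ∈ π.cycleFactorsFinset := hc
  have hcyc := (Equiv.Perm.mem_cycleFactorsFinset_iff.1 hc').1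
  obtain ⟨v, hv⟩ := hcyc.nonempty_support
  have h := (wt_lc_eq π c hc' v hv).2.2
  show Even c.support.card
  rw [← h]
  exact he v

theorem wt_lc_two {V : Type} [Fintype V] (π : Equiv.Perm V) (hf : ∀ v, π v ≠ v) :
    (Finset.univ.filter (fun v => π (π v) = v)).card =
      2 * (π.cycleFactorsFinset.filter (fun c => c.support.card = 2)).card := by
  have hmaps : ∀ v ∈ (Finset.univ.filter (fun v => π (π v) = v)),
      π.cycleOf v ∈ π.cycleFactorsFinset.filter (fun c => c.support.card = 2) := by
    intro v hv
    rw [Finset.mem_filter] at hv ⊢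
    refine ⟨Equiv.Perm.cycleOf_mem_cycleFactorsFinset_iff.2 (Equiv.Perm.mem_support.2 (hf v)), ?_⟩
    rw [← wt_lc_mp π v (hf v)]
    have h1 : Function.minimalPeriod π v ∣ 2 := by
      rw [← Function.isPeriodicPt_iff_minimalPeriod_dvd]
      exact hv.2
    rcases (Nat.dvd_prime Nat.prime_two).1 h1 with h | h
    · exact absurd (Function.minimalPeriod_eq_one_iff_isFixedPt.1 h) (hf v)
    · exact h
  rw [Finset.card_eq_sum_card_fiberwise (f := fun v => π.cycleOf v) hmaps]
  have hfib : ∀ c ∈ π.cycleFactorsFinset.filter (fun c => c.support.card = 2),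
      ((Finset.univ.filter (fun v => π (π v) = v)).filter (fun v => π.cycleOf v = c)).card = 2 := by
    intro c hc
    rw [Finset.mem_filter] at hc
    have e : (Finset.univ.filter (fun v => π (π v) = v)).filter (fun v => π.cycleOf v = c) =
        c.support := by
      ext v
      rw [Finset.mem_filter, Finset.mem_filter]
      constructor
      · rintro ⟨_, rfl⟩
        rw [Equiv.Perm.mem_support, Equiv.Perm.cycleOf_apply_self]
        exact hf v
      · intro hv
        obtain ⟨h1, h2, h3⟩ := wt_lc_eq π c hc.1 v hv
        rw [hc.2] at h3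
        refine ⟨⟨Finset.mem_univ _, ?_⟩, h2⟩
        have h4 : Function.IsPeriodicPt π 2 v := by
          rw [← h3]
          exact Function.isPeriodicPt_minimalPeriod π v
        exact h4
    rw [e, hc.2]
  rw [Finset.sum_congr rfl hfib, Finset.sum_const, smul_eq_mul, mul_comm]

theorem wt_lc {V : Type} [Fintype V] (π : Equiv.Perm V) (hf : ∀ v, π v ≠ v) (he : AE π) :
    wt π = (-1) ^ lc π := by
  set t := (π.cycleFactorsFinset.filter (fun c => c.support.card = 2)).card with ht
  have hcard : (Fintype.card V - (lg π).card) / 2 = t := by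
    have h1 := wt_lc_two π hf
    have h2 : (Finset.univ.filter (fun v => π (π v) = v)).card + (lg π).card =
        Fintype.card V := by
      have h3 := Finset.card_filter_add_card_filter_not (s := (Finset.univ : Finset V))
        (fun v => π (π v) = v)
      exact h3
    omega
  have hsum : Even π.cycleType.sum := by
    have hgen : ∀ m : Multiset ℕ, (∀ k ∈ m, Even k) → Even m.sum := by
      intro m
      induction m using Multiset.induction_on with
      | empty => intro _; simp
      | cons a m ih =>
        intro h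
        rw [Multiset.sum_cons]
        exact (h a (Multiset.mem_cons_self a m)).add
          (ih fun k hk => h k (Multiset.mem_cons_of_mem hk))
    exact hgen _ (wt_lc_even π he)
  have htc : Multiset.card (π.cycleType.filter (fun k => ¬ 2 < k)) = t := by
    have h1 : π.cycleType.filter (fun k => ¬ 2 < k) = π.cycleType.filter (fun k => k = 2) := by
      apply Multiset.filter_congr
      intro k hk
      have := Equiv.Perm.two_le_of_mem_cycleType hk
      constructor <;> intro h <;> omega
    rw [h1, Equiv.Perm.cycleType_def, Multiset.filter_map, Multiset.card_map]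
    rfl
  have hcc : Multiset.card π.cycleType = lc π + t := by
    rw [← htc]
    unfold lc
    rw [← Multiset.card_add, Multiset.filter_add_not]
  unfold wt
  rw [hcard, Equiv.Perm.sign_of_cycleType, hcc]
  push_cast
  rw [pow_add, hsum.neg_one_pow, one_mul, pow_add, mul_assoc, ← pow_add, ← two_mul, pow_mul]
  norm_num

end Pool.Agent.Helper651.SR
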