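import Pool.Agent.Helper651.SRF.Defs
import Pool.Agent.Helper651.SRF.ProbSum
import Pool.Agent.Helper651.SRF.WtLc
import Pool.Agent.Helper651.SRF.J0Est
import Pool.Agent.Helper651.SRF.J1Est
import Pool.Agent.Helper651.SRF.JEq
import Pool.Agent.Helper651.SRF.CtInfo
import Pool.Agent.Helper651.SRF.Cnt
import Pool.Agent.Helper651.SRF.FfRec
import Pool.Agent.Helper651.SRF.FBd
import Pool.Agent.Helper651.SRF.RrBd

set_option autoImplicit false
open MeasureTheory Set Filter Topology Classical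
open scoped ENNReal Nat

namespace Pool.Agent.Helper651.SR

theorem even_lg_aux {V : Type} [Fintype V] (π : Equiv.Perm V) (hf : ∀ v, π v ≠ v) (he : AE π) :
    2 ∣ (lg π).card := by
  rw [ct_lg]
  apply Multiset.dvd_sum
  intro x hx
  have := ((ct_AE π).1 ⟨hf, he⟩).2 x (Multiset.mem_of_mem_filter hx)
  exact this.two_dvd

noncomputable def TT (V : Type) [Fintype V] (k : ℕ) : Finset (Equiv.Perm V) :=
  Finset.univ.filter (fun π : Equiv.Perm V => (∀ v, π v ≠ v) ∧ AE π ∧ (lg π).card = 2 * k)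

theorem mem_TT {V : Type} [Fintype V] {k : ℕ} {π : Equiv.Perm V} :
    π ∈ TT V k ↔ (∀ v, π v ≠ v) ∧ AE π ∧ (lg π).card = 2 * k := by
  simp [TT]

theorem sum_TT {V : Type} [Fintype V] {H : ℕ} (hV : Fintype.card V = 2 * H)
    (f : Equiv.Perm V → ℝ) :
    ∑ π ∈ Finset.univ.filter (fun π : Equiv.Perm V => (∀ v, π v ≠ v) ∧ AE π), f π =
      ∑ k ∈ Finset.range (H + 1), ∑ π ∈ TT V k, f π := by
  rw [← Finset.sum_fiberwise_of_maps_to (t := Finset.range (H + 1))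
    (g := fun π : Equiv.Perm V => (lg π).card / 2)]
  · refine Finset.sum_congr rfl fun k _ => ?_
    refine Finset.sum_congr ?_ fun _ _ => rfl
    ext π
    rw [mem_TT, Finset.mem_filter, Finset.mem_filter]
    constructor
    · rintro ⟨⟨-, hf, he⟩, h⟩
      obtain ⟨c, hc⟩ := even_lg_aux π hf he
      exact ⟨hf, he, by omega⟩
    · rintro ⟨hf, he, h⟩
      exact ⟨⟨Finset.mem_univ _, hf, he⟩, by omega⟩
  · intro π _
    have : (lg π).card ≤ Fintype.card V := Finset.card_le_univ _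
    rw [Finset.mem_range]
    omega

open Classical in
noncomputable def Th (V : Type) [Fintype V] (H k : ℕ) : ℝ :=
  if h : ∃ π : Equiv.Perm V, π ∈ TT V k then
    dbl (H + k) * (J0 h.choose + J1 h.choose) else Real.exp (1 / 2)

theorem Th_eq {V : Type} [Fintype V] (H k : ℕ) {π : Equiv.Perm V} (hπ : π ∈ TT V k) :
    dbl (H + k) * (J0 π + J1 π) = Th V H k := by
  have h : ∃ π : Equiv.Perm V, π ∈ TT V k := ⟨π, hπ⟩
  unfold Th
  rw [dif_pos h]
  have h1 := mem_TT.1 h.choose_spec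
  have h2 := mem_TT.1 hπ
  obtain ⟨e1, e2⟩ := J_eq π h.choose h2.1 h1.1 (by rw [h2.2.2, h1.2.2])
  rw [e1, e2]

theorem Th_bd {V : Type} [Fintype V] (H k : ℕ) (hH : 1 ≤ H) (hV : Fintype.card V = 2 * H)
    (hk : k ≤ H) : |Th V H k - Real.exp (1 / 2)| ≤ 10 ^ 8 * √((k + 1) / H) := by
  have hs : 0 ≤ √(((k : ℝ) + 1) / H) := Real.sqrt_nonneg _
  by_cases h : ∃ π : Equiv.Perm V, π ∈ TT V k
  · obtain ⟨π, hπ⟩ := h
    rw [← Th_eq H k hπ]
    obtain ⟨hf, he, hc⟩ := mem_TT.1 hπ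
    have h0 := J0_est π hf H k hH hV hc
    obtain ⟨h1, h2⟩ := J1_est π hf H k hH hV hc
    have hH0 : (0 : ℝ) < H := by exact_mod_cast hH
    have hkH : (k : ℝ) / H ≤ √(((k : ℝ) + 1) / H) := by
      apply Real.le_sqrt_of_sq_le
      have hk1 : (k : ℝ) / H ≤ 1 := by
        rw [div_le_one hH0]; exact_mod_cast hk
      have hk0 : 0 ≤ (k : ℝ) / H := by positivity
      have : ((k : ℝ) / H) ^ 2 ≤ (k : ℝ) / H := by nlinarith
      refine this.trans ?_
      gcongr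
      linarith
    have h3 : 0 ≤ dbl (H + k) * J1 π := mul_nonneg (dbl_pos _).le h1
    rw [abs_le] at h0 ⊢
    constructor
    · nlinarith [h0.1, h0.2]
    · nlinarith [h0.1, h0.2]
  · unfold Th
    rw [dif_neg h, sub_self, abs_zero]
    positivity

theorem cnt_TT {V : Type} [Fintype V] (H k : ℕ) (hV : Fintype.card V = 2 * H)
    (hk : k ≤ H) (a : ℝ) :
    (∑ π ∈ TT V k, a ^ lc π) / dbl (H + k) = rr H k * ff a k := by
  have h1 := cnt (V := V) a (H - k) k (by omega)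
  have h2 : 2 * (H - k) + 2 * k = 2 * H := by omega
  rw [h2] at h1
  unfold TT
  rw [h1, ← rr_eq H k hk]
  ring

theorem key_TT {V : Type} [Fintype V] (H k : ℕ) (hH : 1 ≤ H) (hV : Fintype.card V = 2 * H)
    (hk : k ≤ H) :
    |∑ π ∈ TT V k, (wt π : ℝ) * JJ π - ff (-1) k * rr H k * Th V H k| ≤
      10 ^ 6 * (rr H k * ((k : ℝ) / H) ^ 2) := by
  have hD := dbl_pos (H + k)
  have hwt : ∀ π ∈ TT V k, (wt π : ℝ) = (-1 : ℝ) ^ lc π := by
    intro π hπ
    obtain ⟨hf, he, hc⟩ := mem_TT.1 hπ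
    rw [wt_lc π hf he]
    push_cast
    rfl
  have e1 : ff (-1) k * rr H k * Th V H k =
      ∑ π ∈ TT V k, (wt π : ℝ) * (J0 π + J1 π) := by
    have h1 : ∑ π ∈ TT V k, (wt π : ℝ) * (J0 π + J1 π) =
        ∑ π ∈ TT V k, (-1 : ℝ) ^ lc π * (Th V H k / dbl (H + k)) := by
      refine Finset.sum_congr rfl fun π hπ => ?_
      rw [hwt π hπ, ← Th_eq H k hπ, mul_div_cancel_left₀ _ hD.ne']
    rw [h1, ← Finset.sum_mul]
    have h2 := cnt_TT H k hV hk (-1)
    calc ff (-1) k * rr H k * Th V H k = (rr H k * ff (-1) k) * Th V H k := by ring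
      _ = (∑ π ∈ TT V k, (-1 : ℝ) ^ lc π) * (Th V H k / dbl (H + k)) := by
        rw [← h2]; ring
  rw [e1, ← Finset.sum_sub_distrib]
  have h3 : ∀ π ∈ TT V k, |(wt π : ℝ) * JJ π - (wt π : ℝ) * (J0 π + J1 π)| ≤
      10 ^ 6 * ((k : ℝ) / H) ^ 2 / dbl (H + k) := by
    intro π hπ
    obtain ⟨hf, he, hc⟩ := mem_TT.1 hπ
    obtain ⟨h4, h5⟩ := J2_est π hf H k hH hV hc
    rw [← mul_sub, abs_mul, hwt π hπ, abs_pow, abs_neg, abs_one, one_pow, one_mul]
    have h6 : JJ π - (J0 π + J1 π) = JJ π - J0 π - J1 π := by ring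
    rw [h6, abs_of_nonneg h4, le_div_iff₀ hD, mul_comm]
    exact h5
  refine (Finset.abs_sum_le_sum_abs _ _).trans ((Finset.sum_le_sum h3).trans ?_)
  have h7 := cnt_TT (V := V) H k hV hk 1
  have h8 : ff 1 k ≤ 1 := (f1_bd (ff 1) (ff_zero 1) (fun k => by
    have := ff_rec 1 k
    rw [one_mul] at this
    exact this) k).2
  have h9 := (rr_bd H k hH hk).1
  simp only [one_pow] at h7
  have h10 : ∑ _π ∈ TT V k, 10 ^ 6 * ((k : ℝ) / H) ^ 2 / dbl (H + k) =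
      10 ^ 6 * ((k : ℝ) / H) ^ 2 * ((∑ _π ∈ TT V k, (1 : ℝ)) / dbl (H + k)) := by
    rw [Finset.sum_const, Finset.sum_const, nsmul_eq_mul, nsmul_eq_mul]
    ring
  rw [h10, h7]
  have h11 : rr H k * ff 1 k ≤ rr H k := by nlinarith
  have h12 : 0 ≤ 10 ^ 6 * ((k : ℝ) / H) ^ 2 := by positivity
  calc 10 ^ 6 * ((k : ℝ) / H) ^ 2 * (rr H k * ff 1 k)
      ≤ 10 ^ 6 * ((k : ℝ) / H) ^ 2 * rr H k := mul_le_mul_of_nonneg_left h11 h12
    _ = _ := by ring


theorem P_decomp (V : Type) [Fintype V] (H : ℕ) (hH : 1 ≤ H) (hV : Fintype.card V = 2 * H) :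
    ∃ Θ : ℕ → ℝ, (∀ k ≤ H, |Θ k - Real.exp (1 / 2)| ≤ 10 ^ 8 * √((k + 1) / H)) ∧
      |(mu V {U | ∃ m : V → V, IsM m ∧ Stab U m}).toReal -
        ∑ k ∈ Finset.range (H + 1), ff (-1) k * rr H k * Θ k| ≤
        10 ^ 8 * ∑ k ∈ Finset.range (H + 1), rr H k * ((k : ℝ) / H) ^ 2 := by
  refine ⟨Th V H, fun k hk => Th_bd H k hH hV hk, ?_⟩
  rw [prob_sum, sum_TT hV, ← Finset.sum_sub_distrib]
  have h1 : ∀ k ∈ Finset.range (H + 1),
      |∑ π ∈ TT V k, (wt π : ℝ) * JJ π - ff (-1) k * rr H k * Th V H k| ≤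
      10 ^ 6 * (rr H k * ((k : ℝ) / H) ^ 2) := fun k hk =>
    key_TT H k hH hV (by rw [Finset.mem_range] at hk; omega)
  refine (Finset.abs_sum_le_sum_abs _ _).trans ((Finset.sum_le_sum h1).trans ?_)
  rw [← Finset.mul_sum]
  have h2 : 0 ≤ ∑ k ∈ Finset.range (H + 1), rr H k * ((k : ℝ) / H) ^ 2 := by
    refine Finset.sum_nonneg fun k hk => ?_
    have := (rr_bd H k hH (by rw [Finset.mem_range] at hk; omega)).1
    positivity
  nlinarith

end Pool.Agent.Helper651.SR
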