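import Pool.Agent.Helper651.SRF.Defs
import Pool.Agent.Helper651.SRF.PDecomp
import Pool.Agent.Helper651.SRF.FinalNum
import Pool.Agent.Helper651.SRF.FfRec

set_option autoImplicit false
open MeasureTheory Set Filter Topology Classical
open scoped ENNReal Nat

namespace Pool.Agent.Helper651.SR

theorem fin_main : ∃ c C : ℝ, 0 < c ∧ 0 < C ∧ ∃ N : ℕ, ∀ H : ℕ, N ≤ H → ∀ (V : Type) [Fintype V],
    Fintype.card V = 2 * H →
    c * (2 * H : ℝ) ^ (-(1 / 4 : ℝ)) ≤ (mu V {U | ∃ m : V → V, IsM m ∧ Stab U m}).toReal ∧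
      (mu V {U | ∃ m : V → V, IsM m ∧ Stab U m}).toReal ≤
        C * (2 * H : ℝ) ^ (-(1 / 4 : ℝ)) := by
  obtain ⟨c, C, hc, hC, N, hN⟩ := final_num (10 ^ 8) (by norm_num) (ff (-1)) (ff_zero (-1))
    (fun k => by rw [ff_rec (-1) k]; ring)
  refine ⟨c, C, hc, hC, max N 1, ?_⟩
  intro H hH V _ hV
  obtain ⟨Θ, h1, h2⟩ := P_decomp V H (le_trans (le_max_right N 1) hH) hV
  exact hN H (le_trans (le_max_left N 1) hH) _ Θ h1 h2

end Pool.Agent.Helper651.SR
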